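import Pool.Agent.W2helper88.GR.Dns

set_option autoImplicit false

/-!
# Project GR (helper88): short paths between vertices of the same class
-/

namespace Pool.Agent.W2helper88.GR

open Finset Filter
open Pool.Agent.H373R2.T7 (pz Vz lamz mem_pz nuB PerB nuB_le sys_fund Vz_pos)

/-- the edges: a prime sum, larger than the square root of `n`, and a rough difference -/
def Eg (n Y : ℕ) (x y : ℤ) : Prop := (1 ≤ x ∧ x ≤ n) ∧ (1 ≤ y ∧ y ≤ n) ∧ (x + y).natAbs.Prime ∧ n < (x + y).natAbs ^ 2 ∧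
  (∀ p : ℕ, p.Prime → p ≤ Y → ¬ (p : ℤ) ∣ y - x) ∧ (y - x).natAbs ≠ 1

lemma Eg_mono {n Y Y' : ℕ} {x y : ℤ} (h : Y' ≤ Y) (he : Eg n Y x y) : Eg n Y' x y := by
  obtain ⟨h1, h2, h3, h4, h5, h6⟩ := he
  exact ⟨h1, h2, h3, h4, fun p hp hpY => h5 p hp (hpY.trans h), h6⟩

lemma Wf_pos {n Y : ℕ} {x y : ℤ} (hx : 1 ≤ x ∧ x ≤ n) (hy : 1 ≤ y ∧ y ≤ n) (h : Wf n Y x y ≠ 0) (h1 : (y - x).natAbs ≠ 1) : Eg n Y x y := by
  unfold Wf at h
  have ha : ap n (x + y) ≠ 0 := left_ne_zero_of_mul h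
  have hl : lz Y (y - x) ≠ 0 := right_ne_zero_of_mul h
  unfold ap at ha
  rw [lz_ite] at hl
  have ha' : (x + y).natAbs.Prime ∧ n < (x + y).natAbs ^ 2 ∧ (x + y).natAbs ≤ 2 * n := by
    by_contra hcon
    exact ha (if_neg hcon)
  have hl' : ∀ p ∈ pz Y, ¬ (p : ℤ) ∣ y - x := by
    by_contra hcon
    exact hl (if_neg hcon)
  exact ⟨hx, hy, ha'.1, ha'.2.1, fun p hp hpY => hl' p (mem_pz.2 ⟨hpY, hp⟩), h1⟩

lemma sum_T (n : ℕ) (f : ℤ → ℝ) (B : ℝ) (T : Finset ℤ) (hf : ∀ y, 0 ≤ f y) (hB : ∀ y, f y ≤ B)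
    (h : ∀ y ∈ Icc (1 : ℤ) n, f y ≠ 0 → y ∈ T) : ∑ y ∈ Icc (1 : ℤ) n, f y ≤ T.card * B := by
  classical
  have e : ∑ y ∈ Icc (1 : ℤ) n, f y = ∑ y ∈ (Icc (1 : ℤ) n).filter (fun y => y ∈ T), f y := by
    symm
    apply sum_subset (filter_subset _ _)
    intro y hy hy2
    by_contra hne
    exact hy2 (mem_filter.2 ⟨hy, h y hy hne⟩)
  have hB0 : 0 ≤ B := (hf 0).trans (hB 0)
  rw [e]
  calc ∑ y ∈ (Icc (1 : ℤ) n).filter (fun y => y ∈ T), f y ≤ ∑ y ∈ (Icc (1 : ℤ) n).filter (fun y => y ∈ T), B :=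
        sum_le_sum fun y _ => hB y
    _ = ((Icc (1 : ℤ) n).filter (fun y => y ∈ T)).card * B := by rw [sum_const, nsmul_eq_mul]
    _ ≤ T.card * B := by
        apply mul_le_mul_of_nonneg_right _ hB0
        have : ((Icc (1 : ℤ) n).filter (fun y => y ∈ T)).card ≤ T.card := by
          apply card_le_card
          intro y hy
          exact (mem_filter.1 hy).2
        exact_mod_cast this

/-- an upper bound for the weights -/
lemma Wf_le : ∃ C : ℕ, ∀ᶠ n : ℕ in atTop, ∀ Y ≤ n, ∀ x y, Wf n Y x y ≤ 2 * Real.log n ^ C := by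
  obtain ⟨C, hC1, hC⟩ := V_low'
  refine ⟨C + 1, ?_⟩
  filter_upwards [hC, eventually_ge_atTop 2, ev_L 1] with n h hn hL Y hY x y
  unfold Wf
  calc ap n (x + y) * lz Y (y - x) ≤ (2 * Real.log n) * Real.log n ^ C :=
        mul_le_mul (ap_le n hn _) ((lz_le _ _).trans (h Y hY)) (lz_nonneg _ _) (by linarith)
    _ = _ := by rw [pow_succ]; ring

theorem good_nbr : ∀ᶠ n : ℕ in atTop, ∀ Y ≤ n, ∀ v x : ℤ, 1 ≤ v → v ≤ n → 1 ≤ x → x ≤ n →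
    (n : ℝ) / 64 < cf n (Wf n Y) v x → ∃ y, Eg n Y v y ∧ Eg n Y x y := by
  classical
  obtain ⟨C, hC⟩ := Wf_le
  filter_upwards [hC, eventually_ge_atTop 2, ev_L 1, ev_log (2 * C) 1024] with n h hn hL hs Y hY v x hv hvn hx hxn hcf
  by_contra hcon
  push Not at hcon
  have hn1 : (1 : ℝ) ≤ n := by exact_mod_cast (by omega : 1 ≤ n)
  have h1 := sum_T n (fun y => Wf n Y v y * Wf n Y x y) (4 * Real.log n ^ (2 * C)) {v - 1, v + 1, x - 1, x + 1}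
    (fun y => mul_nonneg (Wf_nonneg _ _ _ _) (Wf_nonneg _ _ _ _))
    (fun y => by
      calc Wf n Y v y * Wf n Y x y ≤ (2 * Real.log n ^ C) * (2 * Real.log n ^ C) :=
            mul_le_mul (h Y hY v y) (h Y hY x y) (Wf_nonneg _ _ _ _) (by positivity)
        _ = _ := by ring)
    (fun y hy hne => by
      rw [mem_Icc] at hy
      simp only [mem_insert, mem_singleton]
      by_contra hT
      push Not at hT
      have g1 := Wf_pos (n := n) (Y := Y) ⟨hv, hvn⟩ hy (left_ne_zero_of_mul hne) (by omega)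
      have g2 := Wf_pos (n := n) (Y := Y) ⟨hx, hxn⟩ hy (right_ne_zero_of_mul hne) (by omega)
      exact hcon y g1 g2)
  have h2 : (({v - 1, v + 1, x - 1, x + 1} : Finset ℤ).card : ℝ) ≤ 4 := by
    exact_mod_cast card_le_four
  have h3 : √(n : ℝ) ≤ n := by
    rw [Real.sqrt_le_left (by linarith)]
    nlinarith
  have h4 : (({v - 1, v + 1, x - 1, x + 1} : Finset ℤ).card : ℝ) * (4 * Real.log n ^ (2 * C)) ≤ 4 * (4 * Real.log n ^ (2 * C)) :=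
    mul_le_mul_of_nonneg_right h2 (by positivity)
  unfold cf at hcf
  linarith

theorem one_nbr : ∃ K0 : ℕ, ∀ K : ℕ, K0 ≤ K → ∀ᶠ n : ℕ in atTop, ∀ v : ℤ, 1 ≤ v → v ≤ n → ∃ y, Eg n (rt K n) v y := by
  classical
  obtain ⟨C, hC⟩ := Wf_le
  obtain ⟨K0, hK0⟩ := deg_low
  refine ⟨K0, fun K hK => ?_⟩
  filter_upwards [hC, hK0 K hK, eventually_ge_atTop 2, ev_L 1, ev_log C 17] with n h hd hn hL hs v hv hvn
  by_contra hcon
  push Not at hcon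
  have hn1 : (1 : ℝ) ≤ n := by exact_mod_cast (by omega : 1 ≤ n)
  have hd' := hd v hv hvn
  have hw := one_le_wv (rt K n) v
  have h0 : (n : ℝ) / 4 * 1 ≤ n / 4 * wv (rt K n) v := mul_le_mul_of_nonneg_left hw (by positivity)
  have h1 := sum_T n (fun y => Wf n (rt K n) v y) (2 * Real.log n ^ C) {v - 1, v + 1}
    (fun y => Wf_nonneg _ _ _ _) (fun y => h (rt K n) (rt_le_self _ _) v y)
    (fun y hy hne => by
      rw [mem_Icc] at hy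
      simp only [mem_insert, mem_singleton]
      by_contra hT
      push Not at hT
      exact hcon y (Wf_pos ⟨hv, hvn⟩ hy hne (by omega)))
  have h2 : (({v - 1, v + 1} : Finset ℤ).card : ℝ) ≤ 2 := by
    exact_mod_cast card_le_two
  have h3 : √(n : ℝ) ≤ n := by
    rw [Real.sqrt_le_left (by linarith)]
    nlinarith
  have h4 : (({v - 1, v + 1} : Finset ℤ).card : ℝ) * (2 * Real.log n ^ C) ≤ 2 * (2 * Real.log n ^ C) :=
    mul_le_mul_of_nonneg_right h2 (by positivity)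
  have h5 : 0 < Real.log n ^ C := by positivity
  linarith

/-- vertices of the same class -/
def Sm (x y : ℤ) : Prop := (2 : ℤ) ∣ x - y ∧ ((3 : ℤ) ∣ x ↔ (3 : ℤ) ∣ y)

lemma Eg_mod {n Y : ℕ} {x y : ℤ} (hn : 9 ≤ n) (hY : 3 ≤ Y) (h : Eg n Y x y) :
    ¬ (2 : ℤ) ∣ x + y ∧ ¬ (3 : ℤ) ∣ x + y ∧ ¬ (2 : ℤ) ∣ y - x ∧ ¬ (3 : ℤ) ∣ y - x := by
  obtain ⟨h1, h2, h3, h4, h5, h6⟩ := h
  have h7 : 3 < (x + y).natAbs := by
    by_contra hc
    have : (x + y).natAbs ^ 2 ≤ 3 ^ 2 := Nat.pow_le_pow_left (by omega) 2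
    omega
  refine ⟨?_, ?_, ?_, ?_⟩
  · intro hd
    have h8 : 2 ∣ (x + y).natAbs := Int.natCast_dvd.1 (by exact_mod_cast hd)
    have := (Nat.prime_dvd_prime_iff_eq Nat.prime_two h3).1 h8
    omega
  · intro hd
    have h8 : 3 ∣ (x + y).natAbs := Int.natCast_dvd.1 (by exact_mod_cast hd)
    have := (Nat.prime_dvd_prime_iff_eq Nat.prime_three h3).1 h8
    omega
  · exact_mod_cast h5 2 Nat.prime_two (by omega)
  · exact_mod_cast h5 3 Nat.prime_three hY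

lemma Sm_of {n Y : ℕ} {v x y : ℤ} (hn : 9 ≤ n) (hY : 3 ≤ Y) (h1 : Eg n Y v y) (h2 : Eg n Y x y) : Sm v x := by
  obtain ⟨a1, a2, a3, a4⟩ := Eg_mod hn hY h1
  obtain ⟨b1, b2, b3, b4⟩ := Eg_mod hn hY h2
  unfold Sm
  constructor
  · omega
  · have c1 : v % 3 = 0 ∨ v % 3 = 1 ∨ v % 3 = 2 := by omega
    have c2 : x % 3 = 0 ∨ x % 3 = 1 ∨ x % 3 = 2 := by omega
    have c3 : y % 3 = 0 ∨ y % 3 = 1 ∨ y % 3 = 2 := by omega
    clear a1 a3 b1 b3 h1 h2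
    rcases c1 with c1 | c1 | c1 <;> rcases c2 with c2 | c2 | c2 <;> rcases c3 with c3 | c3 | c3 <;> omega

lemma rt_anti {K K' n : ℕ} (hK : 1 ≤ K) (h : K ≤ K') (h1 : 1 ≤ rt K' n) : rt K' n ≤ rt K n := by
  have h2 := rt_le K' n (by omega)
  have h3 : rt K' n ^ K ≤ n := (Nat.pow_le_pow_right h1 h).trans h2
  conv_rhs => unfold rt
  exact Nat.le_findGreatest (rt_le_self _ _) h3

/-- a path of length six -/
def P6 (n Y : ℕ) (v v' : ℤ) : Prop := ∃ y x z x' y', Eg n Y v y ∧ Eg n Y x y ∧ Eg n Y x z ∧ Eg n Y x' z ∧ Eg n Y x' y' ∧ Eg n Y v' y'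

theorem paths : ∃ K0 : ℕ, ∀ K : ℕ, K0 ≤ K → ∀ᶠ n : ℕ in atTop,
    (∀ v v' : ℤ, 1 ≤ v → v ≤ n → 1 ≤ v' → v' ≤ n → Sm v v' → P6 n (rt K n) v v') := by
  classical
  obtain ⟨Ka, ha⟩ := dense
  obtain ⟨c0, hc0, hden⟩ := ha (max Ka 1) (le_max_left _ _)
  obtain ⟨w0, hw0⟩ := close (c0 ^ 2 / 2048) (by positivity)
  obtain ⟨w1, hw1⟩ := cM_low
  obtain ⟨Kb, hKb⟩ := hw0 (max w0 w1) (le_max_left _ _)
  refine ⟨max (max Ka 1) Kb, fun K hK => ?_⟩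
  have hK1 : 1 ≤ K := le_trans (le_trans (le_max_right _ _) (le_max_left _ _)) hK
  filter_upwards [hden, hKb K (le_trans (le_max_right _ _) hK), hw1 (max w0 w1) (le_max_right _ _), good_nbr,
    rt_ge K 3 hK1, eventually_ge_atTop 9] with n h1 h2 h3 h4 h5 hn v v' hv hvn hv' hvn' hsm
  obtain ⟨Y, hY⟩ : ∃ Y, Y = rt K n := ⟨_, rfl⟩
  obtain ⟨Y0, hY0⟩ : ∃ Y0, Y0 = rt (max Ka 1) n := ⟨_, rfl⟩
  rw [← hY] at h2 h5 ⊢
  rw [← hY0] at h1
  have hYY : Y ≤ Y0 := by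
    rw [hY, hY0]
    apply rt_anti (le_max_right _ _) (le_trans (le_max_left _ _) hK)
    rw [← hY]; omega
  have hYn : Y ≤ n := by rw [hY]; exact rt_le_self _ _
  have hY0n : Y0 ≤ n := by rw [hY0]; exact rt_le_self _ _
  have hn0 : (0 : ℝ) < n := by exact_mod_cast (by omega : 0 < n)
  -- the elements of the second neighbourhoods
  have hN : ∀ u : ℤ, 1 ≤ u → u ≤ n → ∀ x ∈ N2 n Y0 u, (1 ≤ x ∧ x ≤ n) ∧ Sm u x ∧ ∃ y, Eg n Y u y ∧ Eg n Y x y := by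
    intro u hu hun x hx
    rw [mem_N2] at hx
    obtain ⟨y, e1, e2⟩ := h4 Y0 hY0n u x hu hun hx.1.1 hx.1.2 hx.2.2
    exact ⟨hx.1, Sm_of hn (h5.trans hYY) e1 e2, y, Eg_mono hYY e1, Eg_mono hYY e2⟩
  have hd1 := h1 v hv hvn
  have hd2 := h1 v' hv' hvn'
  by_cases hex : ∃ x ∈ N2 n Y0 v, ∃ x' ∈ N2 n Y0 v', (n : ℝ) / 64 < cf n (Wf n Y) x x'
  · obtain ⟨x, hx, x', hx', hlt⟩ := hex
    obtain ⟨hx1, _, y, e1, e2⟩ := hN v hv hvn x hx
    obtain ⟨hx1', _, y', e1', e2'⟩ := hN v' hv' hvn' x' hx'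
    obtain ⟨z, e3, e4⟩ := h4 Y hYn x x' hx1.1 hx1.2 hx1'.1 hx1'.2 hlt
    exact ⟨y, x, z, x', y', e1, e2, e3, e4, e2', e1'⟩
  · exfalso
    push Not at hex
    have hlow : ∀ x ∈ N2 n Y0 v, ∀ x' ∈ N2 n Y0 v', (n : ℝ) ^ 2 / 1024 ≤ (cf n (Wf n Y) x x' - cf n (Mf (max w0 w1)) x x') ^ 2 := by
      intro x hx x' hx'
      obtain ⟨_, s1, _⟩ := hN v hv hvn x hx
      obtain ⟨_, s2, _⟩ := hN v' hv' hvn' x' hx'
      unfold Sm at s1 s2 hsm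
      have g1 := h3 x x' (by omega) (by omega)
      have g2 := hex x hx x' hx'
      have g3 : (n : ℝ) / 32 ≤ cf n (Mf (max w0 w1)) x x' - cf n (Wf n Y) x x' := by linarith
      have g4 : ((n : ℝ) / 32) ^ 2 ≤ (cf n (Mf (max w0 w1)) x x' - cf n (Wf n Y) x x') ^ 2 := pow_le_pow_left₀ (by positivity) g3 2
      calc (n : ℝ) ^ 2 / 1024 = ((n : ℝ) / 32) ^ 2 := by ring
        _ ≤ _ := g4
        _ = _ := by ring
    have hsum : ((N2 n Y0 v).card : ℝ) * ((N2 n Y0 v').card * ((n : ℝ) ^ 2 / 1024)) ≤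
        ∑ x ∈ Icc (1 : ℤ) n, ∑ x' ∈ Icc (1 : ℤ) n, (cf n (Wf n Y) x x' - cf n (Mf (max w0 w1)) x x') ^ 2 := by
      have hsub : ∀ u : ℤ, N2 n Y0 u ⊆ Icc (1 : ℤ) n := by
        intro u x hx
        rw [mem_N2] at hx
        rw [mem_Icc]; exact hx.1
      calc ((N2 n Y0 v).card : ℝ) * ((N2 n Y0 v').card * ((n : ℝ) ^ 2 / 1024)) =
          ∑ x ∈ N2 n Y0 v, ∑ x' ∈ N2 n Y0 v', (n : ℝ) ^ 2 / 1024 := by
            rw [sum_const, sum_const]; simp only [nsmul_eq_mul]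
        _ ≤ ∑ x ∈ N2 n Y0 v, ∑ x' ∈ N2 n Y0 v', (cf n (Wf n Y) x x' - cf n (Mf (max w0 w1)) x x') ^ 2 :=
            sum_le_sum fun x hx => sum_le_sum fun x' hx' => hlow x hx x' hx'
        _ ≤ ∑ x ∈ N2 n Y0 v, ∑ x' ∈ Icc (1 : ℤ) n, (cf n (Wf n Y) x x' - cf n (Mf (max w0 w1)) x x') ^ 2 :=
            sum_le_sum fun x _ => sum_le_sum_of_subset_of_nonneg (hsub v') fun _ _ _ => sq_nonneg _
        _ ≤ _ := sum_le_sum_of_subset_of_nonneg (hsub v) fun _ _ _ => sum_nonneg fun _ _ => sq_nonneg _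
    have hfin := hsum.trans h2
    have hprod : (c0 * n) * ((c0 * n) * ((n : ℝ) ^ 2 / 1024)) ≤ ((N2 n Y0 v).card : ℝ) * ((N2 n Y0 v').card * ((n : ℝ) ^ 2 / 1024)) := by
      apply mul_le_mul hd1 _ (by positivity) (by positivity)
      exact mul_le_mul_of_nonneg_right hd2 (by positivity)
    have hcmp := hprod.trans hfin
    have hpos : 0 < c0 ^ 2 * (n : ℝ) ^ 4 := by positivity
    nlinarith

end Pool.Agent.W2helper88.GR
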