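import Pool.Agent.W2helper88.GR.Deg

set_option autoImplicit false

/-!
# Project GR (helper88): the second neighbourhoods have positive density
-/

namespace Pool.Agent.W2helper88.GR

open Finset Filter
open Pool.Agent.H373R2.T7 (pz Vz lamz mem_pz nuB PerB nuB_le sys_fund Vz_pos)

lemma nu_ge3 (v x : ℤ) (Y p : ℕ) (hp : p.Prime) (hpY : p ≤ Y) (h1 : ¬ (p : ℤ) ∣ v - x) (h2 : ¬ (p : ℤ) ∣ v + x)
    (h3 : ¬ (p : ℤ) ∣ 2 * x) : 3 ≤ nuB (Qf 1 (vx v x) (fun _ => Y)) p := by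
  classical
  have hpf : Fact p.Prime := ⟨hp⟩
  have hu : ¬ (p : ℤ) ∣ 1 := by
    intro h
    have h1 := Int.le_of_dvd (by norm_num) h
    have := hp.two_le
    omega
  rw [nuB_Qf 1 _ _ p hu]
  have hact : act (fun _ : Fin 4 => Y) p = univ := by
    unfold act
    exact filter_true_of_mem (fun _ _ => hpY)
  rw [hact]
  rw [← ZMod.intCast_zmod_eq_zero_iff_dvd] at h1 h2 h3
  push_cast at h1 h2 h3
  have hsub : ({0, 2, 3} : Finset (Fin 4)).image (fun i => -(vx v x i : ZMod p) / ((1 : ℤ) : ZMod p)) ⊆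
      univ.image (fun i => -(vx v x i : ZMod p) / ((1 : ℤ) : ZMod p)) := image_subset_image (subset_univ _)
  refine le_trans ?_ (card_le_card hsub)
  rw [card_image_of_injOn]
  · decide
  · intro i hi j hj hij
    simp only [Int.cast_one, div_one, neg_inj] at hij
    simp only [coe_insert, coe_singleton, Set.mem_insert_iff, Set.mem_singleton_iff] at hi hj
    rcases hi with rfl | rfl | rfl <;> rcases hj with rfl | rfl | rfl
    · rfl
    · exfalso; apply h1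
      simp only [vx, Matrix.cons_val_zero, Matrix.cons_val] at hij
      linear_combination hij
    · exfalso; apply h2
      simp only [vx, Matrix.cons_val_zero, Matrix.cons_val] at hij
      push_cast at hij
      linear_combination hij
    · exfalso; apply h1
      simp only [vx, Matrix.cons_val_zero, Matrix.cons_val] at hij
      linear_combination -hij
    · rfl
    · exfalso; apply h3
      simp only [vx, Matrix.cons_val] at hij
      push_cast at hij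
      linear_combination hij
    · exfalso; apply h2
      simp only [vx, Matrix.cons_val_zero, Matrix.cons_val] at hij
      push_cast at hij
      linear_combination -hij
    · exfalso; apply h3
      simp only [vx, Matrix.cons_val] at hij
      push_cast at hij
      linear_combination -hij
    · rfl

lemma fl_three (v x : ℤ) (Y p : ℕ) (hp : p.Prime) (hpY : p ≤ Y) (h1 : ¬ (p : ℤ) ∣ v - x) (h2 : ¬ (p : ℤ) ∣ v + x)
    (h3 : ¬ (p : ℤ) ∣ 2 * x) : fl 1 (vx v x) (fun _ => Y) p ≤ (1 - 1 / (p : ℝ))⁻¹ := by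
  classical
  have hnu := nu_ge3 v x Y p hp hpY h1 h2 h3
  have hpos := one_sub_pos hp
  have hp2 : (2 : ℝ) ≤ p := by exact_mod_cast hp.two_le
  have hp0 : (0 : ℝ) < p := by linarith
  have hcard : (act (fun _ : Fin 4 => Y) p).card = 4 := by
    unfold act
    rw [filter_true_of_mem (fun _ _ => hpY)]
    simp
  unfold fl
  rw [hcard, div_le_iff₀ (by positivity)]
  have h4 : (1 - 1 / (p : ℝ))⁻¹ * (1 - 1 / (p : ℝ)) ^ 4 = (1 - 1 / (p : ℝ)) ^ 3 := by
    field_simp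
  rw [h4]
  have h5 : (3 : ℝ) / p ≤ (nuB (Qf 1 (vx v x) (fun _ => Y)) p : ℝ) / p := by
    apply div_le_div_of_nonneg_right _ hp0.le
    exact_mod_cast hnu
  have h6 : 1 / (p : ℝ) ≤ 1 / 2 := one_div_le_one_div_of_le (by norm_num) hp2
  have h7 : (3 : ℝ) / p = 3 * (1 / (p : ℝ)) := by ring
  rw [h7] at h5
  have h8 : 0 < 1 / (p : ℝ) := by positivity
  generalize 1 / (p : ℝ) = q at h5 h6 h8
  nlinarith [mul_pos h8 h8, mul_pos (mul_pos h8 h8) h8]

lemma odd_dvd_two {p : ℕ} (hp : p.Prime) (h2 : p ≠ 2) {x : ℤ} (h : (p : ℤ) ∣ 2 * x) : (p : ℤ) ∣ x := by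
  have hpz : Prime (p : ℤ) := Nat.prime_iff_prime_int.1 hp
  rcases hpz.dvd_or_dvd h with h3 | h3
  · exfalso
    have h4 : (p : ℤ) ∣ ((2 : ℕ) : ℤ) := by exact_mod_cast h3
    rw [Int.natCast_dvd_natCast] at h4
    have := (Nat.prime_dvd_prime_iff_eq hp Nat.prime_two).1 h4
    exact h2 this
  · exact h3

/-- bad primes -/
def bd3 (v x : ℤ) (p : ℕ) : Prop := (p : ℤ) ∣ x ∨ (p : ℤ) ∣ v - x ∨ (p : ℤ) ∣ v + x

open Classical in
lemma fl_vx (v x : ℤ) (Y p : ℕ) (hp : p.Prime) (hpY : p ≤ Y) : fl 1 (vx v x) (fun _ => Y) p ≤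
    (if p = 2 then 16 else 1) * ((if (p : ℤ) ∣ v then (1 - 1 / (p : ℝ))⁻¹ else 1) * (if bd3 v x p then (1 + 1 / √(p : ℝ)) ^ 6 else 1)) := by
  have hi := inv_ge_one hp
  have a1 : (1 : ℝ) ≤ (if (p : ℤ) ∣ v then (1 - 1 / (p : ℝ))⁻¹ else 1) := by
    split_ifs
    · exact hi
    · exact le_rfl
  have a2 : (1 : ℝ) ≤ (if bd3 v x p then (1 + 1 / √(p : ℝ)) ^ 6 else 1) := by
    split_ifs
    · exact one_le_pow₀ (one_le_fac p)
    · exact le_rfl
  by_cases h2 : p = 2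
  · rw [if_pos h2]
    have h3 := fl_two 1 (vx v x) (fun _ => Y)
    subst h2
    refine h3.trans ?_
    nlinarith [mul_le_mul a1 a2 zero_le_one (by linarith)]
  · rw [if_neg h2, one_mul]
    have hu : ¬ (p : ℤ) ∣ 1 := not_dvd_u (Or.inl rfl) (prime_ge3 hp h2)
    by_cases hb : bd3 v x p
    · rw [if_pos hb]
      have h3 := (fl_le_cube 1 (vx v x) (fun _ => Y) hp hu).trans (cube_le hp)
      refine h3.trans (le_mul_of_one_le_left (by positivity) a1)
    · rw [if_neg hb, mul_one]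
      unfold bd3 at hb
      push Not at hb
      obtain ⟨b1, b2, b3⟩ := hb
      have b4 : ¬ (p : ℤ) ∣ 2 * x := fun h => b1 (odd_dvd_two hp h2 h)
      by_cases hv : (p : ℤ) ∣ v
      · rw [if_pos hv]
        exact fl_three v x Y p hp hpY b2 b3 b4
      · rw [if_neg hv]
        apply fl_le_one 1 _ _ hp hu
        have b5 : ¬ (p : ℤ) ∣ 2 * v := fun h => hv (odd_dvd_two hp h2 h)
        have key : ∀ s t : ℤ, ¬ (p : ℤ) ∣ s → (t = s ∨ t = -s) → ¬ (p : ℤ) ∣ t := by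
          intro s t hs ht h
          rcases ht with rfl | rfl
          · exact hs h
          · exact hs ((dvd_neg.1 h))
        intro i j hij
        fin_cases i <;> fin_cases j <;> simp only [vx, Fin.zero_eta, Fin.mk_one, Fin.reduceFinMk, Matrix.cons_val_zero, Matrix.cons_val_one, Matrix.cons_val]
        · exact absurd rfl hij
        · exact key _ _ b5 (Or.inl (by ring))
        · exact key _ _ b2 (Or.inl (by ring))
        · exact key _ _ b3 (Or.inl (by ring))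
        · exact key _ _ b5 (Or.inr (by ring))
        · exact absurd rfl hij
        · exact key _ _ b3 (Or.inr (by ring))
        · exact key _ _ b2 (Or.inr (by ring))
        · exact key _ _ b2 (Or.inr (by ring))
        · exact key _ _ b3 (Or.inl (by ring))
        · exact absurd rfl hij
        · exact key _ _ b4 (Or.inl (by ring))
        · exact key _ _ b3 (Or.inr (by ring))
        · exact key _ _ b2 (Or.inl (by ring))
        · exact key _ _ b4 (Or.inr (by ring))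
        · exact absurd rfl hij

lemma prod_union_le (A B : Finset ℕ) : ∏ p ∈ A ∪ B, (1 + 1 / √(p : ℝ)) ≤ (∏ p ∈ A, (1 + 1 / √(p : ℝ))) * ∏ p ∈ B, (1 + 1 / √(p : ℝ)) := by
  rw [← prod_union_inter]
  have h1 := one_le_prodR (A ∩ B) (fun p => 1 + 1 / √(p : ℝ)) one_le_fac
  have h2 := one_le_prodR (A ∪ B) (fun p => 1 + 1 / √(p : ℝ)) one_le_fac
  nlinarith

/-- the arithmetic factor of a pair -/
noncomputable def G3 (v x : ℤ) : ℝ := gh x.natAbs * gh (v - x).natAbs * gh (v + x).natAbs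

lemma one_le_G3 (v x : ℤ) : 1 ≤ G3 v x := by
  unfold G3
  exact one_le_mul_of_one_le_of_one_le (one_le_mul_of_one_le_of_one_le (one_le_gh _) (one_le_gh _)) (one_le_gh _)

lemma Sz_vx (v x : ℤ) (Y : ℕ) (hx : x ≠ 0) (h1 : v - x ≠ 0) (h2 : v + x ≠ 0) :
    Sz 1 (vx v x) (fun _ => Y) Y ≤ 16 * wv Y v * G3 v x ^ 6 := by
  classical
  unfold Sz
  have h3 : ∏ p ∈ pz Y, fl 1 (vx v x) (fun _ => Y) p ≤ ∏ p ∈ pz Y,
      ((if p = 2 then (16 : ℝ) else 1) * ((if (p : ℤ) ∣ v then (1 - 1 / (p : ℝ))⁻¹ else 1) * (if bd3 v x p then (1 + 1 / √(p : ℝ)) ^ 6 else 1))) := by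
    apply Finset.prod_le_prod
    · intro p hp
      exact fl_nonneg _ _ _ (mem_pz.1 hp).2
    · intro p hp
      exact fl_vx v x Y p (mem_pz.1 hp).2 (mem_pz.1 hp).1
  refine h3.trans ?_
  rw [prod_mul_distrib, prod_mul_distrib]
  have h4 : ∏ p ∈ pz Y, (if p = 2 then (16 : ℝ) else 1) ≤ 16 := by
    rw [prod_ite_eq']
    split_ifs <;> norm_num
  have h40 : 0 ≤ ∏ p ∈ pz Y, (if p = 2 then (16 : ℝ) else 1) := prod_nonneg fun p _ => by split_ifs <;> norm_num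
  have h5 : ∏ p ∈ pz Y, (if bd3 v x p then (1 + 1 / √(p : ℝ)) ^ 6 else 1) ≤ G3 v x ^ 6 := by
    rw [← prod_filter, prod_pow]
    apply pow_le_pow_left₀ (prod_nonneg fun p _ => by positivity)
    have hsub : (pz Y).filter (fun p => bd3 v x p) ⊆ (x.natAbs.primeFactors ∪ (v - x).natAbs.primeFactors) ∪ (v + x).natAbs.primeFactors := by
      intro p hp
      rw [mem_filter, mem_pz] at hp
      obtain ⟨⟨_, hpp⟩, hb⟩ := hp
      simp only [mem_union, Nat.mem_primeFactors, Ne, Int.natAbs_eq_zero]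
      rcases hb with hb | hb | hb
      · exact Or.inl (Or.inl ⟨hpp, Int.natCast_dvd.1 hb, hx⟩)
      · exact Or.inl (Or.inr ⟨hpp, Int.natCast_dvd.1 hb, h1⟩)
      · exact Or.inr ⟨hpp, Int.natCast_dvd.1 hb, h2⟩
    have hmono : ∏ p ∈ (pz Y).filter (fun p => bd3 v x p), (1 + 1 / √(p : ℝ)) ≤
        ∏ p ∈ (x.natAbs.primeFactors ∪ (v - x).natAbs.primeFactors) ∪ (v + x).natAbs.primeFactors, (1 + 1 / √(p : ℝ)) := by
      rw [← prod_sdiff hsub]
      have b1 := one_le_prodR (((x.natAbs.primeFactors ∪ (v - x).natAbs.primeFactors) ∪ (v + x).natAbs.primeFactors) \ (pz Y).filter (fun p => bd3 v x p))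
        (fun p => 1 + 1 / √(p : ℝ)) one_le_fac
      have b2 := one_le_prodR ((pz Y).filter (fun p => bd3 v x p)) (fun p => 1 + 1 / √(p : ℝ)) one_le_fac
      nlinarith
    refine hmono.trans ((prod_union_le _ _).trans ?_)
    unfold G3
    apply mul_le_mul_of_nonneg_right _ (gh_pos _).le
    exact prod_union_le _ _
  have h6 : wv Y v = ∏ p ∈ pz Y, (if (p : ℤ) ∣ v then (1 - 1 / (p : ℝ))⁻¹ else 1) := rfl
  rw [← h6]
  have h7 := one_le_wv Y v
  have h8 : 0 ≤ ∏ p ∈ pz Y, (if bd3 v x p then (1 + 1 / √(p : ℝ)) ^ 6 else 1) := prod_nonneg fun p _ => by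
    split_ifs
    · positivity
    · exact zero_le_one
  have h9 : wv Y v * ∏ p ∈ pz Y, (if bd3 v x p then (1 + 1 / √(p : ℝ)) ^ 6 else 1) ≤ wv Y v * G3 v x ^ 6 :=
    mul_le_mul_of_nonneg_left h5 (by linarith)
  calc _ ≤ 16 * (wv Y v * G3 v x ^ 6) := mul_le_mul h4 h9 (mul_nonneg (by linarith) h8) (by norm_num)
    _ = _ := by ring

/-- the upper bound for the codegrees -/
theorem cW_up : ∃ K0 : ℕ, ∀ K : ℕ, K0 ≤ K → ∃ D : ℝ, 0 < D ∧ ∀ᶠ n : ℕ in atTop, ∀ v x : ℤ, x ≠ 0 → v - x ≠ 0 → v + x ≠ 0 →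
    cf n (Wf n (rt K n)) v x ≤ D * n * wv (rt K n) v * G3 v x ^ 6 := by
  obtain ⟨K1, x0, hK1, hs⟩ := sieve3
  obtain ⟨C, hC1, hC⟩ := V_low'
  refine ⟨max K1 2, fun K hK => ?_⟩
  obtain ⟨C1, hC11, hap⟩ := ap_le_lz K (le_trans (le_max_right _ _) hK)
  refine ⟨33 * C1 ^ 2, by positivity, ?_⟩
  have hK2 : 2 ≤ K := le_trans (le_max_right _ _) hK
  filter_upwards [hap, hC, rt_ge K (max x0 1) (by omega), eventually_ge_atTop 1, ev_log (4 * C) 2, ev_L 1]
    with n h1 h2 h3 hn h5 hL v x hx hvx hvx'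
  obtain ⟨Y, hY⟩ : ∃ Y, Y = rt K n := ⟨_, rfl⟩
  rw [← hY] at h1 h3 ⊢
  have hYn : Y ≤ n := by rw [hY]; exact rt_le_self _ _
  have hxY : x0 ≤ Y := le_trans (le_max_left _ _) h3
  have h1Y : 1 ≤ Y := le_trans (le_max_right _ _) h3
  have hYK : Y ^ K1 ≤ n := by
    calc Y ^ K1 ≤ Y ^ K := Nat.pow_le_pow_right h1Y (le_trans (le_max_left _ _) hK)
      _ ≤ n := by rw [hY]; exact rt_le _ n (by omega)
  have hn0 : (0 : ℝ) < n := by exact_mod_cast hn
  have e1 : cf n (Wf n Y) v x ≤ C1 ^ 2 * ∑ r ∈ Ioc 0 n, ∏ i, lz Y (1 * (r : ℤ) + vx v x i) := by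
    unfold cf
    rw [sum_int_nat 1 n le_rfl, mul_sum]
    have e2 : ((1 : ℤ) - 1).toNat = 0 := by norm_num
    rw [e2, Int.toNat_natCast]
    refine sum_le_sum fun r _ => ?_
    simp only [Fin.prod_univ_four, vx, Wf, Matrix.cons_val_zero, Matrix.cons_val_one, Matrix.cons_val]
    have a1 : 1 * (r : ℤ) + v = v + r := by ring
    have a2 : 1 * (r : ℤ) + -v = r - v := by ring
    have a3 : 1 * (r : ℤ) + x = x + r := by ring
    have a4 : 1 * (r : ℤ) + -x = r - x := by ring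
    rw [a1, a2, a3, a4]
    have b1 := h1 (v + r)
    have b2 := h1 (x + r)
    have c1 := ap_nonneg n (v + r)
    have c2 := ap_nonneg n (x + r)
    have d1 := lz_nonneg Y ((r : ℤ) - v)
    have d2 := lz_nonneg Y ((r : ℤ) - x)
    have d3 := lz_nonneg Y (v + r)
    calc ap n (v + r) * lz Y (r - v) * (ap n (x + r) * lz Y (r - x))
        = (ap n (v + r) * ap n (x + r)) * (lz Y (r - v) * lz Y (r - x)) := by ring
      _ ≤ ((C1 * lz Y (v + r)) * (C1 * lz Y (x + r))) * (lz Y (r - v) * lz Y (r - x)) := by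
          apply mul_le_mul_of_nonneg_right _ (mul_nonneg d1 d2)
          exact mul_le_mul b1 b2 c2 (mul_nonneg (by linarith) d3)
      _ = _ := by ring
  refine e1.trans ?_
  have h6 := hs n Y hxY hYK 1 (Or.inl rfl) (vx v x) (fun _ => Y) (fun _ => le_rfl) n
  have h7 := Sz_vx v x Y hx hvx hvx'
  have h8 : ∏ _i : Fin 4, (Vz Y)⁻¹ ≤ (Real.log n ^ C) ^ 4 := by
    apply prod4_le_pow
    · intro i; exact inv_nonneg.2 (Vz_pos _).le
    · intro i; exact h2 _ hYn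
  have h9 : 2 * √(n : ℝ) * ∏ _i : Fin 4, (Vz Y)⁻¹ ≤ n := by
    calc 2 * √(n : ℝ) * ∏ _i : Fin 4, (Vz Y)⁻¹ ≤ 2 * √(n : ℝ) * (Real.log n ^ C) ^ 4 :=
          mul_le_mul_of_nonneg_left h8 (by positivity)
      _ = √(n : ℝ) * (2 * Real.log n ^ (4 * C)) := by rw [← pow_mul, mul_comm C 4]; ring
      _ ≤ √(n : ℝ) * √(n : ℝ) := mul_le_mul_of_nonneg_left h5 (Real.sqrt_nonneg _)
      _ = n := Real.mul_self_sqrt hn0.le
  have hG : 1 ≤ G3 v x ^ 6 := one_le_pow₀ (one_le_G3 v x)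
  have hw := one_le_wv Y v
  have hwG : 1 ≤ wv Y v * G3 v x ^ 6 := one_le_mul_of_one_le_of_one_le hw hG
  have h10 : 2 * (n : ℝ) * Sz 1 (vx v x) (fun _ => Y) Y ≤ 2 * n * (16 * wv Y v * G3 v x ^ 6) :=
    mul_le_mul_of_nonneg_left h7 (by positivity)
  have h11 : ∑ r ∈ Ioc 0 n, ∏ i, lz Y (1 * (r : ℤ) + vx v x i) ≤ 33 * n * (wv Y v * G3 v x ^ 6) := by
    have h12 : (n : ℝ) * 1 ≤ n * (wv Y v * G3 v x ^ 6) := mul_le_mul_of_nonneg_left hwG hn0.le
    calc _ ≤ _ := h6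
      _ ≤ 2 * n * (16 * wv Y v * G3 v x ^ 6) + n := add_le_add h10 h9
      _ ≤ _ := by linarith
  calc C1 ^ 2 * ∑ r ∈ Ioc 0 n, ∏ i, lz Y (1 * (r : ℤ) + vx v x i) ≤ C1 ^ 2 * (33 * n * (wv Y v * G3 v x ^ 6)) :=
        mul_le_mul_of_nonneg_left h11 (by positivity)
    _ = _ := by ring

lemma G3_mom : ∃ C : ℝ, 0 < C ∧ ∀ n : ℕ, 1 ≤ n → ∀ v : ℤ, 1 ≤ v → v ≤ n → ∑ x ∈ Icc (1 : ℤ) n, (G3 v x ^ 6) ^ 2 ≤ C * n := by
  obtain ⟨C, hC, hint⟩ := gh_int 48
  refine ⟨4 * C + 1, by positivity, fun n hn v hv hvn => ?_⟩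
  have hF : ∀ m : ℤ, 0 ≤ gh m.natAbs ^ 48 := fun m => pow_nonneg (gh_pos _).le _
  have h0 : ∀ x ∈ Icc (1 : ℤ) n, (G3 v x ^ 6) ^ 2 ≤ gh x.natAbs ^ 48 + gh (v - x).natAbs ^ 48 + gh (v + x).natAbs ^ 48 + 1 := by
    intro x _
    have h1 := prod4_le (gh x.natAbs) (gh (v - x).natAbs) (gh (v + x).natAbs) 1 (gh_pos _).le (gh_pos _).le (gh_pos _).le zero_le_one 12
    norm_num at h1
    unfold G3
    calc ((gh x.natAbs * gh (v - x).natAbs * gh (v + x).natAbs) ^ 6) ^ 2 =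
        (gh x.natAbs * gh (v - x).natAbs * gh (v + x).natAbs) ^ 12 := by rw [← pow_mul]
      _ ≤ _ := h1
  refine (sum_le_sum h0).trans ?_
  rw [sum_add_distrib, sum_add_distrib, sum_add_distrib, sum_const, nsmul_eq_mul, Int.card_Icc]
  have s1 : ∑ x ∈ Icc (1 : ℤ) n, gh x.natAbs ^ 48 ≤ C * n := by
    refine le_trans ?_ (hint n hn)
    exact sum_inj_int (Icc (1 : ℤ) n) (Icc (-(n : ℤ)) n) (fun x => x) (fun m => gh m.natAbs ^ 48) hF (fun _ _ h => h)
      (fun c hc => by rw [mem_Icc] at hc ⊢; omega)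
  have s2 : ∑ x ∈ Icc (1 : ℤ) n, gh (v - x).natAbs ^ 48 ≤ C * n := by
    refine le_trans ?_ (hint n hn)
    exact sum_inj_int (Icc (1 : ℤ) n) (Icc (-(n : ℤ)) n) (fun x => v - x) (fun m => gh m.natAbs ^ 48) hF (fun _ _ h => by simpa using h)
      (fun c hc => by rw [mem_Icc] at hc ⊢; omega)
  have s3 : ∑ x ∈ Icc (1 : ℤ) n, gh (v + x).natAbs ^ 48 ≤ C * (2 * n : ℕ) := by
    refine le_trans ?_ (hint (2 * n) (by omega))
    exact sum_inj_int (Icc (1 : ℤ) n) (Icc (-((2 * n : ℕ) : ℤ)) (2 * n : ℕ)) (fun x => v + x) (fun m => gh m.natAbs ^ 48) hF (fun _ _ h => by simpa using h)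
      (fun c hc => by rw [mem_Icc] at hc ⊢; push_cast; omega)
  have e : (((n : ℤ) + 1 - 1).toNat : ℝ) = n := by
    rw [add_sub_cancel_right, Int.toNat_natCast]
  rw [e]
  push_cast at s3
  linarith

/-- second neighbours with many paths of length two -/
noncomputable def N2 (n Y : ℕ) (v : ℤ) : Finset ℤ := by
  classical exact (Icc (1 : ℤ) n).filter (fun x => x ≠ v ∧ (n : ℝ) / 64 < cf n (Wf n Y) v x)

lemma mem_N2 {n Y : ℕ} {v x : ℤ} : x ∈ N2 n Y v ↔ (1 ≤ x ∧ x ≤ n) ∧ x ≠ v ∧ (n : ℝ) / 64 < cf n (Wf n Y) v x := by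
  unfold N2
  rw [mem_filter, mem_Icc]

lemma cf_nonneg (n Y : ℕ) (v x : ℤ) : 0 ≤ cf n (Wf n Y) v x :=
  sum_nonneg fun _ _ => mul_nonneg (Wf_nonneg _ _ _ _) (Wf_nonneg _ _ _ _)

theorem dense : ∃ K0 : ℕ, ∀ K : ℕ, K0 ≤ K → ∃ c0 : ℝ, 0 < c0 ∧ ∀ᶠ n : ℕ in atTop, ∀ v : ℤ, 1 ≤ v → v ≤ n →
    c0 * n ≤ (N2 n (rt K n) v).card := by
  classical
  obtain ⟨Ka, ha⟩ := deg_low
  obtain ⟨Kb, hb⟩ := cW_up
  obtain ⟨C, hC, hG⟩ := G3_mom
  obtain ⟨CV, hCV1, hCV⟩ := V_low'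
  refine ⟨max Ka Kb, fun K hK => ?_⟩
  obtain ⟨D, hD, hup⟩ := hb K (le_trans (le_max_right _ _) hK)
  refine ⟨1 / (4096 * D ^ 2 * C), by positivity, ?_⟩
  filter_upwards [ha K (le_trans (le_max_left _ _) hK), hup, hCV, eventually_ge_atTop 2, ev_log (2 * CV + 2) 128, ev_L 1]
    with n h1 h2 h3 hn hs hL v hv hvn
  obtain ⟨Y, hY⟩ : ∃ Y, Y = rt K n := ⟨_, rfl⟩
  rw [← hY] at h1 h2 ⊢
  have hYn : Y ≤ n := by rw [hY]; exact rt_le_self _ _
  have hn0 : (0 : ℝ) < n := by exact_mod_cast (by omega : 0 < n)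
  have hn1 : (1 : ℝ) ≤ n := by exact_mod_cast (by omega : 1 ≤ n)
  obtain ⟨W, hW⟩ : ∃ W, W = wv Y v := ⟨_, rfl⟩
  have hW1 : 1 ≤ W := by rw [hW]; exact one_le_wv Y v
  -- the number of paths of length two
  have p1 : ∑ x ∈ Icc (1 : ℤ) n, cf n (Wf n Y) v x = ∑ y ∈ Icc (1 : ℤ) n, Wf n Y v y * ∑ x ∈ Icc (1 : ℤ) n, Wf n Y y x := by
    unfold cf
    rw [sum_comm]
    refine sum_congr rfl fun y _ => ?_
    rw [mul_sum]
    refine sum_congr rfl fun x _ => ?_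
    rw [Wf_symm n Y x y]
  have p2 : (n : ℝ) ^ 2 / 16 * W ≤ ∑ x ∈ Icc (1 : ℤ) n, cf n (Wf n Y) v x := by
    rw [p1]
    calc (n : ℝ) ^ 2 / 16 * W = (n / 4 * W) * (n / 4) := by ring
      _ ≤ (∑ y ∈ Icc (1 : ℤ) n, Wf n Y v y) * (n / 4) := by
          apply mul_le_mul_of_nonneg_right _ (by positivity)
          rw [hW]; exact h1 v hv hvn
      _ = ∑ y ∈ Icc (1 : ℤ) n, Wf n Y v y * (n / 4) := by rw [sum_mul]
      _ ≤ _ := by
          refine sum_le_sum fun y hy => ?_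
          rw [mem_Icc] at hy
          apply mul_le_mul_of_nonneg_left _ (Wf_nonneg _ _ _ _)
          have h4 := h1 y hy.1 hy.2
          have h5 := one_le_wv Y y
          have h6 : (n : ℝ) / 4 * 1 ≤ n / 4 * wv Y y := mul_le_mul_of_nonneg_left h5 (by positivity)
          linarith
  have p3 : cf n (Wf n Y) v v ≤ (n : ℝ) ^ 2 / 32 := by
    unfold cf
    have h4 : ∀ y ∈ Icc (1 : ℤ) n, Wf n Y v y * Wf n Y v y ≤ 4 * Real.log n ^ (2 * CV + 2) := by
      intro y _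
      have h5 : Wf n Y v y ≤ 2 * Real.log n ^ (CV + 1) := by
        unfold Wf
        calc ap n (v + y) * lz Y (y - v) ≤ (2 * Real.log n) * Real.log n ^ CV :=
              mul_le_mul (ap_le n hn _) ((lz_le _ _).trans (h3 Y hYn)) (lz_nonneg _ _) (by linarith)
          _ = _ := by rw [pow_succ]; ring
      calc Wf n Y v y * Wf n Y v y ≤ (2 * Real.log n ^ (CV + 1)) * (2 * Real.log n ^ (CV + 1)) :=
            mul_le_mul h5 h5 (Wf_nonneg _ _ _ _) (by positivity)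
        _ = 4 * (Real.log n ^ (CV + 1) * Real.log n ^ (CV + 1)) := by ring
        _ = _ := by rw [← pow_add]; congr 2; ring
    refine (sum_le_sum h4).trans ?_
    rw [sum_const, nsmul_eq_mul, Int.card_Icc, add_sub_cancel_right, Int.toNat_natCast]
    have h5 : √(n : ℝ) ≤ n := by
      rw [Real.sqrt_le_left (by linarith)]
      nlinarith
    have h6 : 128 * Real.log n ^ (2 * CV + 2) ≤ n := hs.trans h5
    calc (n : ℝ) * (4 * Real.log n ^ (2 * CV + 2)) = n * (128 * Real.log n ^ (2 * CV + 2)) / 32 := by ring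
      _ ≤ n * n / 32 := by
          apply div_le_div_of_nonneg_right _ (by norm_num)
          exact mul_le_mul_of_nonneg_left h6 hn0.le
      _ = _ := by ring
  have hvmem : v ∈ Icc (1 : ℤ) n := by rw [mem_Icc]; exact ⟨hv, hvn⟩
  have p4 : ∑ x ∈ Icc (1 : ℤ) n, cf n (Wf n Y) v x - cf n (Wf n Y) v v - (n : ℝ) ^ 2 / 64 ≤ ∑ x ∈ N2 n Y v, cf n (Wf n Y) v x := by
    have q1 : ∀ x ∈ (Icc (1 : ℤ) n).erase v, cf n (Wf n Y) v x ≤ (if x ∈ N2 n Y v then cf n (Wf n Y) v x else 0) + n / 64 := by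
      intro x hx
      rw [mem_erase, mem_Icc] at hx
      by_cases hN : x ∈ N2 n Y v
      · rw [if_pos hN]
        have : (0 : ℝ) ≤ n / 64 := by positivity
        linarith
      · rw [if_neg hN, zero_add]
        by_contra hcon
        push Not at hcon
        exact hN (mem_N2.2 ⟨hx.2, hx.1, hcon⟩)
    have q2 := sum_le_sum q1
    rw [sum_add_distrib, sum_const, nsmul_eq_mul, ← sum_filter] at q2
    have q3 : ((Icc (1 : ℤ) n).erase v).filter (fun x => x ∈ N2 n Y v) = N2 n Y v := by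
      ext x
      rw [mem_filter, mem_erase, mem_Icc]
      constructor
      · exact fun h => h.2
      · intro h
        have h' := mem_N2.1 h
        exact ⟨⟨h'.2.1, h'.1⟩, h⟩
    rw [q3] at q2
    have q4 : (((Icc (1 : ℤ) n).erase v).card : ℝ) ≤ n := by
      have : ((Icc (1 : ℤ) n).erase v).card ≤ n := by
        refine (card_le_card (erase_subset _ _)).trans ?_
        rw [Int.card_Icc, add_sub_cancel_right, Int.toNat_natCast]
      exact_mod_cast this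
    have q5 : (((Icc (1 : ℤ) n).erase v).card : ℝ) * (n / 64) ≤ n * (n / 64) := mul_le_mul_of_nonneg_right q4 (by positivity)
    rw [← add_sum_erase _ _ hvmem]
    linarith
  have p5 : (n : ℝ) ^ 2 / 64 * W ≤ ∑ x ∈ N2 n Y v, cf n (Wf n Y) v x := by
    have : (n : ℝ) ^ 2 / 64 * 1 ≤ (n : ℝ) ^ 2 / 64 * W := mul_le_mul_of_nonneg_left hW1 (by positivity)
    linarith
  have p6 : ∑ x ∈ N2 n Y v, cf n (Wf n Y) v x ^ 2 ≤ D ^ 2 * n ^ 3 * W ^ 2 * C := by
    have h4 : ∀ x ∈ N2 n Y v, cf n (Wf n Y) v x ^ 2 ≤ (D ^ 2 * n ^ 2 * W ^ 2) * (G3 v x ^ 6) ^ 2 := by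
      intro x hx
      rw [mem_N2] at hx
      have h5 := h2 v x (by omega) (by have := hx.2.1; omega) (by omega)
      rw [← hW] at h5
      calc cf n (Wf n Y) v x ^ 2 ≤ (D * n * W * G3 v x ^ 6) ^ 2 := pow_le_pow_left₀ (cf_nonneg _ _ _ _) h5 2
        _ = _ := by ring
    refine (sum_le_sum h4).trans ?_
    rw [← mul_sum]
    calc (D ^ 2 * n ^ 2 * W ^ 2) * ∑ x ∈ N2 n Y v, (G3 v x ^ 6) ^ 2 ≤ (D ^ 2 * n ^ 2 * W ^ 2) * ∑ x ∈ Icc (1 : ℤ) n, (G3 v x ^ 6) ^ 2 := by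
          apply mul_le_mul_of_nonneg_left _ (by positivity)
          apply sum_le_sum_of_subset_of_nonneg
          · intro x hx
            rw [mem_N2] at hx
            rw [mem_Icc]; exact hx.1
          · intro x _ _; positivity
      _ ≤ (D ^ 2 * n ^ 2 * W ^ 2) * (C * n) := mul_le_mul_of_nonneg_left (hG n (by omega) v hv hvn) (by positivity)
      _ = _ := by ring
  have p7 : (∑ x ∈ N2 n Y v, cf n (Wf n Y) v x) ^ 2 ≤ (N2 n Y v).card * ∑ x ∈ N2 n Y v, cf n (Wf n Y) v x ^ 2 :=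
    sq_sum_le_card_mul_sum_sq
  have p8 : ((n : ℝ) ^ 2 / 64 * W) ^ 2 ≤ (N2 n Y v).card * (D ^ 2 * n ^ 3 * W ^ 2 * C) := by
    calc ((n : ℝ) ^ 2 / 64 * W) ^ 2 ≤ (∑ x ∈ N2 n Y v, cf n (Wf n Y) v x) ^ 2 := pow_le_pow_left₀ (by positivity) p5 2
      _ ≤ _ := p7
      _ ≤ _ := mul_le_mul_of_nonneg_left p6 (Nat.cast_nonneg _)
  rw [div_mul_eq_mul_div, one_mul, div_le_iff₀ (by positivity)]
  have hfac : 0 < (n : ℝ) ^ 3 * W ^ 2 / 4096 := by positivity
  have p9 : (n : ℝ) * ((n : ℝ) ^ 3 * W ^ 2 / 4096) ≤ ((N2 n Y v).card * (4096 * D ^ 2 * C)) * ((n : ℝ) ^ 3 * W ^ 2 / 4096) := by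
    calc (n : ℝ) * ((n : ℝ) ^ 3 * W ^ 2 / 4096) = ((n : ℝ) ^ 2 / 64 * W) ^ 2 := by ring
      _ ≤ _ := p8
      _ = _ := by ring
  exact le_of_mul_le_mul_right p9 hfac

end Pool.Agent.W2helper88.GR
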