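import Pool.Agent.H373R2.T7.BilF

set_option autoImplicit false

/-!
# Project GR (helper88): the bilinear estimate
-/

namespace Pool.Agent.W2helper88.GR

open Finset
open Pool.Agent.H373R2.T7 (orth parseval_Icc triple)
open Pool.Agent.H807R2.Dav

lemma ee_split (t : ℕ) (M : ℕ) (m x y : ℕ) :
    ee ((t : ℝ) * ((((m : ℤ) - x - y : ℤ) : ℝ) / M)) =
      ee ((t : ℝ) * ((((-1 : ℤ) * x : ℤ) : ℝ) / M)) *
        ee ((t : ℝ) * ((((-1 : ℤ) * y : ℤ) : ℝ) / M)) * ee ((t : ℝ) * ((((1 : ℤ) * m : ℤ) : ℝ) / M)) := by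
  rw [← ee_add, ← ee_add]
  congr 1
  push_cast
  ring

lemma bil_id (n : ℕ) (hn : 1 ≤ n) (F u v : ℕ → ℝ) :
    (((2 * n : ℕ) : ℂ)) * ((∑ x ∈ Icc 1 n, ∑ y ∈ Icc 1 n, F (x + y) * u x * v y : ℝ) : ℂ) =
      ∑ t ∈ range (2 * n), (∑ m ∈ Icc 1 (2 * n), (F m : ℂ) * ee ((t : ℝ) * ((((1 : ℤ) * m : ℤ) : ℝ) / (2 * n : ℕ)))) *
        (∑ x ∈ Icc 1 n, (u x : ℂ) * ee ((t : ℝ) * ((((-1 : ℤ) * x : ℤ) : ℝ) / (2 * n : ℕ)))) *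
        (∑ y ∈ Icc 1 n, (v y : ℂ) * ee ((t : ℝ) * ((((-1 : ℤ) * y : ℤ) : ℝ) / (2 * n : ℕ)))) := by
  have h1 : ∀ t ∈ range (2 * n), (∑ m ∈ Icc 1 (2 * n), (F m : ℂ) * ee ((t : ℝ) * ((((1 : ℤ) * m : ℤ) : ℝ) / (2 * n : ℕ)))) *
        (∑ x ∈ Icc 1 n, (u x : ℂ) * ee ((t : ℝ) * ((((-1 : ℤ) * x : ℤ) : ℝ) / (2 * n : ℕ)))) *
        (∑ y ∈ Icc 1 n, (v y : ℂ) * ee ((t : ℝ) * ((((-1 : ℤ) * y : ℤ) : ℝ) / (2 * n : ℕ)))) =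
      ∑ x ∈ Icc 1 n, ∑ y ∈ Icc 1 n, ∑ m ∈ Icc 1 (2 * n), (F m : ℂ) * (u x : ℂ) * (v y : ℂ) *
        ee ((t : ℝ) * ((((m : ℤ) - x - y : ℤ) : ℝ) / (2 * n : ℕ))) := by
    intro t _
    rw [← triple]
    refine sum_congr rfl fun x _ => sum_congr rfl fun y _ => sum_congr rfl fun m _ => ?_
    rw [ee_split]
    ring
  rw [sum_congr rfl h1, sum_comm (s := range (2 * n))]
  simp only [Complex.ofReal_sum, Complex.ofReal_mul]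
  rw [mul_sum]
  refine sum_congr rfl fun x hx => ?_
  rw [mul_sum, sum_comm (s := range (2 * n))]
  refine sum_congr rfl fun y hy => ?_
  rw [sum_comm (s := range (2 * n))]
  rw [mem_Icc] at hx hy
  have h2 : ∀ m ∈ Icc 1 (2 * n), ∑ t ∈ range (2 * n), (F m : ℂ) * (u x : ℂ) * (v y : ℂ) *
        ee ((t : ℝ) * ((((m : ℤ) - x - y : ℤ) : ℝ) / (2 * n : ℕ))) =
      if m = x + y then (F m : ℂ) * (u x : ℂ) * (v y : ℂ) * ((2 * n : ℕ) : ℂ) else 0 := by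
    intro m hm
    rw [mem_Icc] at hm
    rw [← mul_sum, orth (2 * n) (by omega) ((m : ℤ) - x - y)]
    by_cases h : m = x + y
    · rw [if_pos h, if_pos (by rw [h]; push_cast; simp)]
    · rw [if_neg h, if_neg, mul_zero]
      rintro ⟨k, hk⟩
      push_cast at hk
      have h3 : (m : ℤ) - x - y < 2 * n := by omega
      have h4 : -(2 * n : ℤ) < (m : ℤ) - x - y := by omega
      rw [hk] at h3 h4
      have hn0 : (0 : ℤ) < 2 * n := by omega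
      have h5 : k < 1 := by
        by_contra hcon
        have : 2 * (n : ℤ) * 1 ≤ 2 * n * k := mul_le_mul_of_nonneg_left (by omega) hn0.le
        omega
      have h6 : -1 < k := by
        by_contra hcon
        have : 2 * (n : ℤ) * k ≤ 2 * n * (-1) := mul_le_mul_of_nonneg_left (by omega) hn0.le
        omega
      have h7 : k = 0 := by omega
      rw [h7, mul_zero] at hk
      omega
  rw [sum_congr rfl h2, sum_ite_eq' (Icc 1 (2 * n)) (x + y), if_pos (by rw [mem_Icc]; omega)]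
  ring

theorem bil (n : ℕ) (hn : 1 ≤ n) (F : ℕ → ℝ) (Mb : ℝ)
    (hM : ∀ α : ℝ, ‖∑ m ∈ Icc 1 (2 * n), ((F m : ℝ) : ℂ) * ee ((m : ℝ) * α)‖ ≤ Mb) (u v : ℕ → ℝ) :
    |∑ x ∈ Icc 1 n, ∑ y ∈ Icc 1 n, F (x + y) * u x * v y| ≤
      Mb * (√(∑ x ∈ Icc 1 n, u x ^ 2) * √(∑ y ∈ Icc 1 n, v y ^ 2)) := by
  have hid := bil_id n hn F u v
  have hM0 : 0 ≤ Mb := (norm_nonneg _).trans (hM 0)
  have hn0 : (0 : ℝ) < ((2 * n : ℕ) : ℝ) := by exact_mod_cast (by omega : 0 < 2 * n)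
  have h1 := congrArg norm hid
  rw [norm_mul, Complex.norm_natCast, Complex.norm_real, Real.norm_eq_abs] at h1
  obtain ⟨S, hS⟩ : ∃ S : ℕ → ℂ, S = fun t : ℕ => ∑ m ∈ Icc 1 (2 * n), (F m : ℂ) * ee ((t : ℝ) * ((((1 : ℤ) * m : ℤ) : ℝ) / (2 * n : ℕ))) := ⟨_, rfl⟩
  obtain ⟨U, hU⟩ : ∃ U : ℕ → ℂ, U = fun t : ℕ => ∑ x ∈ Icc 1 n, (u x : ℂ) * ee ((t : ℝ) * ((((-1 : ℤ) * x : ℤ) : ℝ) / (2 * n : ℕ))) := ⟨_, rfl⟩
  obtain ⟨V, hV⟩ : ∃ V : ℕ → ℂ, V = fun t : ℕ => ∑ y ∈ Icc 1 n, (v y : ℂ) * ee ((t : ℝ) * ((((-1 : ℤ) * y : ℤ) : ℝ) / (2 * n : ℕ))) := ⟨_, rfl⟩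
  have pU : ∑ t ∈ range (2 * n), ‖U t‖ ^ 2 = (2 * n : ℕ) * ∑ x ∈ Icc 1 n, u x ^ 2 := by
    rw [hU]
    have := parseval_Icc n (2 * n) (by omega) (by omega) (fun x => (u x : ℂ)) (-1) (Or.inr rfl)
    simp only [Complex.norm_real, Real.norm_eq_abs, sq_abs] at this
    exact this
  have pV : ∑ t ∈ range (2 * n), ‖V t‖ ^ 2 = (2 * n : ℕ) * ∑ x ∈ Icc 1 n, v x ^ 2 := by
    rw [hV]
    have := parseval_Icc n (2 * n) (by omega) (by omega) (fun x => (v x : ℂ)) (-1) (Or.inr rfl)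
    simp only [Complex.norm_real, Real.norm_eq_abs, sq_abs] at this
    exact this
  have hSM : ∀ t : ℕ, ‖S t‖ ≤ Mb := by
    intro t
    rw [hS]
    have := hM ((t : ℝ) / (2 * n : ℕ))
    refine le_trans (le_of_eq ?_) this
    congr 1
    refine sum_congr rfl fun m _ => ?_
    congr 2
    push_cast
    ring
  have h2 : ∑ t ∈ range (2 * n), (∑ m ∈ Icc 1 (2 * n), (F m : ℂ) * ee ((t : ℝ) * ((((1 : ℤ) * m : ℤ) : ℝ) / (2 * n : ℕ)))) *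
        (∑ x ∈ Icc 1 n, (u x : ℂ) * ee ((t : ℝ) * ((((-1 : ℤ) * x : ℤ) : ℝ) / (2 * n : ℕ)))) *
        (∑ y ∈ Icc 1 n, (v y : ℂ) * ee ((t : ℝ) * ((((-1 : ℤ) * y : ℤ) : ℝ) / (2 * n : ℕ)))) =
      ∑ t ∈ range (2 * n), S t * U t * V t := by rw [hS, hU, hV]
  rw [h2] at h1
  have h3 : ‖∑ t ∈ range (2 * n), S t * U t * V t‖ ≤ Mb * ∑ t ∈ range (2 * n), ‖U t‖ * ‖V t‖ := by
    refine (norm_sum_le _ _).trans ?_
    rw [mul_sum]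
    refine sum_le_sum fun t _ => ?_
    rw [norm_mul, norm_mul, mul_assoc]
    exact mul_le_mul_of_nonneg_right (hSM t) (by positivity)
  have h4 : ∑ t ∈ range (2 * n), ‖U t‖ * ‖V t‖ ≤ √(∑ t ∈ range (2 * n), ‖U t‖ ^ 2) * √(∑ t ∈ range (2 * n), ‖V t‖ ^ 2) :=
    Real.sum_mul_le_sqrt_mul_sqrt _ _ _
  rw [pU, pV, Real.sqrt_mul hn0.le, Real.sqrt_mul hn0.le] at h4
  have h5 : √((2 * n : ℕ) : ℝ) * √(∑ x ∈ Icc 1 n, u x ^ 2) * (√((2 * n : ℕ) : ℝ) * √(∑ x ∈ Icc 1 n, v x ^ 2)) =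
      (2 * n : ℕ) * (√(∑ x ∈ Icc 1 n, u x ^ 2) * √(∑ x ∈ Icc 1 n, v x ^ 2)) := by
    have := Real.mul_self_sqrt hn0.le
    calc _ = (√((2 * n : ℕ) : ℝ) * √((2 * n : ℕ) : ℝ)) * (√(∑ x ∈ Icc 1 n, u x ^ 2) * √(∑ x ∈ Icc 1 n, v x ^ 2)) := by ring
      _ = _ := by rw [this]
  rw [h5] at h4
  have h6 : ((2 * n : ℕ) : ℝ) * |∑ x ∈ Icc 1 n, ∑ y ∈ Icc 1 n, F (x + y) * u x * v y| ≤
      ((2 * n : ℕ) : ℝ) * (Mb * (√(∑ x ∈ Icc 1 n, u x ^ 2) * √(∑ y ∈ Icc 1 n, v y ^ 2))) := by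
    rw [h1]
    refine h3.trans ((mul_le_mul_of_nonneg_left h4 hM0).trans (le_of_eq ?_))
    ring
  exact le_of_mul_le_mul_left h6 hn0

end Pool.Agent.W2helper88.GR
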