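import Pool.Agent.W2helper88.GR.Rp
import Pool.Agent.W2helper88.GR.Bil
import Pool.Agent.H373R2.T7.SupE2

set_option autoImplicit false

/-!
# Project GR (helper88): asymptotics, levels and the weight of the primes
-/

namespace Pool.Agent.W2helper88.GR

open Finset Filter
open Pool.Agent.H373R2.T7 (pz Vz lamz mem_pz nuB PerB nuB_le sys_fund Vz_pos)

lemma ev_of {P : ℕ → Prop} (h : ∃ N0 : ℕ, ∀ n : ℕ, N0 ≤ n → P n) : ∀ᶠ n in atTop, P n := eventually_atTop.2 h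

lemma ev_log (k : ℕ) (c : ℝ) : ∀ᶠ n : ℕ in atTop, c * Real.log n ^ k ≤ √(n : ℝ) :=
  ev_of (Pool.Agent.H373R2.T7.ev_log' k c)

lemma ev_L (c : ℝ) : ∀ᶠ n : ℕ in atTop, c ≤ Real.log n := ev_of (Pool.Agent.H373R2.T7.ev_L' c)

lemma Vz_anti {z n : ℕ} (h : z ≤ n) : Vz n ≤ Vz z := by
  classical
  unfold Vz
  have hsub : pz z ⊆ pz n := by
    intro p hp
    rw [mem_pz] at hp ⊢
    exact ⟨hp.1.trans h, hp.2⟩
  rw [← prod_sdiff hsub]
  have h1 : ∏ p ∈ pz n \ pz z, (1 - 1 / (p : ℝ)) ≤ 1 := by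
    apply prod_le_one
    · intro p hp
      exact (one_sub_pos (mem_pz.1 (mem_sdiff.1 hp).1).2).le
    · intro p _
      have : (0 : ℝ) ≤ 1 / (p : ℝ) := by positivity
      linarith
  have h2 : 0 ≤ ∏ p ∈ pz z, (1 - 1 / (p : ℝ)) := prod_nonneg fun p hp => (one_sub_pos (mem_pz.1 hp).2).le
  nlinarith

/-- the inverse of the product is at most a power of the logarithm -/
lemma V_low : ∃ C : ℕ, ∀ᶠ n : ℕ in atTop, ∀ z ≤ n, (Vz z)⁻¹ ≤ Real.log n ^ C := by
  obtain ⟨C, N0, h⟩ := Pool.Agent.H373R2.T7.Vz_low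
  refine ⟨C, ?_⟩
  filter_upwards [eventually_ge_atTop N0, ev_L 1] with n hn hL z hz
  have h1 := h n hn
  have h2 := Vz_anti hz
  have hp : 0 < Real.log n ^ C := by positivity
  rw [inv_le_comm₀ (Vz_pos z) hp, ← one_div]
  exact h1.trans h2

/-! ### roots -/

def rt (K n : ℕ) : ℕ := Nat.findGreatest (fun Y => Y ^ K ≤ n) n

lemma rt_le (K n : ℕ) (hK : 1 ≤ K) : rt K n ^ K ≤ n := by
  unfold rt
  exact Nat.findGreatest_spec (P := fun Y => Y ^ K ≤ n) (Nat.zero_le n) (by simp [Nat.zero_pow (by omega : 0 < K)])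

lemma lt_rt (K n : ℕ) (hK : 1 ≤ K) : n < (rt K n + 1) ^ K := by
  by_contra hcon
  push Not at hcon
  have h1 : rt K n + 1 ≤ n := (Nat.le_self_pow (by omega) _).trans hcon
  have h2 : rt K n + 1 ≤ rt K n := by
    conv_rhs => unfold rt
    exact Nat.le_findGreatest h1 hcon
  omega

lemma rt_ge (K M : ℕ) (hK : 1 ≤ K) : ∀ᶠ n : ℕ in atTop, M ≤ rt K n := by
  filter_upwards [eventually_ge_atTop (M ^ K)] with n hn
  by_contra hcon
  push Not at hcon
  have h1 := lt_rt K n hK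
  have h2 : (rt K n + 1) ^ K ≤ M ^ K := Nat.pow_le_pow_left (by omega) K
  omega

lemma rt_le_self (K n : ℕ) : rt K n ≤ n := Nat.findGreatest_le n

lemma log_rt (K : ℕ) (hK : 1 ≤ K) : ∀ᶠ n : ℕ in atTop, Real.log n ≤ 2 * K * Real.log (rt K n) := by
  filter_upwards [rt_ge K 2 hK, eventually_ge_atTop 1] with n hn hn1
  have h1 := lt_rt K n hK
  obtain ⟨Y, hY⟩ : ∃ Y, Y = rt K n := ⟨_, rfl⟩
  rw [← hY] at hn h1 ⊢
  have h2 : Y + 1 ≤ Y ^ 2 := by nlinarith
  have h3 : n ≤ Y ^ (2 * K) := by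
    calc n ≤ (Y + 1) ^ K := h1.le
      _ ≤ (Y ^ 2) ^ K := Nat.pow_le_pow_left h2 K
      _ = Y ^ (2 * K) := by rw [pow_mul]
  have hn0 : (0 : ℝ) < n := by exact_mod_cast hn1
  calc Real.log n ≤ Real.log ((Y : ℝ) ^ (2 * K)) := Real.log_le_log hn0 (by exact_mod_cast h3)
    _ = 2 * K * Real.log Y := by rw [Real.log_pow]; push_cast; ring

lemma V_rt (K : ℕ) (hK : 1 ≤ K) : ∃ C : ℝ, 0 < C ∧ ∀ᶠ n : ℕ in atTop, Real.log n ≤ C * (Vz (rt K n))⁻¹ := by
  obtain ⟨C, hC, h⟩ := Pool.Agent.R521.GG.t_mert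
  have hK0 : (0 : ℝ) < K := by exact_mod_cast hK
  refine ⟨2 * K * C, by positivity, ?_⟩
  filter_upwards [rt_ge K 2 hK, log_rt K hK] with n hn h1
  have h2 := h (rt K n) hn
  have h3 := Vz_pos (rt K n)
  have h4 : Real.log (rt K n) ≤ C * (Vz (rt K n))⁻¹ := by
    rw [← div_eq_mul_inv, le_div_iff₀ h3]
    linarith
  calc Real.log n ≤ 2 * K * Real.log (rt K n) := h1
    _ ≤ 2 * K * (C * (Vz (rt K n))⁻¹) := mul_le_mul_of_nonneg_left h4 (by positivity)
    _ = _ := by ring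

/-! ### the weight of the primes -/

/-- the weight of the primes in `(√n, 2 n]` -/
noncomputable def ap (n : ℕ) (m : ℤ) : ℝ :=
  if m.natAbs.Prime ∧ n < m.natAbs ^ 2 ∧ m.natAbs ≤ 2 * n then Real.log m.natAbs else 0

lemma ap_nonneg (n : ℕ) (m : ℤ) : 0 ≤ ap n m := by
  unfold ap
  split_ifs
  · exact Real.log_natCast_nonneg _
  · exact le_rfl

lemma ap_le (n : ℕ) (hn : 2 ≤ n) (m : ℤ) : ap n m ≤ 2 * Real.log n := by
  have hn' : (2 : ℝ) ≤ n := by exact_mod_cast hn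
  have hL : 0 < Real.log n := Real.log_pos (by linarith)
  unfold ap
  split_ifs with h
  · have h1 : (m.natAbs : ℝ) ≤ (n : ℝ) ^ 2 := by
      have : m.natAbs ≤ n ^ 2 := h.2.2.trans (by nlinarith)
      exact_mod_cast this
    have h0 : (0 : ℝ) < m.natAbs := by exact_mod_cast h.1.pos
    calc Real.log m.natAbs ≤ Real.log ((n : ℝ) ^ 2) := Real.log_le_log h0 h1
      _ = 2 * Real.log n := by rw [Real.log_pow]; norm_num
  · positivity

lemma ap_le_lz (K : ℕ) (hK : 2 ≤ K) : ∃ C : ℝ, 1 ≤ C ∧ ∀ᶠ n : ℕ in atTop, ∀ m, ap n m ≤ C * lz (rt K n) m := by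
  obtain ⟨C, hC, h⟩ := V_rt K (by omega)
  refine ⟨max 1 (2 * C), le_max_left _ _, ?_⟩
  filter_upwards [h, eventually_ge_atTop 2] with n h1 hn m
  have hC0 : 0 ≤ max 1 (2 * C) := le_trans zero_le_one (le_max_left _ _)
  by_cases hm : m.natAbs.Prime ∧ n < m.natAbs ^ 2 ∧ m.natAbs ≤ 2 * n
  · have h2 : lz (rt K n) m = (Vz (rt K n))⁻¹ := by
      unfold lz lamz
      rw [if_pos]
      intro p hp hd
      rw [mem_pz] at hp
      have h3 : p = m.natAbs := (Nat.prime_dvd_prime_iff_eq hp.2 hm.1).1 hd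
      have h4 := rt_le K n (by omega)
      have h5 : rt K n ^ 2 ≤ rt K n ^ K := Nat.pow_le_pow_right (by have := hp.2.pos; omega) hK
      have h6 : m.natAbs ^ 2 ≤ rt K n ^ 2 := Nat.pow_le_pow_left (by omega) 2
      omega
    rw [h2]
    have h3 := ap_le n hn m
    have h4 : 0 < (Vz (rt K n))⁻¹ := inv_pos.2 (Vz_pos _)
    calc ap n m ≤ 2 * Real.log n := h3
      _ ≤ 2 * (C * (Vz (rt K n))⁻¹) := by linarith
      _ = (2 * C) * (Vz (rt K n))⁻¹ := by ring
      _ ≤ _ := mul_le_mul_of_nonneg_right (le_max_right _ _) h4.le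
  · have h2 : ap n m = 0 := by
      unfold ap
      rw [if_neg hm]
    rw [h2]
    exact mul_nonneg hC0 (lz_nonneg _ _)

lemma lam_ge_ap (n m : ℕ) : ap n m ≤ ArithmeticFunction.vonMangoldt m := by
  unfold ap
  split_ifs with h
  · rw [Int.natAbs_natCast] at h ⊢
    rw [ArithmeticFunction.vonMangoldt_apply_prime h.1]
  · exact ArithmeticFunction.vonMangoldt_nonneg

lemma lam_eq_ap (n m : ℕ) (hm : m.Prime) (h1 : n < m ^ 2) (h2 : m ≤ 2 * n) : ap n m = ArithmeticFunction.vonMangoldt m := by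
  unfold ap
  rw [Int.natAbs_natCast, if_pos ⟨hm, h1, h2⟩, ArithmeticFunction.vonMangoldt_apply_prime hm]

lemma sum_lam_ap (n : ℕ) (hn : 2 ≤ n) :
    ∑ m ∈ Icc 1 (2 * n), (ArithmeticFunction.vonMangoldt m - ap n m) ≤ 10 * (√(n : ℝ) * Real.log n) := by
  classical
  have hn' : (2 : ℝ) ≤ n := by exact_mod_cast hn
  have hL : 0 < Real.log n := Real.log_pos (by linarith)
  have h1 : ∀ m ∈ Icc 1 (2 * n), (ArithmeticFunction.vonMangoldt m - ap n m) ≤
      (if ¬ m.Prime then ArithmeticFunction.vonMangoldt m else 0) + (if m ^ 2 ≤ n then Real.log n else 0) := by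
    intro m hm
    rw [mem_Icc] at hm
    have h0 : (0 : ℝ) ≤ ArithmeticFunction.vonMangoldt m := ArithmeticFunction.vonMangoldt_nonneg
    have ha := ap_nonneg n m
    by_cases hp : m.Prime
    · rw [if_neg (not_not.2 hp), zero_add]
      by_cases h2 : m ^ 2 ≤ n
      · rw [if_pos h2]
        have h3 : ArithmeticFunction.vonMangoldt m ≤ Real.log m := ArithmeticFunction.vonMangoldt_le_log
        have h4 : Real.log m ≤ Real.log n := by
          apply Real.log_le_log (by exact_mod_cast hm.1)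
          exact_mod_cast (Nat.le_self_pow (by norm_num) m).trans h2
        linarith
      · rw [if_neg h2, lam_eq_ap n m hp (by omega) hm.2, sub_self]
    · rw [if_pos hp]
      have : (0 : ℝ) ≤ if m ^ 2 ≤ n then Real.log n else 0 := by split_ifs <;> positivity
      linarith
  refine (sum_le_sum h1).trans ?_
  rw [sum_add_distrib, ← sum_filter, ← sum_filter, sum_const, nsmul_eq_mul]
  have h2 : ∑ m ∈ (Icc 1 (2 * n)).filter (fun m => ¬ m.Prime), ArithmeticFunction.vonMangoldt m =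
      Chebyshev.psi ((2 * n : ℕ) : ℝ) - Chebyshev.theta ((2 * n : ℕ) : ℝ) := by
    rw [Chebyshev.psi_sub_theta_eq_sum_not_prime, Nat.floor_natCast]
    rfl
  have h3 := Chebyshev.psi_sub_theta_le (x := ((2 * n : ℕ) : ℝ)) (by push_cast; linarith)
  have h4 : (((Icc 1 (2 * n)).filter (fun m => m ^ 2 ≤ n)).card : ℝ) ≤ √(n : ℝ) := by
    have h5 : ((Icc 1 (2 * n)).filter (fun m => m ^ 2 ≤ n)).card ≤ Nat.sqrt n := by
      have h6 : (Icc 1 (2 * n)).filter (fun m => m ^ 2 ≤ n) ⊆ Icc 1 (Nat.sqrt n) := by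
        intro m hm
        rw [mem_filter, mem_Icc] at hm
        rw [mem_Icc]
        exact ⟨hm.1.1, Nat.le_sqrt'.2 hm.2⟩
      have := card_le_card h6
      rwa [Nat.card_Icc, Nat.add_sub_cancel] at this
    have h7 : (Nat.sqrt n : ℝ) ≤ √(n : ℝ) := Real.nat_sqrt_le_real_sqrt
    exact le_trans (by exact_mod_cast h5) h7
  have h5 : √(((2 * n : ℕ) : ℝ)) ≤ 2 * √(n : ℝ) := by
    rw [Real.sqrt_le_left (by positivity)]
    push_cast
    rw [mul_pow, Real.sq_sqrt (by linarith)]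
    linarith
  have h6 : Real.log (((2 * n : ℕ) : ℝ)) ≤ 2 * Real.log n := by
    calc Real.log (((2 * n : ℕ) : ℝ)) ≤ Real.log ((n : ℝ) ^ 2) := by
          apply Real.log_le_log (by push_cast; linarith)
          push_cast; nlinarith
      _ = 2 * Real.log n := by rw [Real.log_pow]; norm_num
  have h60 : 0 ≤ Real.log (((2 * n : ℕ) : ℝ)) := Real.log_natCast_nonneg _
  have h7 : √(((2 * n : ℕ) : ℝ)) * Real.log (((2 * n : ℕ) : ℝ)) ≤ (2 * √(n : ℝ)) * (2 * Real.log n) :=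
    mul_le_mul h5 h6 h60 (by positivity)
  have h8 : (((Icc 1 (2 * n)).filter (fun m => m ^ 2 ≤ n)).card : ℝ) * Real.log n ≤ √(n : ℝ) * Real.log n :=
    mul_le_mul_of_nonneg_right h4 hL.le
  rw [h2]
  have h9 : 0 ≤ √(n : ℝ) * Real.log n := by positivity
  nlinarith

end Pool.Agent.W2helper88.GR
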