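import Pool.Agent.W2helper88.GR.Trb

set_option autoImplicit false

/-!
# Project GR (helper88): codegrees
-/

namespace Pool.Agent.W2helper88.GR

open Finset Filter
open Pool.Agent.H373R2.T7 (pz Vz lamz mem_pz nuB PerB nuB_le sys_fund Vz_pos)

lemma lz_neg (z : ℕ) (k : ℤ) : lz z (-k) = lz z k := by
  unfold lz
  rw [Int.natAbs_neg]

/-- the weight of the edge `x y`: prime sum and rough difference -/
noncomputable def Wf (n Y : ℕ) (x y : ℤ) : ℝ := ap n (x + y) * lz Y (y - x)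

/-- the model -/
noncomputable def Mf (w : ℕ) (x y : ℤ) : ℝ := lz w (x + y) * lz w (y - x)

lemma Wf_nonneg (n Y : ℕ) (x y : ℤ) : 0 ≤ Wf n Y x y := mul_nonneg (ap_nonneg _ _) (lz_nonneg _ _)
lemma Mf_nonneg (w : ℕ) (x y : ℤ) : 0 ≤ Mf w x y := mul_nonneg (lz_nonneg _ _) (lz_nonneg _ _)

lemma Wf_symm (n Y : ℕ) (x y : ℤ) : Wf n Y x y = Wf n Y y x := by
  unfold Wf
  have e : y - x = -(x - y) := by ring
  rw [add_comm, e, lz_neg]

/-- the codegrees -/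
noncomputable def cf (n : ℕ) (f : ℤ → ℤ → ℝ) (x x' : ℤ) : ℝ := ∑ y ∈ Icc (1 : ℤ) n, f x y * f x' y

lemma cf_mul (n : ℕ) (f g : ℤ → ℤ → ℝ) :
    ∑ x ∈ Icc (1 : ℤ) n, ∑ x' ∈ Icc (1 : ℤ) n, cf n f x x' * cf n g x x' =
      S4 n (fun x x' y y' => (f x y * f x' y) * (g x y' * g x' y')) := by
  unfold S4 cf
  refine sum_congr rfl fun x _ => sum_congr rfl fun x' _ => ?_
  rw [sum_mul_sum]

lemma cWW (n Y w : ℕ) : ∑ x ∈ Icc (1 : ℤ) n, ∑ x' ∈ Icc (1 : ℤ) n, cf n (Wf n Y) x x' * cf n (Wf n Y) x x' =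
    TT n Y w (fun _ => true) := by
  rw [cf_mul]
  unfold TT
  congr 1
  funext x x' y y'
  simp only [Fin.prod_univ_four, sg, df, aa, zz, Wf, if_true, Matrix.cons_val_zero, Matrix.cons_val_one, Matrix.cons_val]
  ring

lemma cWM (n Y w : ℕ) : ∑ x ∈ Icc (1 : ℤ) n, ∑ x' ∈ Icc (1 : ℤ) n, cf n (Wf n Y) x x' * cf n (Mf w) x x' =
    TT n Y w ![true, true, false, false] := by
  rw [cf_mul]
  unfold TT
  congr 1
  funext x x' y y'
  simp only [Fin.prod_univ_four, sg, df, aa, zz, Wf, Mf, if_true, Matrix.cons_val_zero, Matrix.cons_val_one, Matrix.cons_val,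
    Bool.false_eq_true, if_false]
  ring

lemma cMM (n Y w : ℕ) : ∑ x ∈ Icc (1 : ℤ) n, ∑ x' ∈ Icc (1 : ℤ) n, cf n (Mf w) x x' * cf n (Mf w) x x' =
    TT n Y w (fun _ => false) := by
  rw [cf_mul]
  unfold TT
  congr 1
  funext x x' y y'
  simp only [Fin.prod_univ_four, sg, df, aa, zz, Mf, Matrix.cons_val_zero, Matrix.cons_val_one, Matrix.cons_val,
    Bool.false_eq_true, if_false]
  ring

lemma var_eq (n Y w : ℕ) : ∑ x ∈ Icc (1 : ℤ) n, ∑ x' ∈ Icc (1 : ℤ) n, (cf n (Wf n Y) x x' - cf n (Mf w) x x') ^ 2 =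
    TT n Y w (fun _ => true) - 2 * TT n Y w ![true, true, false, false] + TT n Y w (fun _ => false) := by
  rw [← cWW, ← cWM, ← cMM n Y w, mul_sum, ← sum_sub_distrib, ← sum_add_distrib]
  refine sum_congr rfl fun x _ => ?_
  rw [mul_sum, ← sum_sub_distrib, ← sum_add_distrib]
  refine sum_congr rfl fun x' _ => ?_
  ring

/-- the codegrees are close to the model in mean square -/
theorem close (δ : ℝ) (hδ : 0 < δ) : ∃ w0 : ℕ, ∀ w : ℕ, w0 ≤ w → ∃ K0 : ℕ, ∀ K : ℕ, K0 ≤ K → ∀ᶠ n : ℕ in atTop,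
    ∑ x ∈ Icc (1 : ℤ) n, ∑ x' ∈ Icc (1 : ℤ) n, (cf n (Wf n (rt K n)) x x' - cf n (Mf w) x x') ^ 2 ≤ δ * n ^ 4 := by
  obtain ⟨CT, hCT, htr⟩ := trace
  refine ⟨max 4 ⌈(4096 * CT / δ) ^ 2⌉₊, fun w hw => ?_⟩
  have hw4 : 4 ≤ w := le_trans (le_max_left _ _) hw
  have hw1 : (4096 * CT / δ) ^ 2 ≤ (w : ℝ) := (Nat.le_ceil _).trans (by exact_mod_cast le_trans (le_max_right _ _) hw)
  have hw0 : (0 : ℝ) < w := by exact_mod_cast (by omega : 0 < w)
  have hsw : 4096 * CT / δ ≤ √(w : ℝ) := by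
    apply Real.le_sqrt_of_sq_le
    exact hw1
  have hs0 : 0 < √(w : ℝ) := Real.sqrt_pos.2 hw0
  have hA : CT * (256 / √(w : ℝ)) ≤ δ / 16 := by
    rw [div_le_iff₀ hδ] at hsw
    rw [← mul_div_assoc, div_le_iff₀ hs0]
    linarith
  have hε : 0 < δ / (512 * CT) := by positivity
  obtain ⟨K0, hK0⟩ := htr (δ / (512 * CT)) hε
  refine ⟨K0, fun K hK => ?_⟩
  filter_upwards [hK0 K hK w hw4 (δ / 16) (by positivity)] with n hn
  rw [var_eq]
  have g1 := (abs_le.1 (hn (fun _ => true))).2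
  have g2 := (abs_le.1 (hn ![true, true, false, false])).1
  have g3 := (abs_le.1 (hn (fun _ => false))).2
  have hB : CT * (256 / √(w : ℝ) + 32 * (δ / (512 * CT))) + δ / 16 ≤ δ / 4 := by
    have : CT * (32 * (δ / (512 * CT))) = δ / 16 := by field_simp; norm_num
    rw [mul_add, this]
    linarith
  have hC : (CT * (256 / √(w : ℝ) + 32 * (δ / (512 * CT))) + δ / 16) * (n : ℝ) ^ 4 ≤ δ / 4 * (n : ℝ) ^ 4 :=
    mul_le_mul_of_nonneg_right hB (by positivity)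
  linarith

/-! ### the lower bound for the codegrees of the model -/

lemma tele16 (N : ℕ) (hN : 4 ≤ N) : 1 / 70 * (((N : ℝ) + 1) * (N + 2) * (N + 3) * (N + 4) / (N * (N - 1) * (N - 2) * (N - 3))) ≤
    ∏ j ∈ Icc 5 N, (1 - 16 / (j : ℝ) ^ 2) := by
  induction N, hN using Nat.le_induction with
  | base => norm_num
  | succ N hN ih =>
    have hins : Icc 5 (N + 1) = insert (N + 1) (Icc 5 N) := by
      ext j
      rw [mem_insert, mem_Icc, mem_Icc]
      omega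
    rw [hins, prod_insert (by simp)]
    have hN' : (4 : ℝ) ≤ N := by exact_mod_cast hN
    have h1 : 1 / 70 * ((((N + 1 : ℕ) : ℝ) + 1) * ((N + 1 : ℕ) + 2) * ((N + 1 : ℕ) + 3) * ((N + 1 : ℕ) + 4) /
        (((N + 1 : ℕ) : ℝ) * ((N + 1 : ℕ) - 1) * ((N + 1 : ℕ) - 2) * ((N + 1 : ℕ) - 3))) =
        (1 - 16 / ((N + 1 : ℕ) : ℝ) ^ 2) * (1 / 70 * (((N : ℝ) + 1) * (N + 2) * (N + 3) * (N + 4) / (N * (N - 1) * (N - 2) * (N - 3)))) := by
      push_cast
      have a0 : (N : ℝ) ≠ 0 := by linarith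
      have a1 : (N : ℝ) - 1 ≠ 0 := by intro h; linarith
      have a2 : (N : ℝ) - 2 ≠ 0 := by intro h; linarith
      have a3 : (N : ℝ) - 3 ≠ 0 := by intro h; linarith
      have a4 : (N : ℝ) + 1 ≠ 0 := by linarith
      have a5 : (N : ℝ) + 1 - 2 ≠ 0 := by intro h; linarith
      have a6 : (N : ℝ) + 1 - 3 ≠ 0 := by intro h; linarith
      have a7 : (N : ℝ) + 1 - 1 ≠ 0 := by intro h; linarith
      field_simp
      ring
    rw [h1]
    apply mul_le_mul_of_nonneg_left ih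
    rw [sub_nonneg, div_le_one (by positivity)]
    push_cast
    nlinarith

lemma prod16 (w : ℕ) (hw : 4 ≤ w) : 1 / 70 ≤ ∏ p ∈ (pz w).filter (fun p => 5 ≤ p), (1 - 16 / (p : ℝ) ^ 2) := by
  classical
  have h1 := tele16 w hw
  have hw' : (4 : ℝ) ≤ w := by exact_mod_cast hw
  have h2 : (1 : ℝ) ≤ ((w : ℝ) + 1) * (w + 2) * (w + 3) * (w + 4) / (w * (w - 1) * (w - 2) * (w - 3)) := by
    have a1 : 0 < (w : ℝ) - 1 := by linarith
    have a2 : 0 < (w : ℝ) - 2 := by linarith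
    have a3 : 0 < (w : ℝ) - 3 := by linarith
    rw [le_div_iff₀ (by positivity), one_mul]
    have b1 : (w : ℝ) * (w - 1) ≤ (w + 1) * (w + 2) := by nlinarith
    have b2 : (w : ℝ) * (w - 1) * (w - 2) ≤ (w + 1) * (w + 2) * (w + 3) := by
      apply mul_le_mul b1 (by linarith) a2.le (by positivity)
    exact mul_le_mul b2 (by linarith) a3.le (by positivity)
  have hj : ∀ j ∈ Icc 5 w, 0 ≤ 1 - 16 / (j : ℝ) ^ 2 ∧ 1 - 16 / (j : ℝ) ^ 2 ≤ 1 := by
    intro j hj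
    rw [mem_Icc] at hj
    have hj5 : (5 : ℝ) ≤ j := by exact_mod_cast hj.1
    constructor
    · rw [sub_nonneg, div_le_one (by positivity)]
      nlinarith
    · have : (0 : ℝ) ≤ 16 / (j : ℝ) ^ 2 := by positivity
      linarith
  have hsub : (pz w).filter (fun p => 5 ≤ p) ⊆ Icc 5 w := by
    intro p hp
    rw [mem_filter, mem_pz] at hp
    rw [mem_Icc]
    exact ⟨hp.2, hp.1.1⟩
  have h3 : ∏ j ∈ Icc 5 w, (1 - 16 / (j : ℝ) ^ 2) ≤ ∏ p ∈ (pz w).filter (fun p => 5 ≤ p), (1 - 16 / (p : ℝ) ^ 2) := by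
    rw [← prod_sdiff hsub]
    have h4 : ∏ j ∈ Icc 5 w \ (pz w).filter (fun p => 5 ≤ p), (1 - 16 / (j : ℝ) ^ 2) ≤ 1 :=
      prod_le_one (fun j hj' => (hj j (mem_sdiff.1 hj').1).1) (fun j hj' => (hj j (mem_sdiff.1 hj').1).2)
    have h5 : 0 ≤ ∏ p ∈ (pz w).filter (fun p => 5 ≤ p), (1 - 16 / (p : ℝ) ^ 2) :=
      prod_nonneg fun j hj' => (hj j (hsub hj')).1
    nlinarith
  linarith

/-- the local factor if all the forms coincide -/
lemma fl_same (u : ℤ) (c : Fin 4 → ℤ) (w p : ℕ) (hp : p.Prime) (hpw : p ≤ w) (hu : ¬ (p : ℤ) ∣ u)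
    (hc : ∀ i, (p : ℤ) ∣ c i - c 0) : ((1 - 1 / (p : ℝ))⁻¹) ^ 3 ≤ fl u c (fun _ => w) p := by
  classical
  have hpf : Fact p.Prime := ⟨hp⟩
  have h1 := one_sub_pos hp
  have hcard : (act (fun _ => w) p).card = 4 := by
    unfold act
    rw [filter_true_of_mem (fun _ _ => hpw)]
    simp
  have hnu : nuB (Qf u c (fun _ => w)) p ≤ 1 := by
    rw [nuB_Qf u c _ p hu]
    rw [card_le_one]
    intro a ha b hb
    rw [mem_image] at ha hb
    obtain ⟨i, _, rfl⟩ := ha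
    obtain ⟨j, _, rfl⟩ := hb
    have h2 : ∀ i, (c i : ZMod p) = (c 0 : ZMod p) := by
      intro i
      have := hc i
      rw [← ZMod.intCast_zmod_eq_zero_iff_dvd] at this
      push_cast at this
      linear_combination this
    rw [h2 i, h2 j]
  unfold fl
  rw [hcard, le_div_iff₀ (by positivity)]
  have hp0 : (0 : ℝ) < p := by exact_mod_cast hp.pos
  have h3 : (nuB (Qf u c (fun _ => w)) p : ℝ) / p ≤ 1 / p := by
    apply div_le_div_of_nonneg_right _ hp0.le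
    exact_mod_cast hnu
  have h4 : ((1 - 1 / (p : ℝ))⁻¹) ^ 3 * (1 - 1 / (p : ℝ)) ^ 4 = 1 - 1 / (p : ℝ) := by
    field_simp
  rw [h4]
  linarith

/-- the forms of the codegrees -/
def vx (v x : ℤ) : Fin 4 → ℤ := ![v, -v, x, -x]

lemma fl_low3 (x x' : ℤ) (w : ℕ) (hw : 3 ≤ w) (h : (3 : ℤ) ∣ x ↔ (3 : ℤ) ∣ x') : 27 / 16 ≤ fl 1 (vx x x') (fun _ => w) 3 := by
  classical
  have hu3 : ¬ ((3 : ℕ) : ℤ) ∣ 1 := by norm_num
  by_cases h3 : (3 : ℤ) ∣ x
  · have h3' := h.1 h3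
    have f3 := fl_same 1 (vx x x') w 3 Nat.prime_three hw hu3 (by
      intro i
      fin_cases i <;> simp [vx] <;> omega)
    norm_num at f3
    linarith
  · have h3' : ¬ (3 : ℤ) ∣ x' := fun h' => h3 (h.2 h')
    have hcard : (act (fun _ : Fin 4 => w) 3).card = 4 := by
      unfold act
      rw [filter_true_of_mem (fun _ _ => hw)]
      simp
    have hnu : nuB (Qf 1 (vx x x') (fun _ => w)) 3 ≤ 2 := by
      unfold nuB
      have hsub : (range 3).filter (fun r => Qf 1 (vx x x') (fun _ => w) 3 r) ⊆ {1, 2} := by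
        intro r hr
        rw [mem_filter, mem_range] at hr
        rw [mem_insert, mem_singleton]
        obtain ⟨hr, i, _, hd⟩ := hr
        have h0 : r ≠ 0 := by
          rintro rfl
          fin_cases i <;> simp [vx] at hd
          · exact h3 hd
          · exact h3 hd
          · exact h3' hd
          · exact h3' hd
        omega
      exact (card_le_card hsub).trans (by decide)
    unfold fl
    rw [hcard, le_div_iff₀ (by norm_num)]
    have h5 : (nuB (Qf 1 (vx x x') (fun _ => w)) 3 : ℝ) / ((3 : ℕ) : ℝ) ≤ 2 / 3 := by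
      push_cast
      apply div_le_div_of_nonneg_right _ (by norm_num)
      exact_mod_cast hnu
    norm_num
    push_cast at h5
    linarith

lemma Sw_low (w : ℕ) (hw : 4 ≤ w) (x x' : ℤ) (h2 : (2 : ℤ) ∣ x - x') (h3 : (3 : ℤ) ∣ x ↔ (3 : ℤ) ∣ x') :
    27 / 140 ≤ Sw 1 (vx x x') w := by
  classical
  unfold Sw Sz
  have hu : ∀ p : ℕ, p.Prime → ¬ (p : ℤ) ∣ 1 := by
    intro p hp h
    have h1 := Int.le_of_dvd (by norm_num) h
    have := hp.two_le
    omega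
  have e : pz w = insert 2 (insert 3 ((pz w).filter (fun p => 5 ≤ p))) := by
    ext p
    rw [mem_insert, mem_insert, mem_filter, mem_pz]
    constructor
    · rintro ⟨h1, h2⟩
      rcases Nat.lt_or_ge p 5 with h | h
      · have := h2.two_le
        have h4 : p ≠ 4 := by rintro rfl; exact absurd h2 (by norm_num)
        omega
      · exact Or.inr (Or.inr ⟨⟨h1, h2⟩, h⟩)
    · rintro (rfl | rfl | ⟨h, _⟩)
      · exact ⟨by omega, Nat.prime_two⟩
      · exact ⟨by omega, Nat.prime_three⟩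
      · exact h
  have n2 : 2 ∉ insert 3 ((pz w).filter (fun p => 5 ≤ p)) := by
    rw [mem_insert, mem_filter]; omega
  have n3 : 3 ∉ (pz w).filter (fun p => 5 ≤ p) := by
    rw [mem_filter]; omega
  rw [e, prod_insert n2, prod_insert n3]
  have f2 := fl_same 1 (vx x x') w 2 Nat.prime_two (by omega) (hu 2 Nat.prime_two) (by
    intro i
    fin_cases i <;> simp [vx] <;> omega)
  have f3 := fl_low3 x x' w (by omega) h3
  norm_num at f2
  have f5 : 1 / 70 ≤ ∏ p ∈ (pz w).filter (fun p => 5 ≤ p), fl 1 (vx x x') (fun _ => w) p := by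
    refine (prod16 w hw).trans ?_
    apply Finset.prod_le_prod
    · intro p hp
      rw [mem_filter] at hp
      have hp5 : (5 : ℝ) ≤ p := by exact_mod_cast hp.2
      rw [sub_nonneg, div_le_one (by positivity)]
      nlinarith
    · intro p hp
      rw [mem_filter, mem_pz] at hp
      exact fl_ge 1 _ _ hp.1.2 hp.2 (hu p hp.1.2)
  have h6 : 27 / 16 * (1 / 70) ≤ fl 1 (vx x x') (fun _ => w) 3 * ∏ p ∈ (pz w).filter (fun p => 5 ≤ p), fl 1 (vx x x') (fun _ => w) p :=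
    mul_le_mul f3 f5 (by norm_num) (by linarith)
  have h7 : 8 * (27 / 16 * (1 / 70)) ≤ fl 1 (vx x x') (fun _ => w) 2 * (fl 1 (vx x x') (fun _ => w) 3 * ∏ p ∈ (pz w).filter (fun p => 5 ≤ p), fl 1 (vx x x') (fun _ => w) p) :=
    mul_le_mul f2 h6 (by norm_num) (by linarith)
  calc (27 : ℝ) / 140 = 8 * (27 / 16 * (1 / 70)) := by norm_num
    _ ≤ _ := h7

lemma cf_Mf (n w : ℕ) (x x' : ℤ) : cf n (Mf w) x x' = ∑ r ∈ Ioc 0 n, ∏ i, lz w (1 * (r : ℤ) + vx x x' i) := by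
  unfold cf
  rw [sum_int_nat 1 n le_rfl]
  have e2 : ((1 : ℤ) - 1).toNat = 0 := by norm_num
  rw [e2, Int.toNat_natCast]
  refine sum_congr rfl fun r _ => ?_
  simp only [Fin.prod_univ_four, vx, Mf, Matrix.cons_val_zero, Matrix.cons_val_one, Matrix.cons_val]
  have a1 : 1 * (r : ℤ) + x = x + r := by ring
  have a2 : 1 * (r : ℤ) + -x = r - x := by ring
  have a3 : 1 * (r : ℤ) + x' = x' + r := by ring
  have a4 : 1 * (r : ℤ) + -x' = r - x' := by ring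
  rw [a1, a2, a3, a4]
  ring

theorem cM_low : ∃ w1 : ℕ, ∀ w : ℕ, w1 ≤ w → ∀ᶠ n : ℕ in atTop, ∀ x x' : ℤ, (2 : ℤ) ∣ x - x' → ((3 : ℤ) ∣ x ↔ (3 : ℤ) ∣ x') →
    (n : ℝ) / 20 ≤ cf n (Mf w) x x' := by
  obtain ⟨K, x0, hK, h⟩ := sieve1 (1 / 2) (by norm_num)
  refine ⟨max x0 4, fun w hw => ?_⟩
  have hx0 : x0 ≤ w := le_trans (le_max_left _ _) hw
  have hw4 : 4 ≤ w := le_trans (le_max_right _ _) hw
  filter_upwards [eventually_ge_atTop (max (w ^ K) (⌈(100 * ((Vz w)⁻¹) ^ 4) ^ 2⌉₊ + 1))] with n hn x x' h2 h3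
  have hwK : w ^ K ≤ n := le_trans (le_max_left _ _) hn
  have hn2 : (100 * ((Vz w)⁻¹) ^ 4) ^ 2 ≤ n := by
    refine (Nat.le_ceil _).trans ?_
    exact_mod_cast (Nat.le_succ _).trans (le_trans (le_max_right _ _) hn)
  have hn0 : (0 : ℝ) ≤ n := Nat.cast_nonneg _
  have h4 := h n w hx0 hwK 1 (Or.inl rfl) (vx x x') (fun _ => w) (fun _ => le_rfl) 0 n (Nat.zero_le _)
  rw [← cf_Mf] at h4
  have h5 := (abs_le.1 h4).1
  have h6 := Sw_low w hw4 x x' h2 h3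
  unfold Sw at h6
  have h7 : ∏ _i : Fin 4, (Vz w)⁻¹ = ((Vz w)⁻¹) ^ 4 := by rw [prod_const, card_univ, Fintype.card_fin]
  rw [h7] at h5
  have h8 : 100 * ((Vz w)⁻¹) ^ 4 ≤ √(n : ℝ) := Real.le_sqrt_of_sq_le hn2
  have h9 : √(n : ℝ) * (100 * ((Vz w)⁻¹) ^ 4) ≤ √(n : ℝ) * √(n : ℝ) := mul_le_mul_of_nonneg_left h8 (Real.sqrt_nonneg _)
  rw [Real.mul_self_sqrt hn0] at h9
  push_cast at h5
  have h10 : (n : ℝ) * (27 / 140) ≤ n * Sz 1 (vx x x') (fun _ => w) w := mul_le_mul_of_nonneg_left h6 hn0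
  linarith

end Pool.Agent.W2helper88.GR
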