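import Pool.Agent.W2helper88.GR.Cod
import Pool.Agent.H373R2.T7.FundC

set_option autoImplicit false

/-!
# Project GR (helper88): the lower bound for the degrees
-/

namespace Pool.Agent.W2helper88.GR

open Finset Filter
open Pool.Agent.H373R2.T7 (pz Vz lamz mem_pz nuB PerB nuB_le sys_fund Vz_pos PerA rhoA lam_fund)

/-- the arithmetic weight of a vertex -/
noncomputable def wv (Y : ℕ) (v : ℤ) : ℝ := ∏ p ∈ pz Y, (if (p : ℤ) ∣ v then (1 - 1 / (p : ℝ))⁻¹ else 1)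

lemma inv_ge_one {p : ℕ} (hp : p.Prime) : 1 ≤ (1 - 1 / (p : ℝ))⁻¹ := by
  have h1 := one_sub_pos hp
  apply (one_le_inv₀ h1).2
  have : (0 : ℝ) ≤ 1 / (p : ℝ) := by positivity
  linarith

lemma one_le_wv (Y : ℕ) (v : ℤ) : 1 ≤ wv Y v := by
  unfold wv
  calc (1 : ℝ) = ∏ _p ∈ pz Y, (1 : ℝ) := by simp
    _ ≤ _ := by
      apply Finset.prod_le_prod (fun _ _ => zero_le_one)
      intro p hp
      split_ifs
      · exact inv_ge_one (mem_pz.1 hp).2
      · exact le_rfl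

/-- the forbidden classes -/
def Qv (a : ℕ) (p m : ℕ) : Prop := (p : ℤ) ∣ (m : ℤ) - 2 * a

lemma Qv_per (a p n : ℕ) : Qv a p n ↔ Qv a p (n % p) := by
  unfold Qv
  have h2 : ((n % p : ℕ) : ℤ) + (p : ℤ) * ((n / p : ℕ) : ℤ) = n := by exact_mod_cast Nat.mod_add_div n p
  have h1 : (n : ℤ) - 2 * a = (((n % p : ℕ) : ℤ) - 2 * a) + (p : ℤ) * ((n / p : ℕ) : ℤ) := by
    linear_combination -h2
  rw [h1]
  exact dvd_add_left (dvd_mul_right _ _)

lemma rho_le (a p : ℕ) (hp : p.Prime) : rhoA (Qv a) p ≤ 1 := by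
  classical
  unfold rhoA
  rw [card_le_one]
  intro r hr s hs
  rw [mem_filter, mem_range] at hr hs
  obtain ⟨hr1, _, hr2⟩ := hr
  obtain ⟨hs1, _, hs2⟩ := hs
  unfold Qv at hr2 hs2
  have h1 : (p : ℤ) ∣ (r : ℤ) - s := by
    have := dvd_sub hr2 hs2
    have e : (r : ℤ) - 2 * a - (s - 2 * a) = r - s := by ring
    rwa [e] at this
  have h2 : |(r : ℤ) - s| < p := by rw [abs_lt]; omega
  have h3 := Int.eq_zero_of_abs_lt_dvd h1 h2
  omega

lemma rho_zero (a p : ℕ) (h : (p : ℤ) ∣ 2 * a) : rhoA (Qv a) p = 0 := by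
  classical
  unfold rhoA
  rw [card_eq_zero, filter_eq_empty_iff]
  rintro r _ ⟨h1, h2⟩
  unfold Qv at h2
  apply h1
  have := dvd_add h2 h
  rw [sub_add_cancel] at this
  exact_mod_cast this

lemma Qv_perA (a : ℕ) : PerA (Qv a) 1 := ⟨Qv_per a, fun p hp => rho_le a p hp⟩

lemma tele1 (N : ℕ) (hN : 2 ≤ N) : (N : ℝ) / (2 * (N - 1)) ≤ ∏ j ∈ Icc 3 N, (1 - 1 / ((j : ℝ) - 1) ^ 2) := by
  induction N, hN using Nat.le_induction with
  | base => norm_num
  | succ N hN ih =>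
    have hins : Icc 3 (N + 1) = insert (N + 1) (Icc 3 N) := by
      ext j
      rw [mem_insert, mem_Icc, mem_Icc]
      omega
    rw [hins, prod_insert (by simp)]
    have hN' : (2 : ℝ) ≤ N := by exact_mod_cast hN
    have h1 : ((N + 1 : ℕ) : ℝ) / (2 * ((N + 1 : ℕ) - 1)) = (1 - 1 / (((N + 1 : ℕ) : ℝ) - 1) ^ 2) * ((N : ℝ) / (2 * (N - 1))) := by
      push_cast
      have a0 : (N : ℝ) ≠ 0 := by linarith
      have a1 : (N : ℝ) - 1 ≠ 0 := by intro h; linarith
      have a2 : (N : ℝ) + 1 - 1 = N := by ring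
      rw [a2]
      field_simp
      ring
    rw [h1]
    apply mul_le_mul_of_nonneg_left ih
    rw [sub_nonneg, div_le_one]
    · push_cast
      nlinarith
    · push_cast
      have : (N : ℝ) + 1 - 1 = N := by ring
      rw [this]; positivity

/-- the twin prime factors -/
noncomputable def tf (p : ℕ) : ℝ := if p = 2 then 1 else 1 - 1 / ((p : ℝ) - 1) ^ 2

lemma prod_tf (Y : ℕ) : 1 / 2 ≤ ∏ p ∈ pz Y, tf p := by
  classical
  rcases Nat.lt_or_ge Y 2 with hY | hY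
  · have : pz Y = ∅ := by
      rw [eq_empty_iff_forall_notMem]
      intro p hp
      rw [mem_pz] at hp
      have := hp.2.two_le
      omega
    rw [this, prod_empty]; norm_num
  · have h1 := tele1 Y hY
    have hY' : (2 : ℝ) ≤ Y := by exact_mod_cast hY
    have h2 : (1 : ℝ) / 2 ≤ (Y : ℝ) / (2 * (Y - 1)) := by
      rw [div_le_div_iff₀ (by norm_num) (by linarith)]
      linarith
    have hj : ∀ j ∈ Icc 3 Y, 0 ≤ 1 - 1 / ((j : ℝ) - 1) ^ 2 ∧ 1 - 1 / ((j : ℝ) - 1) ^ 2 ≤ 1 := by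
      intro j hj
      rw [mem_Icc] at hj
      have hj3 : (3 : ℝ) ≤ j := by exact_mod_cast hj.1
      have h0 : 0 < (j : ℝ) - 1 := by linarith
      constructor
      · rw [sub_nonneg, div_le_one (by positivity)]
        nlinarith
      · have : (0 : ℝ) ≤ 1 / ((j : ℝ) - 1) ^ 2 := by positivity
        linarith
    have h3 : ∏ p ∈ pz Y, tf p = ∏ p ∈ (pz Y).filter (fun p => 3 ≤ p), (1 - 1 / ((p : ℝ) - 1) ^ 2) := by
      rw [prod_filter]
      refine prod_congr rfl fun p hp => ?_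
      have hp2 := (mem_pz.1 hp).2.two_le
      unfold tf
      by_cases h : p = 2
      · rw [if_pos h, if_neg (by omega)]
      · rw [if_neg h, if_pos (by omega)]
    rw [h3]
    have hsub : (pz Y).filter (fun p => 3 ≤ p) ⊆ Icc 3 Y := by
      intro p hp
      rw [mem_filter, mem_pz] at hp
      rw [mem_Icc]
      exact ⟨hp.2, hp.1.1⟩
    rw [← prod_sdiff hsub] at h1
    have h4 : ∏ j ∈ Icc 3 Y \ (pz Y).filter (fun p => 3 ≤ p), (1 - 1 / ((j : ℝ) - 1) ^ 2) ≤ 1 :=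
      prod_le_one (fun j hj' => (hj j (mem_sdiff.1 hj').1).1) (fun j hj' => (hj j (mem_sdiff.1 hj').1).2)
    have h5 : 0 ≤ ∏ p ∈ (pz Y).filter (fun p => 3 ≤ p), (1 - 1 / ((p : ℝ) - 1) ^ 2) :=
      prod_nonneg fun j hj' => (hj j (hsub hj')).1
    nlinarith

lemma VP_low (Y a : ℕ) : 1 / 2 * wv Y a ≤ (Vz Y)⁻¹ * ∏ p ∈ pz Y, (1 - (rhoA (Qv a) p : ℝ) / (p - 1 : ℝ)) := by
  classical
  have h1 : wv Y a * ∏ p ∈ pz Y, tf p ≤ (Vz Y)⁻¹ * ∏ p ∈ pz Y, (1 - (rhoA (Qv a) p : ℝ) / (p - 1 : ℝ)) := by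
    unfold wv Vz
    rw [← prod_inv_distrib, ← prod_mul_distrib, ← prod_mul_distrib]
    apply Finset.prod_le_prod
    · intro p hp
      have hpp := (mem_pz.1 hp).2
      apply mul_nonneg
      · split_ifs
        · exact le_trans zero_le_one (inv_ge_one hpp)
        · exact zero_le_one
      · unfold tf
        split_ifs with h
        · exact zero_le_one
        · have hp3 : (3 : ℝ) ≤ p := by
            have := hpp.two_le
            exact_mod_cast (by omega : 3 ≤ p)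
          rw [sub_nonneg, div_le_one (by nlinarith)]
          nlinarith
    · intro p hp
      have hpp := (mem_pz.1 hp).2
      have hi := inv_ge_one hpp
      by_cases h2 : p = 2
      · have h3 : rhoA (Qv a) p = 0 := rho_zero a p (by rw [h2]; exact dvd_mul_right _ _)
        rw [h3]
        unfold tf
        rw [if_pos h2]
        simp only [Nat.cast_zero, zero_div, sub_zero, mul_one]
        split_ifs
        · exact le_rfl
        · exact hi
      · have hp3 : (3 : ℝ) ≤ p := by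
          have := hpp.two_le
          exact_mod_cast (by omega : 3 ≤ p)
        have ht : tf p ≤ 1 := by
          unfold tf
          rw [if_neg h2]
          have : (0 : ℝ) ≤ 1 / ((p : ℝ) - 1) ^ 2 := by positivity
          linarith
        by_cases h3 : (p : ℤ) ∣ (a : ℤ)
        · rw [if_pos h3, rho_zero a p (dvd_mul_of_dvd_right h3 _)]
          simp only [Nat.cast_zero, zero_div, sub_zero]
          exact mul_le_mul_of_nonneg_left ht (by linarith)
        · rw [if_neg h3, one_mul]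
          have h4 : (rhoA (Qv a) p : ℝ) ≤ 1 := by exact_mod_cast rho_le a p hpp
          have hp1 : 0 < (p : ℝ) - 1 := by linarith
          have h5 : 1 - 1 / ((p : ℝ) - 1) ≤ 1 - (rhoA (Qv a) p : ℝ) / (p - 1 : ℝ) := by
            have : (rhoA (Qv a) p : ℝ) / (p - 1 : ℝ) ≤ 1 / ((p : ℝ) - 1) := div_le_div_of_nonneg_right h4 hp1.le
            linarith
          refine le_trans (le_of_eq ?_) (mul_le_mul_of_nonneg_left h5 (by linarith))
          unfold tf
          rw [if_neg h2]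
          have hp0 : (p : ℝ) ≠ 0 := by linarith
          have hp1' : (p : ℝ) - 1 ≠ 0 := hp1.ne'
          field_simp
          ring
  have h2 := prod_tf Y
  have h3 := one_le_wv Y a
  nlinarith

theorem deg_low : ∃ K0 : ℕ, ∀ K : ℕ, K0 ≤ K → ∀ᶠ n : ℕ in atTop, ∀ v : ℤ, 1 ≤ v → v ≤ n →
    (n : ℝ) / 4 * wv (rt K n) v ≤ ∑ x ∈ Icc (1 : ℤ) n, Wf n (rt K n) v x := by
  classical
  obtain ⟨C, hC1, hC⟩ := V_low'
  obtain ⟨K1, hK1, hlf⟩ := lam_fund 1 le_rfl (1 / 12) (by norm_num)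
  obtain ⟨x0, hx0⟩ := hlf (C + 1)
  refine ⟨max K1 1, fun K hK => ?_⟩
  have hK1' : 1 ≤ K := le_trans (le_max_right _ _) hK
  filter_upwards [hC, rt_ge K (max x0 1) hK1', eventually_ge_atTop 2, ev_log (C + 1) 160, ev_L 64] with n h1 h2 hn hs hL v hv1 hvn
  obtain ⟨Y, hY⟩ : ∃ Y, Y = rt K n := ⟨_, rfl⟩
  rw [← hY] at h2 ⊢
  obtain ⟨a, ha⟩ := Int.eq_ofNat_of_zero_le (by omega : 0 ≤ v)
  subst ha
  have ha1 : 1 ≤ a := by exact_mod_cast hv1
  have han : a ≤ n := by exact_mod_cast hvn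
  have hYn : Y ≤ n := by rw [hY]; exact rt_le_self _ _
  have hxY : x0 ≤ Y := le_trans (le_max_left _ _) h2
  have h1Y : 1 ≤ Y := le_trans (le_max_right _ _) h2
  have hYK : Y ^ K1 ≤ 2 * n := by
    calc Y ^ K1 ≤ Y ^ K := Nat.pow_le_pow_right h1Y (le_trans (le_max_left _ _) hK)
      _ ≤ n := by rw [hY]; exact rt_le _ n hK1'
      _ ≤ 2 * n := by omega
  have hn0 : (0 : ℝ) < n := by exact_mod_cast (by omega : 0 < n)
  obtain ⟨Pv, hPv⟩ : ∃ Pv : ℝ, Pv = ∏ p ∈ pz Y, (1 - (rhoA (Qv a) p : ℝ) / (p - 1 : ℝ)) := ⟨_, rfl⟩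
  have hP0 : 0 ≤ Pv := by
    rw [hPv]
    apply prod_nonneg
    intro p hp
    have hpp := (mem_pz.1 hp).2
    have hp2 : (2 : ℝ) ≤ p := by exact_mod_cast hpp.two_le
    have h4 : (rhoA (Qv a) p : ℝ) ≤ 1 := by exact_mod_cast rho_le a p hpp
    rw [sub_nonneg, div_le_one (by linarith)]
    linarith
  obtain ⟨S, hS⟩ : ∃ S : ℕ → ℝ, S = fun X => ∑ m ∈ (Icc 1 X).filter (fun m : ℕ => ∀ p ∈ pz Y, ¬ Qv a p m), ArithmeticFunction.vonMangoldt m := ⟨_, rfl⟩
  have hSX : ∀ X, X ≤ 2 * n → |S X - X * Pv| ≤ 1 / 12 * (X * Pv) + (2 * n : ℕ) / Real.log ((2 * n : ℕ) : ℝ) ^ (C + 1) := by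
    intro X hX
    have := hx0 (2 * n) Y hxY hYK (Qv a) (Qv_perA a) X hX
    rw [← hPv] at this
    rw [hS]
    convert this
  have hSa := (abs_le.1 (hSX a (by omega))).2
  have hSb := (abs_le.1 (hSX (a + n) (by omega))).1
  have hE : ((2 * n : ℕ) : ℝ) / Real.log ((2 * n : ℕ) : ℝ) ^ (C + 1) ≤ 2 * (n / Real.log n ^ (C + 1)) := by
    have h5 : Real.log n ^ (C + 1) ≤ Real.log ((2 * n : ℕ) : ℝ) ^ (C + 1) :=
      pow_le_pow_left₀ (by linarith) (Real.log_le_log hn0 (by push_cast; linarith)) (C + 1)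
    calc ((2 * n : ℕ) : ℝ) / Real.log ((2 * n : ℕ) : ℝ) ^ (C + 1) ≤ ((2 * n : ℕ) : ℝ) / Real.log n ^ (C + 1) :=
          div_le_div_of_nonneg_left (by positivity) (by positivity) h5
      _ = _ := by push_cast; ring
  -- the sum as a sum over `m = v + x`
  have e1 : ∑ x ∈ Icc (1 : ℤ) n, Wf n Y (a : ℤ) x =
      (Vz Y)⁻¹ * ∑ m ∈ (Ioc a (a + n)).filter (fun m : ℕ => ∀ p ∈ pz Y, ¬ Qv a p m), ap n m := by
    rw [sum_int_Icc, mul_sum, sum_filter]
    refine sum_nbij' (fun x => a + x) (fun m => m - a) ?_ ?_ ?_ ?_ ?_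
    · intro x hx
      rw [mem_Icc] at hx
      rw [mem_Ioc]
      omega
    · intro m hm
      rw [mem_Ioc] at hm
      rw [mem_Icc]
      omega
    · intro x _
      simp
    · intro m hm
      rw [mem_Ioc] at hm
      omega
    · intro x _
      unfold Wf
      rw [lz_ite]
      have e2 : (∀ p ∈ pz Y, ¬ (p : ℤ) ∣ (x : ℤ) - a) ↔ ∀ p ∈ pz Y, ¬ Qv a p (a + x) := by
        unfold Qv
        have e3 : (((a + x : ℕ) : ℤ)) - 2 * a = x - a := by push_cast; ring
        rw [e3]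
      by_cases h : ∀ p ∈ pz Y, ¬ Qv a p (a + x)
      · rw [if_pos h, if_pos (e2.2 h)]
        push_cast
        ring
      · rw [if_neg h, if_neg (fun h' => h (e2.1 h')), mul_zero]
  have e2 : ∑ m ∈ (Ioc a (a + n)).filter (fun m : ℕ => ∀ p ∈ pz Y, ¬ Qv a p m), ArithmeticFunction.vonMangoldt m = S (a + n) - S a := by
    have e3 : (Icc 1 (a + n)).filter (fun m : ℕ => ∀ p ∈ pz Y, ¬ Qv a p m) =
        (Icc 1 a).filter (fun m : ℕ => ∀ p ∈ pz Y, ¬ Qv a p m) ∪ (Ioc a (a + n)).filter (fun m : ℕ => ∀ p ∈ pz Y, ¬ Qv a p m) := by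
      rw [← filter_union]
      congr 1
      ext m
      simp only [mem_Icc, mem_union, mem_Ioc]
      omega
    have e4 : Disjoint ((Icc 1 a).filter (fun m : ℕ => ∀ p ∈ pz Y, ¬ Qv a p m))
        ((Ioc a (a + n)).filter (fun m : ℕ => ∀ p ∈ pz Y, ¬ Qv a p m)) := by
      rw [disjoint_left]
      intro m h1 h2
      rw [mem_filter, mem_Icc] at h1
      rw [mem_filter, mem_Ioc] at h2
      omega
    rw [hS]
    simp only
    rw [e3, sum_union e4]
    ring
  have e3 : S (a + n) - S a - 10 * (√(n : ℝ) * Real.log n) ≤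
      ∑ m ∈ (Ioc a (a + n)).filter (fun m : ℕ => ∀ p ∈ pz Y, ¬ Qv a p m), ap n m := by
    rw [← e2]
    have h5 : ∑ m ∈ (Ioc a (a + n)).filter (fun m : ℕ => ∀ p ∈ pz Y, ¬ Qv a p m), (ArithmeticFunction.vonMangoldt m - ap n m) ≤
        10 * (√(n : ℝ) * Real.log n) := by
      refine le_trans ?_ (sum_lam_ap n hn)
      apply sum_le_sum_of_subset_of_nonneg
      · intro m hm
        rw [mem_filter, mem_Ioc] at hm
        rw [mem_Icc]
        omega
      · intro m _ _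
        linarith [lam_ge_ap n m]
    rw [sum_sub_distrib] at h5
    linarith
  rw [e1]
  have hVi : 0 < (Vz Y)⁻¹ := inv_pos.2 (Vz_pos Y)
  have hVL : (Vz Y)⁻¹ ≤ Real.log n ^ C := h1 Y hYn
  have h6 : (3 / 4 : ℝ) * (n * Pv) - 4 * (n / Real.log n ^ (C + 1)) - 10 * (√(n : ℝ) * Real.log n) ≤
      ∑ m ∈ (Ioc a (a + n)).filter (fun m : ℕ => ∀ p ∈ pz Y, ¬ Qv a p m), ap n m := by
    refine le_trans ?_ e3
    push_cast at hSa hSb hE
    have haP : (a : ℝ) * Pv ≤ n * Pv := mul_le_mul_of_nonneg_right (by exact_mod_cast han) hP0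
    nlinarith
  have h7 := mul_le_mul_of_nonneg_left h6 hVi.le
  refine le_trans ?_ h7
  have h8 := VP_low Y a
  rw [← hPv] at h8
  have hw := one_le_wv Y (a : ℤ)
  have hLC0 : 0 < Real.log n ^ C := by positivity
  have h9 : (Vz Y)⁻¹ * (4 * (n / Real.log n ^ (C + 1)) + 10 * (√(n : ℝ) * Real.log n)) ≤ n / 8 := by
    have h10 : (Vz Y)⁻¹ * (4 * (n / Real.log n ^ (C + 1)) + 10 * (√(n : ℝ) * Real.log n)) ≤
        Real.log n ^ C * (4 * (n / Real.log n ^ (C + 1)) + 10 * (√(n : ℝ) * Real.log n)) :=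
      mul_le_mul_of_nonneg_right hVL (by positivity)
    have h11 : Real.log n ^ C * (4 * (n / Real.log n ^ (C + 1))) ≤ n / 16 := by
      have e4 : Real.log n ^ C * (4 * (n / Real.log n ^ (C + 1))) = 4 * n / Real.log n := by
        rw [pow_succ]; field_simp
      rw [e4, div_le_iff₀ (by linarith)]
      nlinarith
    have h12 : Real.log n ^ C * (10 * (√(n : ℝ) * Real.log n)) ≤ n / 16 := by
      have h13 : √(n : ℝ) * (160 * Real.log n ^ (C + 1)) ≤ √(n : ℝ) * √(n : ℝ) := mul_le_mul_of_nonneg_left hs (Real.sqrt_nonneg _)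
      rw [Real.mul_self_sqrt hn0.le] at h13
      have e5 : Real.log n ^ C * (10 * (√(n : ℝ) * Real.log n)) = √(n : ℝ) * (160 * Real.log n ^ (C + 1)) / 16 := by
        rw [pow_succ]; ring
      rw [e5]
      linarith
    calc _ ≤ _ := h10
      _ = Real.log n ^ C * (4 * (n / Real.log n ^ (C + 1))) + Real.log n ^ C * (10 * (√(n : ℝ) * Real.log n)) := by ring
      _ ≤ n / 16 + n / 16 := add_le_add h11 h12
      _ = n / 8 := by ring
  have h14 : (n : ℝ) * (1 / 2 * wv Y a) ≤ n * ((Vz Y)⁻¹ * Pv) := mul_le_mul_of_nonneg_left h8 hn0.le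
  have h15 : (n : ℝ) * 1 ≤ n * wv Y a := mul_le_mul_of_nonneg_left hw hn0.le
  nlinarith

end Pool.Agent.W2helper88.GR
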