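import Pool.Agent.W2helper88.GR.Ap

set_option autoImplicit false

/-!
# Project GR (helper88): replacing the primes by the sieve model
-/

namespace Pool.Agent.W2helper88.GR

open Finset Filter
open Pool.Agent.H373R2.T7 (pz Vz lamz mem_pz nuB PerB nuB_le sys_fund Vz_pos)
open Pool.Agent.H807R2.Dav

/-- the level of the sieve model -/
noncomputable def zp (B n : ℕ) : ℕ := ⌈Real.log ((2 * n : ℕ) : ℝ) ^ B⌉₊

lemma zp_le (B : ℕ) : ∀ᶠ n : ℕ in atTop, (zp B n : ℝ) ≤ Real.log ((2 * n : ℕ) : ℝ) ^ (B + 1) := by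
  filter_upwards [ev_L 2, eventually_ge_atTop 1] with n hn hn1
  have hn0 : (0 : ℝ) < n := by exact_mod_cast hn1
  have h1 : 2 ≤ Real.log ((2 * n : ℕ) : ℝ) := by
    refine hn.trans (Real.log_le_log hn0 ?_)
    push_cast; linarith
  unfold zp
  have h2 : ((⌈Real.log ((2 * n : ℕ) : ℝ) ^ B⌉₊ : ℕ) : ℝ) < Real.log ((2 * n : ℕ) : ℝ) ^ B + 1 := Nat.ceil_lt_add_one (by positivity)
  have h3 : 1 ≤ Real.log ((2 * n : ℕ) : ℝ) ^ B := one_le_pow₀ (by linarith)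
  rw [pow_succ]
  nlinarith

theorem fou (U : ℕ) : ∃ B : ℕ, 1 ≤ B ∧ ∀ᶠ n : ℕ in atTop, ∀ α : ℝ,
    ‖∑ m ∈ Icc 1 (2 * n), ((ap n m - lz (zp B n) m : ℝ) : ℂ) * ee ((m : ℝ) * α)‖ ≤ 3 * n / Real.log n ^ U := by
  obtain ⟨B0, hB⟩ := Pool.Agent.H373R2.T7.sup_diff U
  refine ⟨B0 + 1, by omega, ?_⟩
  obtain ⟨N0, hN0⟩ := hB (B0 + 2)
  filter_upwards [eventually_ge_atTop (max N0 2), zp_le (B0 + 1), ev_L 1, ev_log (U + 1) 10] with n hn hz hL hs α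
  have hnN : N0 ≤ 2 * n := by
    have := le_trans (le_max_left _ _) hn
    omega
  have hn2 : 2 ≤ n := le_trans (le_max_right _ _) hn
  have hn0 : (2 : ℝ) ≤ n := by exact_mod_cast hn2
  have hL2 : Real.log n ≤ Real.log ((2 * n : ℕ) : ℝ) := by
    apply Real.log_le_log (by linarith)
    push_cast; linarith
  have h1 := hN0 (2 * n) hnN (zp (B0 + 1) n) (by
    refine le_trans ?_ (Nat.le_ceil _)
    exact pow_le_pow_right₀ (by linarith) (by omega)) hz α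
  have e : ∑ m ∈ Icc 1 (2 * n), ((ap n m - lz (zp (B0 + 1) n) m : ℝ) : ℂ) * ee ((m : ℝ) * α) =
      ∑ m ∈ Icc 1 (2 * n), ((ArithmeticFunction.vonMangoldt m - lamz (zp (B0 + 1) n) m : ℝ) : ℂ) * ee ((m : ℝ) * α) -
      ∑ m ∈ Icc 1 (2 * n), ((ArithmeticFunction.vonMangoldt m - ap n m : ℝ) : ℂ) * ee ((m : ℝ) * α) := by
    rw [← sum_sub_distrib]
    refine sum_congr rfl fun m _ => ?_
    have : lz (zp (B0 + 1) n) (m : ℤ) = lamz (zp (B0 + 1) n) m := by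
      unfold lz
      rw [Int.natAbs_natCast]
    rw [this]
    push_cast
    ring
  rw [e]
  refine (norm_sub_le _ _).trans ?_
  have h2 : ‖∑ m ∈ Icc 1 (2 * n), ((ArithmeticFunction.vonMangoldt m - ap n m : ℝ) : ℂ) * ee ((m : ℝ) * α)‖ ≤
      10 * (√(n : ℝ) * Real.log n) := by
    refine (norm_sum_le _ _).trans (le_trans (le_of_eq ?_) (sum_lam_ap n hn2))
    refine sum_congr rfl fun m _ => ?_
    rw [norm_mul, norm_ee, mul_one, Complex.norm_real, Real.norm_of_nonneg (by linarith [lam_ge_ap n m])]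
  have hU : 0 < Real.log n ^ U := by positivity
  have h3 : 10 * (√(n : ℝ) * Real.log n) ≤ n / Real.log n ^ U := by
    rw [le_div_iff₀ hU]
    have h4 : √(n : ℝ) * (10 * Real.log n ^ (U + 1)) ≤ √(n : ℝ) * √(n : ℝ) := mul_le_mul_of_nonneg_left hs (Real.sqrt_nonneg _)
    rw [Real.mul_self_sqrt (by linarith)] at h4
    calc _ = √(n : ℝ) * (10 * Real.log n ^ (U + 1)) := by rw [pow_succ]; ring
      _ ≤ _ := h4
  have h4 : ((2 * n : ℕ) : ℝ) / Real.log ((2 * n : ℕ) : ℝ) ^ U ≤ 2 * (n / Real.log n ^ U) := by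
    have h5 : Real.log n ^ U ≤ Real.log ((2 * n : ℕ) : ℝ) ^ U := pow_le_pow_left₀ (by linarith) hL2 U
    calc ((2 * n : ℕ) : ℝ) / Real.log ((2 * n : ℕ) : ℝ) ^ U ≤ ((2 * n : ℕ) : ℝ) / Real.log n ^ U :=
          div_le_div_of_nonneg_left (by positivity) hU h5
      _ = _ := by push_cast; ring
  calc _ ≤ 2 * (n / Real.log n ^ U) + n / Real.log n ^ U := add_le_add (h1.trans h4) (h2.trans h3)
    _ = _ := by ring

/-! ### bilinear sums with a periodic factor -/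

lemma sum_int_Icc (n : ℕ) (f : ℤ → ℝ) : ∑ x ∈ Icc (1 : ℤ) n, f x = ∑ x ∈ Icc 1 n, f (x : ℤ) := by
  refine sum_nbij' (fun y => y.toNat) (fun r => (r : ℤ)) ?_ ?_ ?_ ?_ ?_
  · intro y hy
    simp only [mem_Icc] at hy ⊢
    omega
  · intro r hr
    simp only [mem_Icc] at hr ⊢
    omega
  · intro y hy
    simp only [mem_Icc] at hy
    omega
  · intro r _
    simp
  · intro y hy
    simp only [mem_Icc] at hy
    congr 1
    omega

lemma bilS (n P : ℕ) (hn : 1 ≤ n) (hP : 1 ≤ P) (F : ℤ → ℝ) (Mb : ℝ)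
    (hM : ∀ α : ℝ, ‖∑ m ∈ Icc 1 (2 * n), ((F m : ℝ) : ℂ) * ee ((m : ℝ) * α)‖ ≤ Mb)
    (u v : ℤ → ℝ) (Ma : ℝ) (hu : ∀ x, |u x| ≤ Ma) (hv : ∀ x, |v x| ≤ Ma) (S : ℤ → ℤ → ℝ) (Ms : ℝ)
    (hS : ∀ x y, |S x y| ≤ Ms) (hper : ∀ x y x2 y2 : ℤ, (P : ℤ) ∣ x - x2 → (P : ℤ) ∣ y - y2 → S x y = S x2 y2) :
    |∑ x ∈ Icc (1 : ℤ) n, ∑ y ∈ Icc (1 : ℤ) n, F (x + y) * u x * v y * S x y| ≤ P ^ 2 * Ms * (Mb * (n * Ma ^ 2)) := by
  classical
  have hMa : 0 ≤ Ma := (abs_nonneg _).trans (hu 0)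
  have hMb : 0 ≤ Mb := (norm_nonneg _).trans (hM 0)
  have hMs : 0 ≤ Ms := (abs_nonneg _).trans (hS 0 0)
  have hSS : ∀ x y : ℕ, S x y = ∑ α ∈ range P, ∑ β ∈ range P, S α β * ((if x % P = α then 1 else 0) * (if y % P = β then 1 else 0)) := by
    intro x y
    have h1 : ∀ α ∈ range P, ∑ β ∈ range P, S α β * ((if x % P = α then (1 : ℝ) else 0) * (if y % P = β then 1 else 0)) =
        if x % P = α then S α ((y % P : ℕ) : ℤ) else 0 := by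
      intro α _
      have h2 : ∀ β ∈ range P, S α β * ((if x % P = α then (1 : ℝ) else 0) * (if y % P = β then 1 else 0)) =
          if y % P = β then (if x % P = α then S α β else 0) else 0 := by
        intro β _
        by_cases h : y % P = β <;> by_cases h' : x % P = α <;> simp [h, h']
      rw [sum_congr rfl h2, sum_ite_eq, if_pos (mem_range.2 (Nat.mod_lt _ (by omega)))]
    rw [sum_congr rfl h1, sum_ite_eq, if_pos (mem_range.2 (Nat.mod_lt _ (by omega)))]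
    apply hper
    · push_cast
      exact Int.dvd_self_sub_emod
    · push_cast
      exact Int.dvd_self_sub_emod
  rw [sum_int_Icc]
  have e1 : ∑ x ∈ Icc 1 n, ∑ y ∈ Icc (1 : ℤ) n, F ((x : ℤ) + y) * u x * v y * S x y =
      ∑ α ∈ range P, ∑ β ∈ range P, S α β * ∑ x ∈ Icc 1 n, ∑ y ∈ Icc 1 n, F ((x + y : ℕ) : ℤ) *
        (u x * (if x % P = α then 1 else 0)) * (v y * (if y % P = β then 1 else 0)) := by
    have e2 : ∑ x ∈ Icc 1 n, ∑ y ∈ Icc (1 : ℤ) n, F ((x : ℤ) + y) * u x * v y * S x y =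
        ∑ x ∈ Icc 1 n, ∑ y ∈ Icc 1 n, ∑ α ∈ range P, ∑ β ∈ range P, S α β * (F ((x + y : ℕ) : ℤ) *
        (u x * (if x % P = α then 1 else 0)) * (v y * (if y % P = β then 1 else 0))) := by
      refine sum_congr rfl fun x _ => ?_
      rw [sum_int_Icc]
      refine sum_congr rfl fun y _ => ?_
      rw [hSS x y, mul_sum]
      refine sum_congr rfl fun α _ => ?_
      rw [mul_sum]
      refine sum_congr rfl fun β _ => ?_
      push_cast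
      ring
    rw [e2]
    simp only [mul_sum]
    have c1 : ∀ f : ℕ → ℕ → ℕ → ℕ → ℝ, ∑ x ∈ Icc 1 n, ∑ y ∈ Icc 1 n, ∑ α ∈ range P, ∑ β ∈ range P, f x y α β =
        ∑ α ∈ range P, ∑ β ∈ range P, ∑ x ∈ Icc 1 n, ∑ y ∈ Icc 1 n, f x y α β := by
      intro f
      calc ∑ x ∈ Icc 1 n, ∑ y ∈ Icc 1 n, ∑ α ∈ range P, ∑ β ∈ range P, f x y α β
          = ∑ x ∈ Icc 1 n, ∑ α ∈ range P, ∑ y ∈ Icc 1 n, ∑ β ∈ range P, f x y α β := sum_congr rfl fun x _ => sum_comm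
        _ = ∑ x ∈ Icc 1 n, ∑ α ∈ range P, ∑ β ∈ range P, ∑ y ∈ Icc 1 n, f x y α β :=
            sum_congr rfl fun x _ => sum_congr rfl fun α _ => sum_comm
        _ = ∑ α ∈ range P, ∑ x ∈ Icc 1 n, ∑ β ∈ range P, ∑ y ∈ Icc 1 n, f x y α β := sum_comm
        _ = _ := sum_congr rfl fun α _ => sum_comm
    exact c1 _
  rw [e1]
  have hb : ∀ α β : ℕ, |∑ x ∈ Icc 1 n, ∑ y ∈ Icc 1 n, F ((x + y : ℕ) : ℤ) *
        (u x * (if x % P = α then 1 else 0)) * (v y * (if y % P = β then 1 else 0))| ≤ Mb * (n * Ma ^ 2) := by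
    intro α β
    have h1 := bil n hn (fun m => F (m : ℤ)) Mb hM (fun x => u x * (if x % P = α then 1 else 0))
      (fun y => v y * (if y % P = β then 1 else 0))
    refine h1.trans ?_
    apply mul_le_mul_of_nonneg_left _ hMb
    have h2 : ∀ (f : ℤ → ℝ) (γ : ℕ), (∀ x, |f x| ≤ Ma) → √(∑ x ∈ Icc 1 n, (f x * (if x % P = γ then (1 : ℝ) else 0)) ^ 2) ≤ √(n * Ma ^ 2) := by
      intro f γ hf
      apply Real.sqrt_le_sqrt
      calc ∑ x ∈ Icc 1 n, (f x * (if x % P = γ then (1 : ℝ) else 0)) ^ 2 ≤ ∑ x ∈ Icc 1 n, Ma ^ 2 := by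
            refine sum_le_sum fun x _ => ?_
            have := hf (x : ℤ)
            split_ifs
            · rw [mul_one, ← sq_abs]
              exact pow_le_pow_left₀ (abs_nonneg _) this 2
            · have h0 : (f x * 0) ^ 2 = 0 := by ring
              rw [h0]; exact sq_nonneg _
        _ = n * Ma ^ 2 := by
            rw [sum_const, Nat.card_Icc, nsmul_eq_mul]
            simp
    calc _ ≤ √(n * Ma ^ 2) * √(n * Ma ^ 2) := mul_le_mul (h2 u α hu) (h2 v β hv) (Real.sqrt_nonneg _) (Real.sqrt_nonneg _)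
      _ = n * Ma ^ 2 := Real.mul_self_sqrt (by positivity)
  calc |∑ α ∈ range P, ∑ β ∈ range P, S α β * ∑ x ∈ Icc 1 n, ∑ y ∈ Icc 1 n, F ((x + y : ℕ) : ℤ) *
        (u x * (if x % P = α then 1 else 0)) * (v y * (if y % P = β then 1 else 0))|
      ≤ ∑ α ∈ range P, ∑ β ∈ range P, Ms * (Mb * (n * Ma ^ 2)) := by
        refine (abs_sum_le_sum_abs _ _).trans (sum_le_sum fun α _ => ?_)
        refine (abs_sum_le_sum_abs _ _).trans (sum_le_sum fun β _ => ?_)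
        rw [abs_mul]
        exact mul_le_mul (hS _ _) (hb α β) (abs_nonneg _) hMs
    _ = _ := by
        rw [sum_const, sum_const, card_range]
        simp only [nsmul_eq_mul]
        ring

lemma S4_comm (n : ℕ) (G : ℤ → ℤ → ℤ → ℤ → ℝ) :
    S4 n G = ∑ x' ∈ Icc (1 : ℤ) n, ∑ y' ∈ Icc (1 : ℤ) n, ∑ x ∈ Icc (1 : ℤ) n, ∑ y ∈ Icc (1 : ℤ) n, G x x' y y' := by
  unfold S4
  calc ∑ x ∈ Icc (1 : ℤ) n, ∑ x' ∈ Icc (1 : ℤ) n, ∑ y ∈ Icc (1 : ℤ) n, ∑ y' ∈ Icc (1 : ℤ) n, G x x' y y'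
      = ∑ x' ∈ Icc (1 : ℤ) n, ∑ x ∈ Icc (1 : ℤ) n, ∑ y ∈ Icc (1 : ℤ) n, ∑ y' ∈ Icc (1 : ℤ) n, G x x' y y' := sum_comm
    _ = ∑ x' ∈ Icc (1 : ℤ) n, ∑ x ∈ Icc (1 : ℤ) n, ∑ y' ∈ Icc (1 : ℤ) n, ∑ y ∈ Icc (1 : ℤ) n, G x x' y y' :=
        sum_congr rfl fun _ _ => sum_congr rfl fun _ _ => sum_comm
    _ = _ := sum_congr rfl fun _ _ => sum_comm

lemma S4_swap1 (n : ℕ) (G : ℤ → ℤ → ℤ → ℤ → ℝ) : S4 n (fun x x' y y' => G x' x y y') = S4 n G := by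
  unfold S4
  exact sum_comm

lemma S4_swap2 (n : ℕ) (G : ℤ → ℤ → ℤ → ℤ → ℝ) : S4 n (fun x x' y y' => G x x' y' y) = S4 n G := by
  unfold S4
  exact sum_congr rfl fun _ _ => sum_congr rfl fun _ _ => sum_comm

/-- a bounded function, periodic in the four variables -/
structure PB (P : ℕ) (Ms : ℝ) (S : ℤ → ℤ → ℤ → ℤ → ℝ) : Prop where
  bd : ∀ x x' y y', |S x x' y y'| ≤ Ms
  per : ∀ x x' y y' x2 x2' y2 y2' : ℤ, (P : ℤ) ∣ x - x2 → (P : ℤ) ∣ x' - x2' → (P : ℤ) ∣ y - y2 → (P : ℤ) ∣ y' - y2' →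
    S x x' y y' = S x2 x2' y2 y2'

lemma S4_one (n P : ℕ) (hn : 1 ≤ n) (hP : 1 ≤ P) (F : ℤ → ℝ) (Mb : ℝ)
    (hM : ∀ α : ℝ, ‖∑ m ∈ Icc 1 (2 * n), ((F m : ℝ) : ℂ) * ee ((m : ℝ) * α)‖ ≤ Mb)
    (f1 f2 f3 : ℤ → ℝ) (Ma : ℝ) (h1 : ∀ x, |f1 x| ≤ Ma) (h2 : ∀ x, |f2 x| ≤ Ma) (h3 : ∀ x, |f3 x| ≤ Ma)
    (S : ℤ → ℤ → ℤ → ℤ → ℝ) (Ms : ℝ) (hS : PB P Ms S) :
    |S4 n (fun x x' y y' => F (x + y) * f1 (x' + y) * f2 (x + y') * f3 (x' + y') * S x x' y y')| ≤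
      P ^ 2 * Ms * Ma ^ 3 * Mb * n ^ 3 := by
  have hMa : 0 ≤ Ma := (abs_nonneg _).trans (h1 0)
  have hMb : 0 ≤ Mb := (norm_nonneg _).trans (hM 0)
  have hMs : 0 ≤ Ms := (abs_nonneg _).trans (hS.bd 0 0 0 0)
  rw [S4_comm]
  have hin : ∀ x' y' : ℤ, |∑ x ∈ Icc (1 : ℤ) n, ∑ y ∈ Icc (1 : ℤ) n,
      F (x + y) * f1 (x' + y) * f2 (x + y') * f3 (x' + y') * S x x' y y'| ≤ P ^ 2 * Ms * (Mb * (n * Ma ^ 2)) * Ma := by
    intro x' y'
    have e : ∑ x ∈ Icc (1 : ℤ) n, ∑ y ∈ Icc (1 : ℤ) n,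
        F (x + y) * f1 (x' + y) * f2 (x + y') * f3 (x' + y') * S x x' y y' =
        (∑ x ∈ Icc (1 : ℤ) n, ∑ y ∈ Icc (1 : ℤ) n, F (x + y) * f2 (x + y') * f1 (x' + y) * S x x' y y') * f3 (x' + y') := by
      rw [sum_mul]
      refine sum_congr rfl fun x _ => ?_
      rw [sum_mul]
      exact sum_congr rfl fun y _ => by ring
    rw [e, abs_mul]
    have h4 := bilS n P hn hP F Mb hM (fun x => f2 (x + y')) (fun y => f1 (x' + y)) Ma (fun x => h2 _) (fun y => h1 _)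
      (fun x y => S x x' y y') Ms (fun x y => hS.bd _ _ _ _)
      (fun x y x2 y2 hx hy => hS.per _ _ _ _ _ _ _ _ hx (by simp) hy (by simp))
    exact mul_le_mul h4 (h3 _) (abs_nonneg _) (by positivity)
  calc |∑ x' ∈ Icc (1 : ℤ) n, ∑ y' ∈ Icc (1 : ℤ) n, ∑ x ∈ Icc (1 : ℤ) n, ∑ y ∈ Icc (1 : ℤ) n,
      F (x + y) * f1 (x' + y) * f2 (x + y') * f3 (x' + y') * S x x' y y'|
      ≤ ∑ x' ∈ Icc (1 : ℤ) n, ∑ y' ∈ Icc (1 : ℤ) n, P ^ 2 * Ms * (Mb * (n * Ma ^ 2)) * Ma := by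
        refine (abs_sum_le_sum_abs _ _).trans (sum_le_sum fun x' _ => ?_)
        refine (abs_sum_le_sum_abs _ _).trans (sum_le_sum fun y' _ => ?_)
        exact hin x' y'
    _ = _ := by
        rw [sum_const, sum_const, Int.card_Icc]
        simp only [add_sub_cancel_right, Int.toNat_natCast, nsmul_eq_mul]
        ring

/-- the sums of a quadruple -/
def sg (x x' y y' : ℤ) : Fin 4 → ℤ := ![x + y, x' + y, x + y', x' + y']

/-- the differences of a quadruple -/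
def df (x x' y y' : ℤ) : Fin 4 → ℤ := ![y - x, y - x', y' - x, y' - x']

theorem S4_rep (n P : ℕ) (hn : 1 ≤ n) (hP : 1 ≤ P) (a b : Fin 4 → ℤ → ℝ) (Mb Ma : ℝ)
    (hM : ∀ i, ∀ α : ℝ, ‖∑ m ∈ Icc 1 (2 * n), ((a i m - b i m : ℝ) : ℂ) * ee ((m : ℝ) * α)‖ ≤ Mb)
    (ha : ∀ i x, |a i x| ≤ Ma) (hb : ∀ i x, |b i x| ≤ Ma) (S : ℤ → ℤ → ℤ → ℤ → ℝ) (Ms : ℝ) (hS : PB P Ms S) :
    |S4 n (fun x x' y y' => (∏ i, a i (sg x x' y y' i)) * S x x' y y') -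
      S4 n (fun x x' y y' => (∏ i, b i (sg x x' y y' i)) * S x x' y y')| ≤ 4 * (P ^ 2 * Ms * Ma ^ 3 * Mb * n ^ 3) := by
  have t0 := S4_one n P hn hP (fun m => a 0 m - b 0 m) Mb (hM 0) (a 1) (a 2) (a 3) Ma (ha 1) (ha 2) (ha 3) S Ms hS
  have t1 := S4_one n P hn hP (fun m => a 1 m - b 1 m) Mb (hM 1) (b 0) (a 3) (a 2) Ma (hb 0) (ha 3) (ha 2)
    (fun x x' y y' => S x' x y y') Ms ⟨fun _ _ _ _ => hS.bd _ _ _ _, fun _ _ _ _ _ _ _ _ h1 h2 h3 h4 => hS.per _ _ _ _ _ _ _ _ h2 h1 h3 h4⟩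
  have t2 := S4_one n P hn hP (fun m => a 2 m - b 2 m) Mb (hM 2) (a 3) (b 0) (b 1) Ma (ha 3) (hb 0) (hb 1)
    (fun x x' y y' => S x x' y' y) Ms ⟨fun _ _ _ _ => hS.bd _ _ _ _, fun _ _ _ _ _ _ _ _ h1 h2 h3 h4 => hS.per _ _ _ _ _ _ _ _ h1 h2 h4 h3⟩
  have t3 := S4_one n P hn hP (fun m => a 3 m - b 3 m) Mb (hM 3) (b 2) (b 1) (b 0) Ma (hb 2) (hb 1) (hb 0)
    (fun x x' y y' => S x' x y' y) Ms ⟨fun _ _ _ _ => hS.bd _ _ _ _, fun _ _ _ _ _ _ _ _ h1 h2 h3 h4 => hS.per _ _ _ _ _ _ _ _ h2 h1 h4 h3⟩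
  have e1 := S4_swap1 n (fun x x' y y' => b 0 (x + y) * (a 1 (x' + y) - b 1 (x' + y)) * a 2 (x + y') * a 3 (x' + y') * S x x' y y')
  have e2 := S4_swap2 n (fun x x' y y' => b 0 (x + y) * b 1 (x' + y) * (a 2 (x + y') - b 2 (x + y')) * a 3 (x' + y') * S x x' y y')
  have e3 := S4_swap1 n (fun x x' y y' => b 0 (x + y) * b 1 (x' + y) * b 2 (x + y') * (a 3 (x' + y') - b 3 (x' + y')) * S x x' y y')
  have e4 := S4_swap2 n (fun x x' y y' => b 0 (x' + y) * b 1 (x + y) * b 2 (x' + y') * (a 3 (x + y') - b 3 (x + y')) * S x' x y y')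
  have f1 : S4 n (fun x x' y y' => (a 1 (x + y) - b 1 (x + y)) * b 0 (x' + y) * a 3 (x + y') * a 2 (x' + y') * S x' x y y') =
      S4 n (fun x x' y y' => b 0 (x + y) * (a 1 (x' + y) - b 1 (x' + y)) * a 2 (x + y') * a 3 (x' + y') * S x x' y y') := by
    rw [← e1]; congr 1; ext x x' y y'; ring
  have f2 : S4 n (fun x x' y y' => (a 2 (x + y) - b 2 (x + y)) * a 3 (x' + y) * b 0 (x + y') * b 1 (x' + y') * S x x' y' y) =
      S4 n (fun x x' y y' => b 0 (x + y) * b 1 (x' + y) * (a 2 (x + y') - b 2 (x + y')) * a 3 (x' + y') * S x x' y y') := by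
    rw [← e2]; congr 1; ext x x' y y'; ring
  have f3 : S4 n (fun x x' y y' => (a 3 (x + y) - b 3 (x + y)) * b 2 (x' + y) * b 1 (x + y') * b 0 (x' + y') * S x' x y' y) =
      S4 n (fun x x' y y' => b 0 (x + y) * b 1 (x' + y) * b 2 (x + y') * (a 3 (x' + y') - b 3 (x' + y')) * S x x' y y') := by
    rw [← e3, ← e4]; congr 1; ext x x' y y'; ring
  rw [f1] at t1
  rw [f2] at t2
  rw [f3] at t3
  have key : S4 n (fun x x' y y' => (∏ i, a i (sg x x' y y' i)) * S x x' y y') -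
      S4 n (fun x x' y y' => (∏ i, b i (sg x x' y y' i)) * S x x' y y') =
      S4 n (fun x x' y y' => (a 0 (x + y) - b 0 (x + y)) * a 1 (x' + y) * a 2 (x + y') * a 3 (x' + y') * S x x' y y') +
      S4 n (fun x x' y y' => b 0 (x + y) * (a 1 (x' + y) - b 1 (x' + y)) * a 2 (x + y') * a 3 (x' + y') * S x x' y y') +
      S4 n (fun x x' y y' => b 0 (x + y) * b 1 (x' + y) * (a 2 (x + y') - b 2 (x + y')) * a 3 (x' + y') * S x x' y y') +
      S4 n (fun x x' y y' => b 0 (x + y) * b 1 (x' + y) * b 2 (x + y') * (a 3 (x' + y') - b 3 (x' + y')) * S x x' y y') := by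
    rw [← S4_sub]
    unfold S4
    simp only [← sum_add_distrib]
    refine sum_congr rfl fun x _ => sum_congr rfl fun x' _ => sum_congr rfl fun y _ => sum_congr rfl fun y' _ => ?_
    simp only [Fin.prod_univ_four, sg, Matrix.cons_val_zero, Matrix.cons_val_one, Matrix.cons_val]
    ring
  rw [key]
  refine (abs_add_le _ _).trans ?_
  have g1 := abs_add_le (S4 n (fun x x' y y' => (a 0 (x + y) - b 0 (x + y)) * a 1 (x' + y) * a 2 (x + y') * a 3 (x' + y') * S x x' y y') +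
      S4 n (fun x x' y y' => b 0 (x + y) * (a 1 (x' + y) - b 1 (x' + y)) * a 2 (x + y') * a 3 (x' + y') * S x x' y y'))
      (S4 n (fun x x' y y' => b 0 (x + y) * b 1 (x' + y) * (a 2 (x + y') - b 2 (x + y')) * a 3 (x' + y') * S x x' y y'))
  have g2 := abs_add_le (S4 n (fun x x' y y' => (a 0 (x + y) - b 0 (x + y)) * a 1 (x' + y) * a 2 (x + y') * a 3 (x' + y') * S x x' y y'))
      (S4 n (fun x x' y y' => b 0 (x + y) * (a 1 (x' + y) - b 1 (x' + y)) * a 2 (x + y') * a 3 (x' + y') * S x x' y y'))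
  linarith

end Pool.Agent.W2helper88.GR
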