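import Pool.Agent.H373R2.T7.Fund
import Pool.Agent.R521.GG.Mert

set_option autoImplicit false

/-!
# Project GR (helper88): the Goldbach graph with one prime and one almost prime. Local factors

The sieve with four linear forms `u r + c i` with levels `z i`.
-/

namespace Pool.Agent.W2helper88.GR

open Finset
open Pool.Agent.H373R2.T7 (pz Vz lamz mem_pz nuB PerB nuB_le sys_fund Vz_pos)

/-- sieve condition: some form `u r + c i` whose level is at least `p` is divisible by `p` -/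
def Qf (u : ℤ) (c : Fin 4 → ℤ) (z : Fin 4 → ℕ) (p r : ℕ) : Prop :=
  ∃ i, p ≤ z i ∧ (p : ℤ) ∣ u * r + c i

/-- the forms active at `p` -/
def act (z : Fin 4 → ℕ) (p : ℕ) : Finset (Fin 4) := univ.filter (fun i => p ≤ z i)

lemma mem_act {z : Fin 4 → ℕ} {p : ℕ} {i : Fin 4} : i ∈ act z p ↔ p ≤ z i := by
  unfold act
  simp

lemma card_act_le (z : Fin 4 → ℕ) (p : ℕ) : (act z p).card ≤ 4 := by
  have := card_le_univ (act z p)
  simpa using this

lemma Qf_per (u : ℤ) (c : Fin 4 → ℤ) (z : Fin 4 → ℕ) (p n : ℕ) : Qf u c z p n ↔ Qf u c z p (n % p) := by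
  unfold Qf
  have h : ∀ t : ℤ, (p : ℤ) ∣ u * n + t ↔ (p : ℤ) ∣ u * ((n % p : ℕ) : ℤ) + t := by
    intro t
    have h2 : ((n % p : ℕ) : ℤ) + (p : ℤ) * ((n / p : ℕ) : ℤ) = n := by exact_mod_cast Nat.mod_add_div n p
    have h1 : u * (n : ℤ) + t = (u * ((n % p : ℕ) : ℤ) + t) + (p : ℤ) * (u * ((n / p : ℕ) : ℤ)) := by
      linear_combination (-u) * h2
    rw [h1]
    exact dvd_add_left (dvd_mul_right _ _)
  simp only [h]

lemma nuB_Qf (u : ℤ) (c : Fin 4 → ℤ) (z : Fin 4 → ℕ) (p : ℕ) [hpf : Fact p.Prime] (hu : ¬ (p : ℤ) ∣ u) :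
    nuB (Qf u c z) p = ((act z p).image (fun i => -(c i : ZMod p) / (u : ZMod p))).card := by
  classical
  have hu0 : (u : ZMod p) ≠ 0 := by
    rwa [Ne, ZMod.intCast_zmod_eq_zero_iff_dvd]
  have e0 : nuB (Qf u c z) p = ((range p).filter (fun r => Qf u c z p r)).card := by
    unfold nuB
    congr
  have hinj : Set.InjOn (fun r : ℕ => (r : ZMod p)) ((range p).filter (fun r => Qf u c z p r) : Finset ℕ) := by
    intro r hr s hs h
    rw [mem_coe, mem_filter, mem_range] at hr hs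
    have h' : (r : ZMod p) = (s : ZMod p) := h
    rw [ZMod.natCast_eq_natCast_iff] at h'
    exact Nat.ModEq.eq_of_lt_of_lt h' hr.1 hs.1
  rw [e0, ← card_image_of_injOn hinj]
  congr 1
  ext t
  rw [mem_image, mem_image]
  constructor
  · rintro ⟨r, hr, rfl⟩
    rw [mem_filter, mem_range] at hr
    obtain ⟨hr, i, hi, hd⟩ := hr
    refine ⟨i, mem_act.2 hi, ?_⟩
    rw [← ZMod.intCast_zmod_eq_zero_iff_dvd] at hd
    push_cast at hd
    rw [div_eq_iff hu0]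
    linear_combination -hd
  · rintro ⟨i, hi, rfl⟩
    rw [mem_act] at hi
    refine ⟨(-(c i : ZMod p) / (u : ZMod p)).val, ?_, ?_⟩
    · rw [mem_filter, mem_range]
      refine ⟨ZMod.val_lt _, i, hi, ?_⟩
      rw [← ZMod.intCast_zmod_eq_zero_iff_dvd]
      push_cast
      rw [ZMod.natCast_zmod_val, mul_div_cancel₀ _ hu0]
      ring
    · show (((-(c i : ZMod p) / (u : ZMod p)).val : ℕ) : ZMod p) = _
      rw [ZMod.natCast_zmod_val]

lemma nu_le (u : ℤ) (c : Fin 4 → ℤ) (z : Fin 4 → ℕ) (p : ℕ) (hp : p.Prime) (hu : ¬ (p : ℤ) ∣ u) :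
    nuB (Qf u c z) p ≤ (act z p).card := by
  have hpf : Fact p.Prime := ⟨hp⟩
  rw [nuB_Qf u c z p hu]
  exact card_image_le

lemma nu_pos (u : ℤ) (c : Fin 4 → ℤ) (z : Fin 4 → ℕ) (p : ℕ) (hp : p.Prime) (hu : ¬ (p : ℤ) ∣ u)
    (ha : (act z p).Nonempty) : 1 ≤ nuB (Qf u c z) p := by
  have hpf : Fact p.Prime := ⟨hp⟩
  rw [nuB_Qf u c z p hu]
  exact card_pos.2 (ha.image _)

lemma nu_eq (u : ℤ) (c : Fin 4 → ℤ) (z : Fin 4 → ℕ) (p : ℕ) (hp : p.Prime) (hu : ¬ (p : ℤ) ∣ u)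
    (hd : ∀ i j, i ≠ j → ¬ (p : ℤ) ∣ c i - c j) : nuB (Qf u c z) p = (act z p).card := by
  classical
  have hpf : Fact p.Prime := ⟨hp⟩
  have hu0 : (u : ZMod p) ≠ 0 := by
    rwa [Ne, ZMod.intCast_zmod_eq_zero_iff_dvd]
  rw [nuB_Qf u c z p hu]
  apply card_image_of_injOn
  intro i _ j _ h
  by_contra hne
  apply hd i j hne
  rw [← ZMod.intCast_zmod_eq_zero_iff_dvd]
  simp only at h
  rw [div_left_inj' hu0] at h
  push_cast
  linear_combination -h

lemma Qf_perB (u : ℤ) (hu : u = 1 ∨ u = 2) (c : Fin 4 → ℤ) (z : Fin 4 → ℕ) : PerB (Qf u c z) 4 := by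
  refine ⟨Qf_per u c z, ?_⟩
  intro p hp
  by_cases h : (p : ℤ) ∣ u
  · have hp2 : p ≤ 2 := by
      have h2 : (p : ℤ) ≤ 2 := by
        rcases hu with rfl | rfl
        · have := Int.le_of_dvd (by norm_num) h; omega
        · exact Int.le_of_dvd (by norm_num) h
      exact_mod_cast h2
    exact (nuB_le _ p).trans (by omega)
  · exact (nu_le u c z p hp h).trans (card_act_le z p)

lemma not_dvd_u {u : ℤ} (hu : u = 1 ∨ u = 2) {p : ℕ} (hp : 3 ≤ p) : ¬ (p : ℤ) ∣ u := by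
  intro h
  rcases hu with rfl | rfl
  · have := Int.le_of_dvd (by norm_num) h; omega
  · have := Int.le_of_dvd (by norm_num) h; omega

/-- the local factor -/
noncomputable def fl (u : ℤ) (c : Fin 4 → ℤ) (z : Fin 4 → ℕ) (p : ℕ) : ℝ :=
  (1 - (nuB (Qf u c z) p : ℝ) / p) / (1 - 1 / (p : ℝ)) ^ (act z p).card

lemma one_sub_pos {p : ℕ} (hp : p.Prime) : 0 < 1 - 1 / (p : ℝ) := by
  have : (2 : ℝ) ≤ p := by exact_mod_cast hp.two_le
  rw [sub_pos, div_lt_one (by linarith)]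
  linarith

lemma fl_nonneg (u : ℤ) (c : Fin 4 → ℤ) (z : Fin 4 → ℕ) {p : ℕ} (hp : p.Prime) : 0 ≤ fl u c z p := by
  unfold fl
  apply div_nonneg
  · have hp0 : (0 : ℝ) < p := by exact_mod_cast hp.pos
    rw [sub_nonneg, div_le_one hp0]
    exact_mod_cast nuB_le _ p
  · exact pow_nonneg (one_sub_pos hp).le _

/-- `(1 - 1/p)⁻¹ ≤ (1 + 1/√p)²` -/
lemma inv_le_sq {p : ℕ} (hp : p.Prime) : (1 - 1 / (p : ℝ))⁻¹ ≤ (1 + 1 / √(p : ℝ)) ^ 2 := by
  have h2 : (2 : ℝ) ≤ p := by exact_mod_cast hp.two_le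
  have h1 := one_sub_pos hp
  rw [inv_le_comm₀ h1 (by positivity), ← one_div, div_le_iff₀ (by positivity)]
  have hs : 1 / (p : ℝ) ≤ 1 / √(p : ℝ) := by
    apply one_div_le_one_div_of_le (by positivity)
    rw [Real.sqrt_le_left (by positivity)]
    nlinarith
  have h3 : 0 < 1 / (p : ℝ) := by positivity
  have h4 : 1 / (p : ℝ) ≤ 1 / 2 := one_div_le_one_div_of_le (by norm_num) h2
  have h5 : (1 + 1 / (p : ℝ)) ^ 2 ≤ (1 + 1 / √(p : ℝ)) ^ 2 := by
    apply pow_le_pow_left₀ (by positivity)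
    linarith
  have h6 : 1 ≤ (1 - 1 / (p : ℝ)) * (1 + 1 / (p : ℝ)) ^ 2 := by
    generalize 1 / (p : ℝ) = q at h3 h4
    nlinarith [mul_pos h3 h3]
  exact h6.trans (mul_le_mul_of_nonneg_left h5 h1.le)

lemma inv_le_sq' {p : ℕ} (hp : p.Prime) : (1 - 1 / (p : ℝ))⁻¹ ≤ (1 + 1 / (p : ℝ)) ^ 2 := by
  have h2 : (2 : ℝ) ≤ p := by exact_mod_cast hp.two_le
  have h1 := one_sub_pos hp
  rw [inv_le_comm₀ h1 (by positivity), ← one_div, div_le_iff₀ (by positivity)]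
  have h3 : 0 < 1 / (p : ℝ) := by positivity
  have h4 : 1 / (p : ℝ) ≤ 1 / 2 := one_div_le_one_div_of_le (by norm_num) h2
  generalize 1 / (p : ℝ) = q at h3 h4
  nlinarith [mul_pos h3 h3]

lemma nuB_empty (u : ℤ) (c : Fin 4 → ℤ) (z : Fin 4 → ℕ) (p : ℕ) (ha : act z p = ∅) : nuB (Qf u c z) p = 0 := by
  classical
  unfold nuB
  rw [card_eq_zero, filter_eq_empty_iff]
  rintro r _ ⟨i, hi, _⟩
  have : i ∈ act z p := mem_act.2 hi
  rw [ha] at this
  exact absurd this (notMem_empty i)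

lemma fl_le_cube (u : ℤ) (c : Fin 4 → ℤ) (z : Fin 4 → ℕ) {p : ℕ} (hp : p.Prime) (hu : ¬ (p : ℤ) ∣ u) :
    fl u c z p ≤ ((1 - 1 / (p : ℝ))⁻¹) ^ 3 := by
  have h1 := one_sub_pos hp
  have hp0 : (0 : ℝ) < p := by exact_mod_cast hp.pos
  have hle1 : 1 - 1 / (p : ℝ) ≤ 1 := by
    have : 0 < 1 / (p : ℝ) := by positivity
    linarith
  have hinv : 1 ≤ (1 - 1 / (p : ℝ))⁻¹ := (one_le_inv₀ h1).2 hle1
  rcases (act z p).eq_empty_or_nonempty with ha | ha
  · unfold fl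
    rw [nuB_empty u c z p ha, ha]
    simp only [Nat.cast_zero, zero_div, sub_zero, card_empty, pow_zero, div_one]
    exact one_le_pow₀ hinv
  · have hn := nu_pos u c z p hp hu ha
    unfold fl
    rw [div_le_iff₀ (by positivity)]
    have hc := card_act_le z p
    have hc1 : 1 ≤ (act z p).card := card_pos.2 ha
    have e : ((1 - 1 / (p : ℝ))⁻¹) ^ 3 * (1 - 1 / (p : ℝ)) ^ (act z p).card =
        (1 - 1 / (p : ℝ)) * ((1 - 1 / (p : ℝ))⁻¹) ^ (4 - (act z p).card) := by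
      generalize (act z p).card = j at hc hc1
      have ha : (1 - 1 / (p : ℝ))⁻¹ * (1 - 1 / (p : ℝ)) = 1 := inv_mul_cancel₀ h1.ne'
      generalize (1 - 1 / (p : ℝ))⁻¹ = b at ha
      generalize 1 - 1 / (p : ℝ) = a at ha
      interval_cases j
      · calc b ^ 3 * a ^ 1 = b ^ 2 * (b * a) := by ring
          _ = (b * a) * b ^ 2 := by ring
          _ = a * b ^ 3 := by ring
          _ = a * b ^ (4 - 1) := by norm_num
      · calc b ^ 3 * a ^ 2 = a * b ^ 2 * (b * a) := by ring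
          _ = a * b ^ (4 - 2) := by rw [ha, mul_one]
      · calc b ^ 3 * a ^ 3 = a * b * (b * a) ^ 2 := by ring
          _ = a * b ^ (4 - 3) := by rw [ha]; norm_num
      · calc b ^ 3 * a ^ 4 = a * (b * a) ^ 3 := by ring
          _ = a * b ^ (4 - 4) := by rw [ha]; norm_num
    rw [e]
    have h2 : 1 - (nuB (Qf u c z) p : ℝ) / p ≤ 1 - 1 / (p : ℝ) := by
      have : (1 : ℝ) / p ≤ (nuB (Qf u c z) p : ℝ) / p := by
        apply div_le_div_of_nonneg_right _ hp0.le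
        exact_mod_cast hn
      linarith
    refine h2.trans (le_mul_of_one_le_right h1.le (one_le_pow₀ hinv))

lemma fl_le_one (u : ℤ) (c : Fin 4 → ℤ) (z : Fin 4 → ℕ) {p : ℕ} (hp : p.Prime) (hu : ¬ (p : ℤ) ∣ u)
    (hd : ∀ i j, i ≠ j → ¬ (p : ℤ) ∣ c i - c j) : fl u c z p ≤ 1 := by
  have h1 := one_sub_pos hp
  unfold fl
  rw [nu_eq u c z p hp hu hd, div_le_one (by positivity)]
  have hp0 : (0 : ℝ) < p := by exact_mod_cast hp.pos
  have h2 : (2 : ℝ) ≤ p := by exact_mod_cast hp.two_le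
  have h3 : 1 / (p : ℝ) ≤ 1 / 2 := one_div_le_one_div_of_le (by norm_num) h2
  have := one_add_mul_le_pow (a := -(1 / (p : ℝ))) (by linarith) (act z p).card
  calc 1 - ((act z p).card : ℝ) / p = 1 + ((act z p).card : ℝ) * (-(1 / (p : ℝ))) := by ring
    _ ≤ (1 + -(1 / (p : ℝ))) ^ (act z p).card := this
    _ = _ := by rw [← sub_eq_add_neg]

lemma fl_ge (u : ℤ) (c : Fin 4 → ℤ) (z : Fin 4 → ℕ) {p : ℕ} (hp : p.Prime) (hp5 : 5 ≤ p) (hu : ¬ (p : ℤ) ∣ u) :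
    1 - 16 / (p : ℝ) ^ 2 ≤ fl u c z p := by
  have h1 := one_sub_pos hp
  have hp0 : (0 : ℝ) < p := by exact_mod_cast hp.pos
  have h5 : (5 : ℝ) ≤ p := by exact_mod_cast hp5
  have hn := nu_le u c z p hp hu
  have hc := card_act_le z p
  unfold fl
  rw [le_div_iff₀ (by positivity)]
  have h2 : 1 - ((act z p).card : ℝ) / p ≤ 1 - (nuB (Qf u c z) p : ℝ) / p := by
    have : (nuB (Qf u c z) p : ℝ) / p ≤ ((act z p).card : ℝ) / p := by
      apply div_le_div_of_nonneg_right _ hp0.le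
      exact_mod_cast hn
    linarith
  refine le_trans ?_ h2
  have e1 : (16 : ℝ) / (p : ℝ) ^ 2 = 16 * (1 / (p : ℝ)) ^ 2 := by
    rw [one_div, inv_pow]; ring
  have e2 : ((act z p).card : ℝ) / p = ((act z p).card : ℝ) * (1 / (p : ℝ)) := by ring
  rw [e1, e2]
  have h3 : 0 < 1 / (p : ℝ) := by positivity
  have h4 : 1 / (p : ℝ) ≤ 1 / 5 := one_div_le_one_div_of_le (by norm_num) h5
  generalize (act z p).card = j at hc
  generalize 1 / (p : ℝ) = q at h3 h4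
  have q2 : 0 ≤ q ^ 2 := by positivity
  have q3 : 0 ≤ q ^ 3 := by positivity
  interval_cases j
  · simp only [pow_zero, mul_one, Nat.cast_zero, zero_mul, sub_zero]; linarith
  · push_cast; nlinarith [mul_nonneg q2 h3.le]
  · push_cast; nlinarith [mul_nonneg q2 h3.le, mul_nonneg q3 h3.le]
  · push_cast
    have : (1 - 16 * q ^ 2) * (1 - q) ^ 3 = 1 - 3 * q - 13 * q ^ 2 + 47 * q ^ 3 - 48 * q ^ 4 + 16 * q ^ 5 := by ring
    nlinarith [mul_nonneg q2 h3.le, mul_nonneg q3 h3.le, mul_nonneg (mul_nonneg q3 h3.le) h3.le]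
  · push_cast
    have : (1 - 16 * q ^ 2) * (1 - q) ^ 4 = 1 - 4 * q - 10 * q ^ 2 + 60 * q ^ 3 - 95 * q ^ 4 + 64 * q ^ 5 - 16 * q ^ 6 := by ring
    rw [this]
    have a1 : 0 ≤ q ^ 2 * (1 / 5 - q) := by apply mul_nonneg q2; linarith
    have a2 : 0 ≤ q ^ 4 := by positivity
    have a3 : 0 ≤ q ^ 6 := by positivity
    have a4 : 0 ≤ q ^ 4 * (1 / 5 - q) := by apply mul_nonneg a2; linarith
    nlinarith

end Pool.Agent.W2helper88.GR
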