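import Pool.Agent.R521.GG.Mom

set_option autoImplicit false

/-!
# Project GR (helper88): moments of `∏_{p ∣ m} (1 + 1/√p)`
-/

namespace Pool.Agent.W2helper88.GR

open Finset
open Pool.Agent.H373R2.T7 (pz mem_pz prod_dvd_iff)
open Pool.Agent.R521.GG.MomP (pow_bound card_dvd)

/-- `∏_{p ∣ m} (1 + 1/√p)` -/
noncomputable def gh (m : ℕ) : ℝ := ∏ p ∈ m.primeFactors, (1 + 1 / √(p : ℝ))

lemma one_le_prodR (s : Finset ℕ) (f : ℕ → ℝ) (h : ∀ p, 1 ≤ f p) : 1 ≤ ∏ p ∈ s, f p := by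
  classical
  induction s using Finset.induction_on with
  | empty => simp
  | insert a s ha ih =>
    rw [prod_insert ha]
    have := h a
    nlinarith

lemma one_le_fac (p : ℕ) : (1 : ℝ) ≤ 1 + 1 / √(p : ℝ) := by
  have : (0 : ℝ) ≤ 1 / √(p : ℝ) := by positivity
  linarith

lemma one_le_gh (m : ℕ) : 1 ≤ gh m := one_le_prodR _ _ one_le_fac

lemma gh_pos (m : ℕ) : 0 < gh m := lt_of_lt_of_le one_pos (one_le_gh m)

/-- `(1+1/√p)^k - 1` -/
noncomputable def hs (k p : ℕ) : ℝ := (1 + 1 / √(p : ℝ)) ^ k - 1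

lemma hs_nonneg (k p : ℕ) : 0 ≤ hs k p := by
  unfold hs
  have h0 : (0 : ℝ) ≤ 1 / √(p : ℝ) := by positivity
  have : (1 : ℝ) ≤ (1 + 1 / √(p : ℝ)) ^ k := one_le_pow₀ (by linarith)
  linarith

lemma hs_le (k p : ℕ) (hp : 1 ≤ p) : hs k p ≤ 2 ^ k / √(p : ℝ) := by
  unfold hs
  have hp' : (1 : ℝ) ≤ √(p : ℝ) := by
    rw [Real.one_le_sqrt]
    exact_mod_cast hp
  have h1 := pow_bound k (1 / √(p : ℝ)) (by positivity) (by rw [div_le_one (by linarith)]; exact hp')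
  have h2 : (0 : ℝ) ≤ 1 / √(p : ℝ) := by positivity
  have h3 : (2 : ℝ) ^ k / √(p : ℝ) = 2 ^ k * (1 / √(p : ℝ)) := by ring
  rw [h3]
  nlinarith

lemma gh_pow (k n m : ℕ) (hm : m ∈ Icc 1 n) :
    gh m ^ k = ∏ p ∈ pz n, (1 + if p ∣ m then hs k p else 0) := by
  rw [mem_Icc] at hm
  have e : m.primeFactors = (pz n).filter (fun p => p ∣ m) := by
    ext p
    rw [Nat.mem_primeFactors, mem_filter, mem_pz]
    constructor
    · rintro ⟨h1, h2, h3⟩
      exact ⟨⟨(Nat.le_of_dvd (by omega) h2).trans hm.2, h1⟩, h2⟩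
    · rintro ⟨⟨_, h1⟩, h2⟩
      exact ⟨h1, h2, by omega⟩
  unfold gh
  rw [← Finset.prod_pow, e, Finset.prod_filter]
  apply Finset.prod_congr rfl
  intro p _
  split_ifs
  · unfold hs; ring
  · simp

lemma sum_inv_rt (n : ℕ) (hn : 1 ≤ n) : ∑ j ∈ Icc 1 n, 1 / ((j : ℝ) * √(j : ℝ)) ≤ 3 - 2 / √(n : ℝ) := by
  induction n, hn using Nat.le_induction with
  | base => norm_num
  | succ n hn ih =>
    rw [Finset.sum_Icc_succ_top (by omega)]
    have hn' : (1 : ℝ) ≤ n := by exact_mod_cast hn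
    have hc : ((n + 1 : ℕ) : ℝ) = (n : ℝ) + 1 := by push_cast; ring
    rw [hc]
    obtain ⟨a, ha⟩ : ∃ a, a = √(n : ℝ) := ⟨_, rfl⟩
    obtain ⟨b, hb⟩ : ∃ b, b = √((n : ℝ) + 1) := ⟨_, rfl⟩
    have ha0 : 0 < a := by rw [ha]; positivity
    have hb0 : 0 < b := by rw [hb]; positivity
    have ha2 : a ^ 2 = n := by rw [ha]; exact Real.sq_sqrt (by linarith)
    have hb2 : b ^ 2 = (n : ℝ) + 1 := by rw [hb]; exact Real.sq_sqrt (by linarith)
    have hab : a ≤ b := by rw [ha, hb]; exact Real.sqrt_le_sqrt (by linarith)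
    rw [← ha] at ih
    rw [← hb, ← hb2]
    -- 1 / b^3 ≤ 2 / a - 2 / b
    have h1 : 1 / (b ^ 2 * b) ≤ 2 / a - 2 / b := by
      rw [div_sub_div _ _ ha0.ne' hb0.ne', div_le_div_iff₀ (by positivity) (by positivity)]
      have h2 : (b - a) * (b + a) = 1 := by nlinarith
      have h3 : 1 ≤ 2 * b * (b - a) := by nlinarith
      nlinarith [mul_le_mul_of_nonneg_left h3 (by positivity : 0 ≤ a * b)]
    linarith

lemma sum_pz_rt (n : ℕ) : ∑ p ∈ pz n, 1 / ((p : ℝ) * √(p : ℝ)) ≤ 3 := by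
  rcases Nat.eq_zero_or_pos n with h | h
  · subst h
    have : pz 0 = ∅ := by unfold pz; simp
    rw [this]; simp
  · have h1 : ∑ p ∈ pz n, 1 / ((p : ℝ) * √(p : ℝ)) ≤ ∑ j ∈ Icc 1 n, 1 / ((j : ℝ) * √(j : ℝ)) := by
      apply Finset.sum_le_sum_of_subset_of_nonneg
      · unfold pz; exact filter_subset _ _
      · intro i _ _; positivity
    have h2 := sum_inv_rt n h
    have h3 : (0 : ℝ) ≤ 2 / √(n : ℝ) := by positivity
    linarith

theorem gh_mom (k : ℕ) : ∃ C : ℝ, 0 < C ∧ ∀ n : ℕ, ∑ m ∈ Icc 1 n, gh m ^ k ≤ C * n := by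
  refine ⟨Real.exp (2 ^ k * 3), Real.exp_pos _, ?_⟩
  intro n
  have h1 : ∑ m ∈ Icc 1 n, gh m ^ k =
      ∑ S ∈ (pz n).powerset, ∑ m ∈ Icc 1 n, ∏ p ∈ S, (if p ∣ m then hs k p else 0) := by
    rw [Finset.sum_comm]
    apply Finset.sum_congr rfl
    intro m hm
    rw [gh_pow k n m hm, Finset.prod_one_add]
  rw [h1]
  have h2 : ∀ S ∈ (pz n).powerset, ∑ m ∈ Icc 1 n, ∏ p ∈ S, (if p ∣ m then hs k p else 0) ≤
      n * ∏ p ∈ S, (hs k p / p) := by
    intro S hS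
    rw [mem_powerset] at hS
    have hp : ∀ p ∈ S, p.Prime := fun p hp => (mem_pz.1 (hS hp)).2
    have h3 : ∀ m ∈ Icc 1 n, ∏ p ∈ S, (if p ∣ m then hs k p else 0) =
        if ∏ p ∈ S, p ∣ m then ∏ p ∈ S, hs k p else 0 := by
      intro m _
      rw [Finset.prod_ite_zero]
      simp only [prod_dvd_iff S hp m]
    rw [Finset.sum_congr rfl h3, ← Finset.sum_filter, Finset.sum_const, nsmul_eq_mul]
    have h4 := card_dvd n (∏ p ∈ S, p)
    have h5 : 0 ≤ ∏ p ∈ S, hs k p := Finset.prod_nonneg (fun p _ => hs_nonneg k p)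
    refine (mul_le_mul_of_nonneg_right h4 h5).trans (le_of_eq ?_)
    rw [Finset.prod_div_distrib, Nat.cast_prod]
    ring
  refine (Finset.sum_le_sum h2).trans ?_
  rw [← Finset.mul_sum, ← Finset.prod_one_add, mul_comm]
  apply mul_le_mul_of_nonneg_right _ (Nat.cast_nonneg n)
  calc ∏ p ∈ pz n, (1 + hs k p / p) ≤ ∏ p ∈ pz n, Real.exp (2 ^ k * (1 / ((p : ℝ) * √(p : ℝ)))) := by
        apply Finset.prod_le_prod
        · intro p _
          have := hs_nonneg k p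
          positivity
        · intro p hp
          have hp1 := (mem_pz.1 hp).2.one_le
          have hp' : (0 : ℝ) < p := by exact_mod_cast hp1
          have hps : (0 : ℝ) < √(p : ℝ) := Real.sqrt_pos.2 hp'
          have h6 := hs_le k p hp1
          have h7 : hs k p / p ≤ 2 ^ k * (1 / ((p : ℝ) * √(p : ℝ))) := by
            rw [div_le_iff₀ hp']
            refine h6.trans (le_of_eq ?_)
            field_simp
          have h8 := Real.add_one_le_exp (2 ^ k * (1 / ((p : ℝ) * √(p : ℝ))))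
          linarith
    _ = Real.exp (2 ^ k * ∑ p ∈ pz n, 1 / ((p : ℝ) * √(p : ℝ))) := by
        rw [← Real.exp_sum, Finset.mul_sum]
    _ ≤ Real.exp (2 ^ k * 3) := by
        apply Real.exp_le_exp.2
        have := sum_pz_rt n
        gcongr

/-! ### sums over pairs -/

/-- sums over symmetric intervals -/
lemma gh_int (k : ℕ) : ∃ C : ℝ, 0 < C ∧ ∀ n : ℕ, 1 ≤ n →
    ∑ v ∈ Icc (-(n : ℤ)) n, gh v.natAbs ^ k ≤ C * n := by
  obtain ⟨C, hC, h⟩ := gh_mom k
  refine ⟨2 * C + 1, by positivity, fun n hn => ?_⟩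
  have hF : ∀ m, 0 ≤ gh m ^ k := fun m => pow_nonneg (gh_pos m).le _
  have e : Icc (-(n : ℤ)) n = (Icc 1 n).image (fun m : ℕ => -(m : ℤ)) ∪ ({0} ∪ (Icc 1 n).image (fun m : ℕ => (m : ℤ))) := by
    ext v
    simp only [mem_Icc, mem_union, mem_image, mem_singleton]
    constructor
    · intro hv
      rcases lt_trichotomy v 0 with h1 | h1 | h1
      · exact Or.inl ⟨v.natAbs, by omega, by omega⟩
      · exact Or.inr (Or.inl h1)
      · exact Or.inr (Or.inr ⟨v.natAbs, by omega, by omega⟩)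
    · rintro (⟨m, hm, rfl⟩ | rfl | ⟨m, hm, rfl⟩) <;> omega
  have h1 : ∑ v ∈ (Icc 1 n).image (fun m : ℕ => -(m : ℤ)), gh v.natAbs ^ k = ∑ m ∈ Icc 1 n, gh m ^ k := by
    rw [sum_image (by intro x _ y _ hxy; simpa using hxy)]
    exact sum_congr rfl fun m _ => by rw [Int.natAbs_neg, Int.natAbs_natCast]
  have h2 : ∑ v ∈ (Icc 1 n).image (fun m : ℕ => (m : ℤ)), gh v.natAbs ^ k = ∑ m ∈ Icc 1 n, gh m ^ k := by
    rw [sum_image (by intro x _ y _ hxy; simpa using hxy)]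
    exact sum_congr rfl fun m _ => by rw [Int.natAbs_natCast]
  have h3 : gh 0 = 1 := by unfold gh; simp
  rw [e]
  have hu : ∀ (A B : Finset ℤ), ∑ v ∈ A ∪ B, gh v.natAbs ^ k ≤ ∑ v ∈ A, gh v.natAbs ^ k + ∑ v ∈ B, gh v.natAbs ^ k := by
    intro A B
    rw [← sum_union_inter]
    have : 0 ≤ ∑ v ∈ A ∩ B, gh v.natAbs ^ k := sum_nonneg fun v _ => hF _
    linarith
  refine (hu _ _).trans ?_
  refine (add_le_add_right (hu _ _) _).trans ?_
  rw [h1, h2, sum_singleton, Int.natAbs_zero, h3, one_pow]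
  have := h n
  have hn1 : (1 : ℝ) ≤ n := by exact_mod_cast hn
  nlinarith

lemma prod4_le (a b c d : ℝ) (ha : 0 ≤ a) (hb : 0 ≤ b) (hc : 0 ≤ c) (hd : 0 ≤ d) (k : ℕ) :
    (a * b * c * d) ^ k ≤ a ^ (4 * k) + b ^ (4 * k) + c ^ (4 * k) + d ^ (4 * k) := by
  obtain ⟨m, hm⟩ : ∃ m, m = max (max a b) (max c d) := ⟨_, rfl⟩
  have h1 : a ≤ m := by rw [hm]; exact (le_max_left _ _).trans (le_max_left _ _)
  have h2 : b ≤ m := by rw [hm]; exact (le_max_right _ _).trans (le_max_left _ _)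
  have h3 : c ≤ m := by rw [hm]; exact (le_max_left _ _).trans (le_max_right _ _)
  have h4 : d ≤ m := by rw [hm]; exact (le_max_right _ _).trans (le_max_right _ _)
  have hm0 : 0 ≤ m := ha.trans h1
  have h5 : (a * b * c * d) ^ k ≤ m ^ (4 * k) := by
    rw [pow_mul]
    apply pow_le_pow_left₀ (by positivity)
    calc a * b * c * d ≤ m * m * m * m := by gcongr
      _ = m ^ 4 := by ring
  have pa : 0 ≤ a ^ (4 * k) := by positivity
  have pb : 0 ≤ b ^ (4 * k) := by positivity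
  have pc : 0 ≤ c ^ (4 * k) := by positivity
  have pd : 0 ≤ d ^ (4 * k) := by positivity
  have h6 : m = a ∨ m = b ∨ m = c ∨ m = d := by
    rcases le_total (max a b) (max c d) with h | h
    · rw [max_eq_right h] at hm
      rcases le_total c d with h' | h'
      · rw [max_eq_right h'] at hm; exact Or.inr (Or.inr (Or.inr hm))
      · rw [max_eq_left h'] at hm; exact Or.inr (Or.inr (Or.inl hm))
    · rw [max_eq_left h] at hm
      rcases le_total a b with h' | h'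
      · rw [max_eq_right h'] at hm; exact Or.inr (Or.inl hm)
      · rw [max_eq_left h'] at hm; exact Or.inl hm
  rcases h6 with h6 | h6 | h6 | h6 <;> rw [h6] at h5 <;> linarith

/-- the weight of a pair `(h, k)` -/
noncomputable def HH (h k : ℤ) : ℝ := gh h.natAbs * gh k.natAbs * gh (h + k).natAbs * gh (h - k).natAbs

lemma one_le_HH (h k : ℤ) : 1 ≤ HH h k := by
  unfold HH
  have h1 := one_le_gh h.natAbs
  have h2 := one_le_gh k.natAbs
  have h3 := one_le_gh (h + k).natAbs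
  have h4 := one_le_gh (h - k).natAbs
  exact one_le_mul_of_one_le_of_one_le (one_le_mul_of_one_le_of_one_le
    (one_le_mul_of_one_le_of_one_le h1 h2) h3) h4

lemma sum_inj_int (S T : Finset ℤ) (g : ℤ → ℤ) (F : ℤ → ℝ) (hF : ∀ m, 0 ≤ F m)
    (hinj : Function.Injective g) (hg : ∀ c ∈ S, g c ∈ T) :
    ∑ c ∈ S, F (g c) ≤ ∑ m ∈ T, F m := by
  rw [← sum_image (s := S) (g := g) (f := F) (fun x _ y _ h => hinj h)]
  apply sum_le_sum_of_subset_of_nonneg
  · intro m hm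
    rw [mem_image] at hm
    obtain ⟨c, hc, rfl⟩ := hm
    exact hg c hc
  · intro m _ _
    exact hF m

theorem HH_sum (j : ℕ) : ∃ C : ℝ, 0 < C ∧ ∀ n : ℕ, 1 ≤ n →
    ∑ h ∈ Icc (-(n : ℤ)) n, ∑ k ∈ Icc (-(n : ℤ)) n, HH h k ^ j ≤ C * (n : ℝ) ^ 2 := by
  obtain ⟨C, hC, hint⟩ := gh_int (4 * j)
  refine ⟨18 * C, by positivity, fun n hn => ?_⟩
  have hn1 : (1 : ℝ) ≤ n := by exact_mod_cast hn
  have hF : ∀ v : ℤ, 0 ≤ gh v.natAbs ^ (4 * j) := fun v => pow_nonneg (gh_pos _).le _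
  have hcard : ((Icc (-(n : ℤ)) n).card : ℝ) ≤ 3 * n := by
    rw [Int.card_Icc]
    have : ((n : ℤ) + 1 - -(n : ℤ)).toNat = 2 * n + 1 := by omega
    rw [this]
    push_cast
    linarith
  have b1 : ∑ v ∈ Icc (-(n : ℤ)) n, gh v.natAbs ^ (4 * j) ≤ C * n := hint n hn
  have b2 : ∑ v ∈ Icc (-((2 * n : ℕ) : ℤ)) (2 * n : ℕ), gh v.natAbs ^ (4 * j) ≤ C * (2 * n) := by
    have := hint (2 * n) (by omega)
    push_cast at this ⊢
    exact this
  have key : ∀ h ∈ Icc (-(n : ℤ)) n, ∑ k ∈ Icc (-(n : ℤ)) n, HH h k ^ j ≤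
      3 * n * gh h.natAbs ^ (4 * j) + C * n + C * (2 * n) + C * (2 * n) := by
    intro h hh
    rw [mem_Icc] at hh
    calc ∑ k ∈ Icc (-(n : ℤ)) n, HH h k ^ j ≤ ∑ k ∈ Icc (-(n : ℤ)) n, (gh h.natAbs ^ (4 * j) + gh k.natAbs ^ (4 * j) +
          gh (h + k).natAbs ^ (4 * j) + gh (h - k).natAbs ^ (4 * j)) :=
          sum_le_sum fun k _ => prod4_le _ _ _ _ (gh_pos _).le (gh_pos _).le (gh_pos _).le (gh_pos _).le j
      _ = (Icc (-(n : ℤ)) n).card * gh h.natAbs ^ (4 * j) + ∑ k ∈ Icc (-(n : ℤ)) n, gh k.natAbs ^ (4 * j) +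
          ∑ k ∈ Icc (-(n : ℤ)) n, gh (h + k).natAbs ^ (4 * j) + ∑ k ∈ Icc (-(n : ℤ)) n, gh (h - k).natAbs ^ (4 * j) := by
          rw [sum_add_distrib, sum_add_distrib, sum_add_distrib, sum_const, nsmul_eq_mul]
      _ ≤ _ := by
          have c1 := mul_le_mul_of_nonneg_right hcard (hF h)
          have c3 : ∑ k ∈ Icc (-(n : ℤ)) n, gh (h + k).natAbs ^ (4 * j) ≤ C * (2 * n) := by
            refine (sum_inj_int _ (Icc (-((2 * n : ℕ) : ℤ)) (2 * n : ℕ)) (fun k => h + k) (fun v => gh v.natAbs ^ (4 * j)) hF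
              (fun x y hxy => by simpa using hxy) ?_).trans b2
            intro k hk
            rw [mem_Icc] at hk ⊢
            push_cast
            constructor <;> linarith [hh.1, hh.2, hk.1, hk.2]
          have c4 : ∑ k ∈ Icc (-(n : ℤ)) n, gh (h - k).natAbs ^ (4 * j) ≤ C * (2 * n) := by
            refine (sum_inj_int _ (Icc (-((2 * n : ℕ) : ℤ)) (2 * n : ℕ)) (fun k => h - k) (fun v => gh v.natAbs ^ (4 * j)) hF
              (fun x y hxy => by simpa using hxy) ?_).trans b2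
            intro k hk
            rw [mem_Icc] at hk ⊢
            push_cast
            constructor <;> linarith [hh.1, hh.2, hk.1, hk.2]
          linarith
  calc ∑ h ∈ Icc (-(n : ℤ)) n, ∑ k ∈ Icc (-(n : ℤ)) n, HH h k ^ j ≤
        ∑ h ∈ Icc (-(n : ℤ)) n, (3 * n * gh h.natAbs ^ (4 * j) + C * n + C * (2 * n) + C * (2 * n)) := sum_le_sum key
    _ = 3 * n * ∑ h ∈ Icc (-(n : ℤ)) n, gh h.natAbs ^ (4 * j) + (Icc (-(n : ℤ)) n).card * (5 * C * n) := by
        simp only [sum_add_distrib, sum_const, nsmul_eq_mul, ← mul_sum]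
        ring
    _ ≤ 3 * n * (C * n) + 3 * n * (5 * C * n) := by
        apply add_le_add
        · exact mul_le_mul_of_nonneg_left b1 (by positivity)
        · exact mul_le_mul_of_nonneg_right hcard (by positivity)
    _ = _ := by ring

end Pool.Agent.W2helper88.GR
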