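import Pool.Agent.W2helper88.GR.Sv2

set_option autoImplicit false

/-!
# Project GR (helper88): sums over quadruples and changes of variables
-/

namespace Pool.Agent.W2helper88.GR

open Finset
open Pool.Agent.H373R2.T7 (pz Vz lamz mem_pz nuB PerB nuB_le sys_fund Vz_pos)

/-- sum over the quadruples -/
noncomputable def S4 (n : ℕ) (F : ℤ → ℤ → ℤ → ℤ → ℝ) : ℝ :=
  ∑ x ∈ Icc (1 : ℤ) n, ∑ x' ∈ Icc (1 : ℤ) n, ∑ y ∈ Icc (1 : ℤ) n, ∑ y' ∈ Icc (1 : ℤ) n, F x x' y y'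

lemma S4_sub (n : ℕ) (F G : ℤ → ℤ → ℤ → ℤ → ℝ) :
    S4 n (fun x x' y y' => F x x' y y' - G x x' y y') = S4 n F - S4 n G := by
  unfold S4
  simp only [sum_sub_distrib]

lemma S4_prod (n : ℕ) (F : ℤ → ℤ → ℤ → ℤ → ℝ) :
    S4 n F = ∑ q ∈ Icc (1 : ℤ) n ×ˢ Icc (1 : ℤ) n ×ˢ Icc (1 : ℤ) n ×ˢ Icc (1 : ℤ) n, F q.1 q.2.1 q.2.2.1 q.2.2.2 := by
  unfold S4
  simp only [sum_product]

def lo1 (n : ℕ) (h k m : ℤ) : ℤ := max (max 1 (m - n)) (max (m + h - n) (1 - k))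
def hi1 (n : ℕ) (h k m : ℤ) : ℤ := min (min n (m - 1)) (min (m + h - 1) (n - k))

lemma R1 (n : ℕ) (F : ℤ → ℤ → ℤ → ℤ → ℝ) :
    S4 n F = ∑ h ∈ Icc (-(n : ℤ)) n, ∑ k ∈ Icc (-(n : ℤ)) n, ∑ m ∈ Icc (1 : ℤ) (2 * n : ℕ),
      ∑ y ∈ Icc (lo1 n h k m) (hi1 n h k m), F (m - y) (m - y + h) y (y + k) := by
  have e : ∀ h k m : ℤ, Icc (lo1 n h k m) (hi1 n h k m) = (Icc (1 : ℤ) n).filter
      (fun y => (1 ≤ m - y ∧ m - y ≤ n) ∧ (1 ≤ m - y + h ∧ m - y + h ≤ n) ∧ (1 ≤ y + k ∧ y + k ≤ n)) := by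
    intro h k m
    ext y
    unfold lo1 hi1
    simp only [mem_Icc, mem_filter, max_le_iff, le_min_iff]
    constructor
    · rintro ⟨⟨⟨a1, a2⟩, a3, a4⟩, ⟨b1, b2⟩, b3, b4⟩
      refine ⟨⟨a1, b1⟩, ⟨?_, ?_⟩, ⟨?_, ?_⟩, ⟨?_, ?_⟩⟩ <;> linarith
    · rintro ⟨⟨a1, a2⟩, ⟨b1, b2⟩, ⟨c1, c2⟩, ⟨d1, d2⟩⟩
      refine ⟨⟨⟨?_, ?_⟩, ?_, ?_⟩, ⟨?_, ?_⟩, ?_, ?_⟩ <;> linarith
  simp only [e, sum_filter]
  rw [S4_prod]
  have e2 : ∑ h ∈ Icc (-(n : ℤ)) n, ∑ k ∈ Icc (-(n : ℤ)) n, ∑ m ∈ Icc (1 : ℤ) (2 * n : ℕ), ∑ y ∈ Icc (1 : ℤ) n,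
      (if (1 ≤ m - y ∧ m - y ≤ n) ∧ (1 ≤ m - y + h ∧ m - y + h ≤ n) ∧ (1 ≤ y + k ∧ y + k ≤ n) then
        F (m - y) (m - y + h) y (y + k) else 0) =
      ∑ q ∈ Icc (-(n : ℤ)) n ×ˢ Icc (-(n : ℤ)) n ×ˢ Icc (1 : ℤ) (2 * n : ℕ) ×ˢ Icc (1 : ℤ) n,
        (if (1 ≤ q.2.2.1 - q.2.2.2 ∧ q.2.2.1 - q.2.2.2 ≤ n) ∧ (1 ≤ q.2.2.1 - q.2.2.2 + q.1 ∧ q.2.2.1 - q.2.2.2 + q.1 ≤ n) ∧
          (1 ≤ q.2.2.2 + q.2.1 ∧ q.2.2.2 + q.2.1 ≤ n) then
        F (q.2.2.1 - q.2.2.2) (q.2.2.1 - q.2.2.2 + q.1) q.2.2.2 (q.2.2.2 + q.2.1) else 0) := by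
    simp only [sum_product]
  rw [e2, ← sum_filter]
  refine sum_nbij' (fun q => (q.2.1 - q.1, q.2.2.2 - q.2.2.1, q.1 + q.2.2.1, q.2.2.1))
    (fun q => (q.2.2.1 - q.2.2.2, q.2.2.1 - q.2.2.2 + q.1, q.2.2.2, q.2.2.2 + q.2.1)) ?_ ?_ ?_ ?_ ?_
  · rintro ⟨x, x', y, y'⟩ hq
    simp only [mem_product, mem_Icc, mem_filter] at hq ⊢
    push_cast
    omega
  · rintro ⟨h, k, m, y⟩ hq
    simp only [mem_product, mem_Icc, mem_filter] at hq ⊢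
    omega
  · rintro ⟨x, x', y, y'⟩ _
    simp only [Prod.mk.injEq]
    refine ⟨?_, ?_, ?_, ?_⟩ <;> first | trivial | omega
  · rintro ⟨h, k, m, y⟩ _
    simp only [Prod.mk.injEq]
    refine ⟨?_, ?_, ?_, ?_⟩ <;> first | trivial | omega
  · rintro ⟨x, x', y, y'⟩ _
    simp only
    congr 1 <;> omega

def lo2 (n : ℕ) (h k b : ℤ) : ℤ := max (max 1 (1 - b)) (max (1 - b - h) (1 - k))
def hi2 (n : ℕ) (h k b : ℤ) : ℤ := min (min n (n - b)) (min (n - b - h) (n - k))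

lemma R2 (n : ℕ) (F : ℤ → ℤ → ℤ → ℤ → ℝ) :
    S4 n F = ∑ h ∈ Icc (-(n : ℤ)) n, ∑ k ∈ Icc (-(n : ℤ)) n, ∑ b ∈ Icc (-(n : ℤ)) n,
      ∑ y ∈ Icc (lo2 n h k b) (hi2 n h k b), F (b + y) (b + y + h) y (y + k) := by
  have e : ∀ h k b : ℤ, Icc (lo2 n h k b) (hi2 n h k b) = (Icc (1 : ℤ) n).filter
      (fun y => (1 ≤ b + y ∧ b + y ≤ n) ∧ (1 ≤ b + y + h ∧ b + y + h ≤ n) ∧ (1 ≤ y + k ∧ y + k ≤ n)) := by
    intro h k b
    ext y
    unfold lo2 hi2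
    simp only [mem_Icc, mem_filter, max_le_iff, le_min_iff]
    constructor
    · rintro ⟨⟨⟨a1, a2⟩, a3, a4⟩, ⟨b1, b2⟩, b3, b4⟩
      refine ⟨⟨a1, b1⟩, ⟨?_, ?_⟩, ⟨?_, ?_⟩, ⟨?_, ?_⟩⟩ <;> linarith
    · rintro ⟨⟨a1, a2⟩, ⟨b1, b2⟩, ⟨c1, c2⟩, ⟨d1, d2⟩⟩
      refine ⟨⟨⟨?_, ?_⟩, ?_, ?_⟩, ⟨?_, ?_⟩, ?_, ?_⟩ <;> linarith
  simp only [e, sum_filter]
  rw [S4_prod]
  have e2 : ∑ h ∈ Icc (-(n : ℤ)) n, ∑ k ∈ Icc (-(n : ℤ)) n, ∑ b ∈ Icc (-(n : ℤ)) n, ∑ y ∈ Icc (1 : ℤ) n,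
      (if (1 ≤ b + y ∧ b + y ≤ n) ∧ (1 ≤ b + y + h ∧ b + y + h ≤ n) ∧ (1 ≤ y + k ∧ y + k ≤ n) then
        F (b + y) (b + y + h) y (y + k) else 0) =
      ∑ q ∈ Icc (-(n : ℤ)) n ×ˢ Icc (-(n : ℤ)) n ×ˢ Icc (-(n : ℤ)) n ×ˢ Icc (1 : ℤ) n,
        (if (1 ≤ q.2.2.1 + q.2.2.2 ∧ q.2.2.1 + q.2.2.2 ≤ n) ∧ (1 ≤ q.2.2.1 + q.2.2.2 + q.1 ∧ q.2.2.1 + q.2.2.2 + q.1 ≤ n) ∧
          (1 ≤ q.2.2.2 + q.2.1 ∧ q.2.2.2 + q.2.1 ≤ n) then
        F (q.2.2.1 + q.2.2.2) (q.2.2.1 + q.2.2.2 + q.1) q.2.2.2 (q.2.2.2 + q.2.1) else 0) := by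
    simp only [sum_product]
  rw [e2, ← sum_filter]
  refine sum_nbij' (fun q => (q.2.1 - q.1, q.2.2.2 - q.2.2.1, q.1 - q.2.2.1, q.2.2.1))
    (fun q => (q.2.2.1 + q.2.2.2, q.2.2.1 + q.2.2.2 + q.1, q.2.2.2, q.2.2.2 + q.2.1)) ?_ ?_ ?_ ?_ ?_
  · rintro ⟨x, x', y, y'⟩ hq
    simp only [mem_product, mem_Icc, mem_filter] at hq ⊢
    omega
  · rintro ⟨h, k, m, y⟩ hq
    simp only [mem_product, mem_Icc, mem_filter] at hq ⊢
    omega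
  · rintro ⟨x, x', y, y'⟩ _
    simp only [Prod.mk.injEq]
    refine ⟨?_, ?_, ?_, ?_⟩ <;> first | trivial | omega
  · rintro ⟨h, k, m, y⟩ _
    simp only [Prod.mk.injEq]
    refine ⟨?_, ?_, ?_, ?_⟩ <;> first | trivial | omega
  · rintro ⟨x, x', y, y'⟩ _
    simp only
    congr 1 <;> omega

lemma lo1_ge (n : ℕ) (h k m : ℤ) : 1 ≤ lo1 n h k m := (le_max_left _ _).trans (le_max_left _ _)
lemma hi1_le (n : ℕ) (h k m : ℤ) : hi1 n h k m ≤ n := (min_le_left _ _).trans (min_le_left _ _)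
lemma lo2_ge (n : ℕ) (h k m : ℤ) : 1 ≤ lo2 n h k m := (le_max_left _ _).trans (le_max_left _ _)
lemma hi2_le (n : ℕ) (h k m : ℤ) : hi2 n h k m ≤ n := (min_le_left _ _).trans (min_le_left _ _)

/-- integral intervals as intervals of natural numbers -/
lemma sum_int_nat (lo hi : ℤ) (h1 : 1 ≤ lo) (F : ℤ → ℝ) :
    ∑ y ∈ Icc lo hi, F y = ∑ r ∈ Ioc (lo - 1).toNat hi.toNat, F (r : ℤ) := by
  refine sum_nbij' (fun y => y.toNat) (fun r => (r : ℤ)) ?_ ?_ ?_ ?_ ?_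
  · intro y hy
    simp only [mem_Icc, mem_Ioc] at hy ⊢
    omega
  · intro r hr
    simp only [mem_Icc, mem_Ioc] at hr ⊢
    omega
  · intro y hy
    simp only [mem_Icc] at hy
    omega
  · intro r _
    simp
  · intro y hy
    simp only [mem_Icc] at hy
    congr 1
    omega

lemma card_int_nat (lo hi : ℤ) (h1 : 1 ≤ lo) (h : (lo - 1).toNat ≤ hi.toNat) :
    (((Icc lo hi).card : ℕ) : ℝ) = ((hi.toNat : ℝ) - ((lo - 1).toNat : ℝ)) := by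
  have := sum_int_nat lo hi h1 (fun _ => 1)
  simp only [sum_const, nsmul_eq_mul, mul_one, Nat.card_Ioc] at this
  rw [this, Nat.cast_sub h]

/-! ### the patterns of shifts -/

/-- the shifts of the four forms -/
def pat (c0 h k : ℤ) : Fin 4 → ℤ := ![c0, c0 + h, c0 + k, c0 + h + k]

/-- nondegenerate pairs -/
def Nd (h k : ℤ) : Prop := h ≠ 0 ∧ k ≠ 0 ∧ h + k ≠ 0 ∧ h - k ≠ 0

instance (h k : ℤ) : Decidable (Nd h k) := by unfold Nd; infer_instance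

lemma pat_diff (c0 h k : ℤ) (p : ℕ) (i j : Fin 4) (hij : i ≠ j) (hd : (p : ℤ) ∣ pat c0 h k i - pat c0 h k j) :
    (p : ℤ) ∣ h ∨ (p : ℤ) ∣ k ∨ (p : ℤ) ∣ h + k ∨ (p : ℤ) ∣ h - k := by
  have hneg : ∀ a : ℤ, (p : ℤ) ∣ -a → (p : ℤ) ∣ a := fun a ha => (dvd_neg.1 ha)
  fin_cases i <;> fin_cases j <;> simp [pat] at hij hd ⊢
  · left; exact hd
  · right; left; exact hd
  · right; right; left
    have e : c0 - (c0 + h + k) = -(h + k) := by ring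
    rw [e] at hd
    exact hneg _ hd
  · left; exact hd
  · right; right; right; exact hd
  · right; left; exact hd
  · right; left; exact hd
  · right; right; right
    have e : k - h = -(h - k) := by ring
    rw [e] at hd
    exact hneg _ hd
  · left; exact hd
  · right; right; left
    have e : c0 + h + k - c0 = h + k := by ring
    rw [e] at hd
    exact hd
  · right; left; exact hd
  · left; exact hd

lemma Hc_pat (c0 h k : ℤ) (Y : ℕ) (hnd : Nd h k) : Hc (pat c0 h k) Y ≤ HH h k := by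
  classical
  have hsub : Bd (pat c0 h k) Y ⊆ ((h.natAbs.primeFactors ∪ k.natAbs.primeFactors) ∪ (h + k).natAbs.primeFactors) ∪ (h - k).natAbs.primeFactors := by
    intro p hp
    rw [mem_Bd, mem_pz] at hp
    obtain ⟨⟨_, hpp⟩, i, j, hij, hd⟩ := hp
    obtain ⟨n1, n2, n3, n4⟩ := hnd
    simp only [mem_union, Nat.mem_primeFactors, Ne, Int.natAbs_eq_zero]
    rcases pat_diff c0 h k p i j hij hd with h1 | h1 | h1 | h1
    · exact Or.inl (Or.inl (Or.inl ⟨hpp, Int.natCast_dvd.1 h1, n1⟩))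
    · exact Or.inl (Or.inl (Or.inr ⟨hpp, Int.natCast_dvd.1 h1, n2⟩))
    · exact Or.inl (Or.inr ⟨hpp, Int.natCast_dvd.1 h1, n3⟩)
    · exact Or.inr ⟨hpp, Int.natCast_dvd.1 h1, n4⟩
  have hun : ∀ A B : Finset ℕ, ∏ p ∈ A ∪ B, (1 + 1 / √(p : ℝ)) ≤ (∏ p ∈ A, (1 + 1 / √(p : ℝ))) * ∏ p ∈ B, (1 + 1 / √(p : ℝ)) := by
    intro A B
    rw [← prod_union_inter]
    have h1 := one_le_prodR (A ∩ B) (fun p => 1 + 1 / √(p : ℝ)) one_le_fac
    have h2 := one_le_prodR (A ∪ B) (fun p => 1 + 1 / √(p : ℝ)) one_le_fac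
    nlinarith
  have hmono : Hc (pat c0 h k) Y ≤ ∏ p ∈ ((h.natAbs.primeFactors ∪ k.natAbs.primeFactors) ∪ (h + k).natAbs.primeFactors) ∪ (h - k).natAbs.primeFactors,
      (1 + 1 / √(p : ℝ)) := by
    unfold Hc
    rw [← prod_sdiff hsub]
    have h1 := one_le_prodR ((((h.natAbs.primeFactors ∪ k.natAbs.primeFactors) ∪ (h + k).natAbs.primeFactors) ∪ (h - k).natAbs.primeFactors) \ Bd (pat c0 h k) Y)
      (fun p => 1 + 1 / √(p : ℝ)) one_le_fac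
    have h2 := one_le_prodR (Bd (pat c0 h k) Y) (fun p => 1 + 1 / √(p : ℝ)) one_le_fac
    nlinarith
  refine hmono.trans ((hun _ _).trans ?_)
  unfold HH gh
  have g3 := one_le_prodR (h - k).natAbs.primeFactors (fun p => 1 + 1 / √(p : ℝ)) one_le_fac
  apply mul_le_mul_of_nonneg_right _ (by linarith)
  refine (hun _ _).trans ?_
  have g2 := one_le_prodR (h + k).natAbs.primeFactors (fun p => 1 + 1 / √(p : ℝ)) one_le_fac
  apply mul_le_mul_of_nonneg_right _ (by linarith)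
  exact hun _ _

/-- shifting the variable -/
lemma Sw_shift (u : ℤ) (hu : u = 1 ∨ u = 2) (c : Fin 4 → ℤ) (t : ℤ) (w : ℕ) :
    Sw u (fun i => c i + u * t) w = Sw u c w := by
  classical
  unfold Sw Sz
  refine prod_congr rfl fun p hp => ?_
  have hpp := (mem_pz.1 hp).2
  have hp0 : (0 : ℤ) < p := by exact_mod_cast hpp.pos
  -- the residue classes are translated
  suffices hs : nuB (Qf u (fun i => c i + u * t) (fun _ => w)) p = nuB (Qf u c (fun _ => w)) p by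
    unfold fl
    rw [hs]
  unfold nuB
  refine card_nbij' (fun r => ((r : ℤ) + t).emod p |>.toNat) (fun r => ((r : ℤ) - t).emod p |>.toNat) ?_ ?_ ?_ ?_
  · intro r hr
    rw [mem_coe, mem_filter, mem_range] at hr ⊢
    obtain ⟨_, i, hi, hd⟩ := hr
    have a1 := Int.emod_nonneg ((r : ℤ) + t) hp0.ne'
    have a2 := Int.emod_lt_of_pos ((r : ℤ) + t) hp0
    refine ⟨?_, i, hi, ?_⟩
    · show (((r : ℤ) + t) % p).toNat < p
      omega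
    · show (p : ℤ) ∣ u * ((((r : ℤ) + t) % p).toNat : ℤ) + c i
      rw [Int.toNat_of_nonneg a1]
      have h1 : u * (((r : ℤ) + t) % p) + c i = (u * r + (c i + u * t)) - p * (u * (((r : ℤ) + t) / p)) := by
        have := Int.emod_add_mul_ediv ((r : ℤ) + t) p
        linear_combination u * this
      rw [h1]
      exact dvd_sub hd (dvd_mul_right _ _)
  · intro r hr
    rw [mem_coe, mem_filter, mem_range] at hr ⊢
    obtain ⟨_, i, hi, hd⟩ := hr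
    have a1 := Int.emod_nonneg ((r : ℤ) - t) hp0.ne'
    have a2 := Int.emod_lt_of_pos ((r : ℤ) - t) hp0
    refine ⟨?_, i, hi, ?_⟩
    · show (((r : ℤ) - t) % p).toNat < p
      omega
    · show (p : ℤ) ∣ u * ((((r : ℤ) - t) % p).toNat : ℤ) + (c i + u * t)
      rw [Int.toNat_of_nonneg a1]
      have h1 : u * (((r : ℤ) - t) % p) + (c i + u * t) = (u * r + c i) - p * (u * (((r : ℤ) - t) / p)) := by
        have := Int.emod_add_mul_ediv ((r : ℤ) - t) p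
        linear_combination u * this
      rw [h1]
      exact dvd_sub hd (dvd_mul_right _ _)
  · intro r hr
    rw [mem_coe, mem_filter, mem_range] at hr
    have a1 := Int.emod_nonneg ((r : ℤ) + t) hp0.ne'
    show ((((((r : ℤ) + t) % p).toNat : ℤ) - t) % p).toNat = r
    rw [Int.toNat_of_nonneg a1]
    have h1 : (((r : ℤ) + t) % p - t) % p = r := by
      rw [Int.emod_sub_emod, add_sub_cancel_right]
      exact Int.emod_eq_of_lt (by omega) (by exact_mod_cast hr.1)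
    rw [h1]; simp
  · intro r hr
    rw [mem_coe, mem_filter, mem_range] at hr
    have a1 := Int.emod_nonneg ((r : ℤ) - t) hp0.ne'
    show ((((((r : ℤ) - t) % p).toNat : ℤ) + t) % p).toNat = r
    rw [Int.toNat_of_nonneg a1]
    have h1 : (((r : ℤ) - t) % p + t) % p = r := by
      rw [Int.emod_add_emod, sub_add_cancel]
      exact Int.emod_eq_of_lt (by omega) (by exact_mod_cast hr.1)
    rw [h1]; simp

/-- periodicity -/
lemma Sw_mod (u : ℤ) (c c' : Fin 4 → ℤ) (w P : ℕ) (hP : ∀ p ∈ pz w, p ∣ P) (h : ∀ i, (P : ℤ) ∣ c i - c' i) :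
    Sw u c w = Sw u c' w := by
  unfold Sw Sz
  refine prod_congr rfl fun p hp => ?_
  suffices hs : nuB (Qf u c (fun _ => w)) p = nuB (Qf u c' (fun _ => w)) p by
    unfold fl
    rw [hs]
  apply nuB_congr
  intro r
  unfold Qf
  have hpP : (p : ℤ) ∣ (P : ℤ) := by exact_mod_cast hP p hp
  have : ∀ i, (p : ℤ) ∣ u * r + c i ↔ (p : ℤ) ∣ u * r + c' i := by
    intro i
    have h1 : u * r + c i = (u * r + c' i) + (c i - c' i) := by ring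
    rw [h1]
    exact dvd_add_left (hpP.trans (h i))
  simp only [this]

end Pool.Agent.W2helper88.GR
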