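import Pool.Agent.W2helper88.GR.Loc
import Pool.Agent.W2helper88.GR.Mom

set_option autoImplicit false

/-!
# Project GR (helper88): the asymptotic sieve for four linear forms in one variable
-/

namespace Pool.Agent.W2helper88.GR

open Finset
open Pool.Agent.H373R2.T7 (pz Vz lamz mem_pz nuB PerB nuB_le sys_fund Vz_pos)

/-- the sieve model on the integers -/
noncomputable def lz (z : ℕ) (k : ℤ) : ℝ := lamz z k.natAbs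

lemma lz_nonneg (z : ℕ) (k : ℤ) : 0 ≤ lz z k := Pool.Agent.H373R2.T7.lamz_nonneg _ _

lemma lz_le (z : ℕ) (k : ℤ) : lz z k ≤ (Vz z)⁻¹ := by
  unfold lz lamz
  split_ifs
  · exact le_rfl
  · exact inv_nonneg.2 (Vz_pos z).le

lemma lz_ite (z : ℕ) (k : ℤ) : lz z k = if ∀ p ∈ pz z, ¬ (p : ℤ) ∣ k then (Vz z)⁻¹ else 0 := by
  unfold lz lamz
  simp only [Int.natCast_dvd]

open Classical in
lemma prod_lz (u : ℤ) (c : Fin 4 → ℤ) (z : Fin 4 → ℕ) (Y : ℕ) (hz : ∀ i, z i ≤ Y) (r : ℕ) :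
    ∏ i, lz (z i) (u * r + c i) = if ∀ p ∈ pz Y, ¬ Qf u c z p r then ∏ i, (Vz (z i))⁻¹ else 0 := by
  by_cases h : ∀ p ∈ pz Y, ¬ Qf u c z p r
  · rw [if_pos h]
    refine prod_congr rfl fun i _ => ?_
    rw [lz_ite, if_pos]
    intro p hp hd
    have := mem_pz.1 hp
    exact h p (mem_pz.2 ⟨this.1.trans (hz i), this.2⟩) ⟨i, this.1, hd⟩
  · rw [if_neg h]
    push Not at h
    obtain ⟨p, hp, i, hi, hd⟩ := h
    apply prod_eq_zero (mem_univ i)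
    rw [lz_ite, if_neg]
    intro h2
    exact h2 p (mem_pz.2 ⟨hi, (mem_pz.1 hp).2⟩) hd

lemma Vz_ext (z Y : ℕ) (h : z ≤ Y) : Vz z = ∏ p ∈ pz Y, (if p ≤ z then (1 - 1 / (p : ℝ)) else 1) := by
  unfold Vz
  rw [← prod_filter]
  congr 1
  ext p
  rw [mem_filter, mem_pz, mem_pz]
  constructor
  · rintro ⟨h1, h2⟩; exact ⟨⟨h1.trans h, h2⟩, h1⟩
  · rintro ⟨⟨_, h2⟩, h1⟩; exact ⟨h1, h2⟩

lemma prod_V (z : Fin 4 → ℕ) (Y : ℕ) (hz : ∀ i, z i ≤ Y) :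
    ∏ i, Vz (z i) = ∏ p ∈ pz Y, (1 - 1 / (p : ℝ)) ^ (act z p).card := by
  have h1 : ∀ i ∈ (univ : Finset (Fin 4)), Vz (z i) = ∏ p ∈ pz Y, (if p ≤ z i then (1 - 1 / (p : ℝ)) else 1) :=
    fun i _ => Vz_ext (z i) Y (hz i)
  rw [prod_congr rfl h1, prod_comm]
  refine prod_congr rfl fun p _ => ?_
  rw [← prod_filter, prod_const]
  rfl

/-- the product of the local factors -/
noncomputable def Sz (u : ℤ) (c : Fin 4 → ℤ) (z : Fin 4 → ℕ) (Y : ℕ) : ℝ := ∏ p ∈ pz Y, fl u c z p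

lemma Sz_nonneg (u : ℤ) (c : Fin 4 → ℤ) (z : Fin 4 → ℕ) (Y : ℕ) : 0 ≤ Sz u c z Y :=
  prod_nonneg fun _ hp => fl_nonneg u c z (mem_pz.1 hp).2

lemma Sz_eq (u : ℤ) (c : Fin 4 → ℤ) (z : Fin 4 → ℕ) (Y : ℕ) (hz : ∀ i, z i ≤ Y) :
    (∏ p ∈ pz Y, (1 - (nuB (Qf u c z) p : ℝ) / p)) * ∏ i, (Vz (z i))⁻¹ = Sz u c z Y := by
  unfold Sz fl
  rw [prod_div_distrib, ← prod_V z Y hz, prod_inv_distrib, div_eq_mul_inv]

open Classical in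
/-- the fundamental lemma, for intervals -/
theorem sieve1 (ε : ℝ) (hε : 0 < ε) : ∃ K x0 : ℕ, 1 ≤ K ∧ ∀ x Y : ℕ, x0 ≤ Y → Y ^ K ≤ x →
    ∀ u : ℤ, (u = 1 ∨ u = 2) → ∀ (c : Fin 4 → ℤ) (z : Fin 4 → ℕ), (∀ i, z i ≤ Y) → ∀ X1 X2 : ℕ, X1 ≤ X2 →
    |∑ r ∈ Ioc X1 X2, ∏ i, lz (z i) (u * r + c i) - ((X2 : ℝ) - X1) * Sz u c z Y| ≤
      ε * (X1 + X2) * Sz u c z Y + 2 * √(x : ℝ) * ∏ i, (Vz (z i))⁻¹ := by
  obtain ⟨K, x0, hK, h⟩ := sys_fund 4 (by norm_num) ε hε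
  refine ⟨K, x0, hK, fun x Y hx0 hYK u hu c z hz X1 X2 hX => ?_⟩
  have hh := h x Y hx0 hYK (Qf u c z) (Qf_perB u hu c z)
  obtain ⟨W, hW⟩ : ∃ W, W = ∏ i, (Vz (z i))⁻¹ := ⟨_, rfl⟩
  have hW0 : 0 ≤ W := by rw [hW]; exact prod_nonneg fun i _ => inv_nonneg.2 (Vz_pos _).le
  obtain ⟨P, hP⟩ : ∃ P, P = ∏ p ∈ pz Y, (1 - (nuB (Qf u c z) p : ℝ) / p) := ⟨_, rfl⟩
  have hS : Sz u c z Y = P * W := by rw [hP, hW, Sz_eq u c z Y hz]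
  rw [← hP] at hh
  have hsum : ∑ r ∈ Ioc X1 X2, ∏ i, lz (z i) (u * r + c i) =
      (((Icc 1 X2).filter (fun n : ℕ => ∀ p ∈ pz Y, ¬ Qf u c z p n)).card - ((Icc 1 X1).filter (fun n : ℕ => ∀ p ∈ pz Y, ¬ Qf u c z p n)).card) * W := by
    have e1 : ∑ r ∈ Ioc X1 X2, ∏ i, lz (z i) (u * r + c i) =
        (((Ioc X1 X2).filter (fun n : ℕ => ∀ p ∈ pz Y, ¬ Qf u c z p n)).card : ℝ) * W := by
      rw [sum_congr rfl fun r _ => prod_lz u c z Y hz r, ← sum_filter, sum_const, nsmul_eq_mul, hW]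
    rw [e1]
    congr 1
    have e2 : (Icc 1 X2).filter (fun n : ℕ => ∀ p ∈ pz Y, ¬ Qf u c z p n) =
        (Icc 1 X1).filter (fun n : ℕ => ∀ p ∈ pz Y, ¬ Qf u c z p n) ∪ (Ioc X1 X2).filter (fun n : ℕ => ∀ p ∈ pz Y, ¬ Qf u c z p n) := by
      rw [← filter_union]
      congr 1
      ext n
      simp only [mem_Icc, mem_union, mem_Ioc]
      omega
    have e3 : Disjoint ((Icc 1 X1).filter (fun n : ℕ => ∀ p ∈ pz Y, ¬ Qf u c z p n))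
        ((Ioc X1 X2).filter (fun n : ℕ => ∀ p ∈ pz Y, ¬ Qf u c z p n)) := by
      rw [disjoint_left]
      intro n h1 h2
      rw [mem_filter, mem_Icc] at h1
      rw [mem_filter, mem_Ioc] at h2
      omega
    rw [e2, card_union_of_disjoint e3]
    push_cast
    ring
  rw [hsum, hS, ← hW]
  have h1 := hh X1
  have h2 := hh X2
  obtain ⟨A1, hA1⟩ : ∃ A : ℝ, A = (((Icc 1 X1).filter (fun n : ℕ => ∀ p ∈ pz Y, ¬ Qf u c z p n)).card : ℝ) := ⟨_, rfl⟩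
  obtain ⟨A2, hA2⟩ : ∃ A : ℝ, A = (((Icc 1 X2).filter (fun n : ℕ => ∀ p ∈ pz Y, ¬ Qf u c z p n)).card : ℝ) := ⟨_, rfl⟩
  rw [← hA1] at h1 ⊢
  rw [← hA2] at h2 ⊢
  have e : (A2 - A1) * W - ((X2 : ℝ) - X1) * (P * W) = ((A2 - X2 * P) - (A1 - X1 * P)) * W := by ring
  rw [e, abs_mul, abs_of_nonneg hW0]
  calc |A2 - X2 * P - (A1 - X1 * P)| * W ≤ ((ε * (X2 * P) + √(x : ℝ)) + (ε * (X1 * P) + √(x : ℝ))) * W := by
        apply mul_le_mul_of_nonneg_right _ hW0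
        exact (abs_sub _ _).trans (add_le_add h2 h1)
    _ = _ := by ring

end Pool.Agent.W2helper88.GR
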