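import Pool.Agent.W2helper88.GR.Sv

set_option autoImplicit false

/-!
# Project GR (helper88): the asymptotic sieve, main form
-/

namespace Pool.Agent.W2helper88.GR

open Finset
open Pool.Agent.H373R2.T7 (pz Vz lamz mem_pz nuB PerB nuB_le sys_fund Vz_pos)

/-- the local product at the primes up to `w` -/
noncomputable def Sw (u : ℤ) (c : Fin 4 → ℤ) (w : ℕ) : ℝ := Sz u c (fun _ => w) w

lemma Sw_nonneg (u : ℤ) (c : Fin 4 → ℤ) (w : ℕ) : 0 ≤ Sw u c w := Sz_nonneg _ _ _ _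

open Classical in
/-- the primes dividing a difference -/
noncomputable def Bd (c : Fin 4 → ℤ) (Y : ℕ) : Finset ℕ := (pz Y).filter (fun p => ∃ i j, i ≠ j ∧ (p : ℤ) ∣ c i - c j)

lemma mem_Bd {c : Fin 4 → ℤ} {Y p : ℕ} : p ∈ Bd c Y ↔ p ∈ pz Y ∧ ∃ i j, i ≠ j ∧ (p : ℤ) ∣ c i - c j := by
  unfold Bd
  rw [mem_filter]

noncomputable def Hc (c : Fin 4 → ℤ) (Y : ℕ) : ℝ := ∏ p ∈ Bd c Y, (1 + 1 / √(p : ℝ))

lemma one_le_Hc (c : Fin 4 → ℤ) (Y : ℕ) : 1 ≤ Hc c Y := one_le_prodR _ _ one_le_fac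

lemma Hc_mono (c : Fin 4 → ℤ) {w Y : ℕ} (h : w ≤ Y) : Hc c w ≤ Hc c Y := by
  classical
  unfold Hc
  have hsub : Bd c w ⊆ Bd c Y := by
    intro p hp
    rw [mem_Bd, mem_pz] at hp ⊢
    exact ⟨⟨hp.1.1.trans h, hp.1.2⟩, hp.2⟩
  rw [← prod_sdiff hsub]
  have h1 := one_le_prodR (Bd c Y \ Bd c w) (fun p => 1 + 1 / √(p : ℝ)) one_le_fac
  have h2 := one_le_prodR (Bd c w) (fun p => 1 + 1 / √(p : ℝ)) one_le_fac
  nlinarith

lemma not_Bd {c : Fin 4 → ℤ} {Y p : ℕ} (hp : p ∈ pz Y) (h : p ∉ Bd c Y) : ∀ i j, i ≠ j → ¬ (p : ℤ) ∣ c i - c j := by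
  intro i j hij hd
  exact h (mem_Bd.2 ⟨hp, i, j, hij, hd⟩)

lemma nuB_congr (Q Q' : ℕ → ℕ → Prop) (p : ℕ) (h : ∀ r, Q p r ↔ Q' p r) : nuB Q p = nuB Q' p := by
  classical
  unfold nuB
  congr 1
  ext r
  rw [mem_filter, mem_filter, h]

lemma fl_congr (u : ℤ) (c : Fin 4 → ℤ) (z z' : Fin 4 → ℕ) (p : ℕ) (h : ∀ i, p ≤ z i ↔ p ≤ z' i) :
    fl u c z p = fl u c z' p := by
  unfold fl
  have h1 : act z p = act z' p := by
    ext i
    rw [mem_act, mem_act, h]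
  have h2 : nuB (Qf u c z) p = nuB (Qf u c z') p := by
    apply nuB_congr
    intro r
    unfold Qf
    simp only [h]
  rw [h1, h2]

lemma prod_le_ite (s B : Finset ℕ) (f g : ℕ → ℝ) (hf : ∀ p ∈ s, 0 ≤ f p) (hg : ∀ p, 1 ≤ g p)
    (h1 : ∀ p ∈ s, p ∈ B → f p ≤ g p) (h2 : ∀ p ∈ s, p ∉ B → f p ≤ 1) : ∏ p ∈ s, f p ≤ ∏ p ∈ B, g p := by
  classical
  have h3 : ∏ p ∈ s, f p ≤ ∏ p ∈ s, (if p ∈ B then g p else 1) := by
    apply prod_le_prod hf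
    intro p hp
    split_ifs with h
    · exact h1 p hp h
    · exact h2 p hp h
  refine h3.trans ?_
  rw [← prod_filter]
  have hsub : s.filter (fun p => p ∈ B) ⊆ B := by
    intro p hp
    exact (mem_filter.1 hp).2
  rw [← prod_sdiff hsub]
  have h4 := one_le_prodR (B \ s.filter (fun p => p ∈ B)) g hg
  have h5 := one_le_prodR (s.filter (fun p => p ∈ B)) g hg
  nlinarith

lemma fl_two (u : ℤ) (c : Fin 4 → ℤ) (z : Fin 4 → ℕ) : fl u c z 2 ≤ 16 := by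
  unfold fl
  have h1 : (1 : ℝ) - (nuB (Qf u c z) 2 : ℝ) / ((2 : ℕ) : ℝ) ≤ 1 := by
    have : (0 : ℝ) ≤ (nuB (Qf u c z) 2 : ℝ) / ((2 : ℕ) : ℝ) := by positivity
    linarith
  have h2 : (1 - 1 / ((2 : ℕ) : ℝ)) = 1 / 2 := by norm_num
  rw [h2, div_le_iff₀ (by positivity)]
  have h3 : (1 / 2 : ℝ) ^ 4 ≤ (1 / 2) ^ (act z 2).card :=
    pow_le_pow_of_le_one (by norm_num) (by norm_num) (card_act_le z 2)
  norm_num at h3 ⊢
  norm_num at h1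
  linarith

lemma cube_le {p : ℕ} (hp : p.Prime) : ((1 - 1 / (p : ℝ))⁻¹) ^ 3 ≤ (1 + 1 / √(p : ℝ)) ^ 6 := by
  have h1 := inv_le_sq hp
  have h2 : 0 ≤ (1 - 1 / (p : ℝ))⁻¹ := inv_nonneg.2 (one_sub_pos hp).le
  calc ((1 - 1 / (p : ℝ))⁻¹) ^ 3 ≤ ((1 + 1 / √(p : ℝ)) ^ 2) ^ 3 := pow_le_pow_left₀ h2 h1 3
    _ = _ := by ring

lemma cube_le' {p : ℕ} (hp : p.Prime) : ((1 - 1 / (p : ℝ))⁻¹) ^ 3 ≤ (1 + 1 / (p : ℝ)) ^ 6 := by
  have h1 := inv_le_sq' hp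
  have h2 : 0 ≤ (1 - 1 / (p : ℝ))⁻¹ := inv_nonneg.2 (one_sub_pos hp).le
  calc ((1 - 1 / (p : ℝ))⁻¹) ^ 3 ≤ ((1 + 1 / (p : ℝ)) ^ 2) ^ 3 := pow_le_pow_left₀ h2 h1 3
    _ = _ := by ring

lemma prime_ge3 {p : ℕ} (hp : p.Prime) (h : p ≠ 2) : 3 ≤ p := by
  have := hp.two_le
  omega

/-- the general upper bound -/
theorem Sz_le (u : ℤ) (hu : u = 1 ∨ u = 2) (c : Fin 4 → ℤ) (z : Fin 4 → ℕ) (Y : ℕ) : Sz u c z Y ≤ 16 * Hc c Y ^ 6 := by
  classical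
  unfold Sz Hc
  rw [← prod_pow]
  have hg : ∀ p : ℕ, (1 : ℝ) ≤ (1 + 1 / √(p : ℝ)) ^ 6 := fun p => one_le_pow₀ (one_le_fac p)
  have hmain : ∏ p ∈ (pz Y).erase 2, fl u c z p ≤ ∏ p ∈ Bd c Y, (1 + 1 / √(p : ℝ)) ^ 6 := by
    apply prod_le_ite _ _ _ _ (fun p hp => fl_nonneg u c z (mem_pz.1 (mem_of_mem_erase hp)).2) hg
    · intro p hp _
      have hpp := (mem_pz.1 (mem_of_mem_erase hp)).2
      exact (fl_le_cube u c z hpp (not_dvd_u hu (prime_ge3 hpp (ne_of_mem_erase hp)))).trans (cube_le hpp)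
    · intro p hp hB
      have hpp := (mem_pz.1 (mem_of_mem_erase hp)).2
      exact fl_le_one u c z hpp (not_dvd_u hu (prime_ge3 hpp (ne_of_mem_erase hp))) (not_Bd (mem_of_mem_erase hp) hB)
  have h0 : 0 ≤ ∏ p ∈ (pz Y).erase 2, fl u c z p :=
    prod_nonneg fun p hp => fl_nonneg u c z (mem_pz.1 (mem_of_mem_erase hp)).2
  by_cases h2 : 2 ∈ pz Y
  · rw [← mul_prod_erase _ _ h2]
    exact mul_le_mul (fl_two u c z) hmain h0 (by norm_num)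
  · rw [erase_eq_of_notMem h2] at hmain
    have h3 := one_le_prodR (Bd c Y) (fun p => (1 + 1 / √(p : ℝ)) ^ 6) hg
    linarith

/-- the factor at the large primes -/
noncomputable def Rz (u : ℤ) (c : Fin 4 → ℤ) (z : Fin 4 → ℕ) (w Y : ℕ) : ℝ :=
  ∏ p ∈ (pz Y).filter (fun p => w < p), fl u c z p

lemma Sz_split (u : ℤ) (c : Fin 4 → ℤ) (z : Fin 4 → ℕ) (w Y : ℕ) (hw : ∀ i, w ≤ z i) (hwY : w ≤ Y) :
    Sz u c z Y = Sw u c w * Rz u c z w Y := by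
  classical
  unfold Sz Sw Rz Sz
  have e : pz Y = pz w ∪ (pz Y).filter (fun p => w < p) := by
    ext p
    rw [mem_union, mem_filter, mem_pz, mem_pz]
    constructor
    · rintro ⟨h1, h2⟩
      rcases Nat.lt_or_ge w p with h | h
      · exact Or.inr ⟨⟨h1, h2⟩, h⟩
      · exact Or.inl ⟨h, h2⟩
    · rintro (⟨h1, h2⟩ | ⟨h1, _⟩)
      · exact ⟨h1.trans hwY, h2⟩
      · exact h1
  have hd : Disjoint (pz w) ((pz Y).filter (fun p => w < p)) := by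
    rw [disjoint_left]
    intro p h1 h2
    rw [mem_pz] at h1
    rw [mem_filter] at h2
    omega
  rw [e, prod_union hd, ← e]
  congr 1
  refine prod_congr rfl fun p hp => ?_
  rw [mem_pz] at hp
  exact fl_congr u c z (fun _ => w) p fun i => ⟨fun _ => hp.1, fun _ => hp.1.trans (hw i)⟩

lemma prod_sub_one_le (T : Finset ℕ) (a : ℕ → ℝ) (ha : ∀ p ∈ T, 0 ≤ a p) :
    ∏ p ∈ T, (1 + a p) - 1 ≤ (∑ p ∈ T, a p) * ∏ p ∈ T, (1 + a p) := by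
  classical
  induction T using Finset.induction_on with
  | empty => simp
  | insert b s hb ih =>
    rw [prod_insert hb, sum_insert hb]
    have h1 := ih (fun p hp => ha p (mem_insert_of_mem hp))
    have h2 := ha b (mem_insert_self _ _)
    have h3 : 1 ≤ ∏ p ∈ s, (1 + a p) := by
      calc (1 : ℝ) = ∏ _p ∈ s, (1 : ℝ) := by simp
        _ ≤ _ := prod_le_prod (fun _ _ => zero_le_one) fun p hp => by
            have := ha p (mem_insert_of_mem hp); linarith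
    have h4 : 0 ≤ ∑ p ∈ s, a p := sum_nonneg fun p hp => ha p (mem_insert_of_mem hp)
    have h5 : 0 ≤ (∑ p ∈ s, a p) * ∏ p ∈ s, (1 + a p) := by positivity
    have h6 : 0 ≤ a b * (∑ p ∈ s, a p) * ∏ p ∈ s, (1 + a p) := by positivity
    have h7 : 0 ≤ a b * a b * ∏ p ∈ s, (1 + a p) := by positivity
    nlinarith

lemma sum_le_prod (T : Finset ℕ) (a : ℕ → ℝ) (ha : ∀ p ∈ T, 0 ≤ a p) : ∑ p ∈ T, a p ≤ ∏ p ∈ T, (1 + a p) := by
  classical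
  have : 1 + ∑ p ∈ T, a p ≤ ∏ p ∈ T, (1 + a p) := by
    induction T using Finset.induction_on with
    | empty => simp
    | insert b s hb ih =>
      rw [prod_insert hb, sum_insert hb]
      have h1 := ih (fun p hp => ha p (mem_insert_of_mem hp))
      have h2 := ha b (mem_insert_self _ _)
      have h4 : 0 ≤ ∑ p ∈ s, a p := sum_nonneg fun p hp => ha p (mem_insert_of_mem hp)
      nlinarith
  linarith

lemma pow6_le {q : ℝ} (h0 : 0 ≤ q) (h1 : q ≤ 1 / 5) : (1 + q) ^ 6 ≤ 1 + 10 * q := by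
  have h2 : (1 + q) ^ 6 = 1 + 6 * q + q ^ 2 * (15 + 20 * q + 15 * q ^ 2 + 6 * q ^ 3 + q ^ 4) := by ring
  have h3 : 15 + 20 * q + 15 * q ^ 2 + 6 * q ^ 3 + q ^ 4 ≤ 20 := by
    have a2 : q ^ 2 ≤ (1 / 5) ^ 2 := pow_le_pow_left₀ h0 h1 2
    have a3 : q ^ 3 ≤ (1 / 5) ^ 3 := pow_le_pow_left₀ h0 h1 3
    have a4 : q ^ 4 ≤ (1 / 5) ^ 4 := pow_le_pow_left₀ h0 h1 4
    norm_num at a2 a3 a4
    linarith
  have h4 : q ^ 2 * (15 + 20 * q + 15 * q ^ 2 + 6 * q ^ 3 + q ^ 4) ≤ q ^ 2 * 20 :=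
    mul_le_mul_of_nonneg_left h3 (by positivity)
  nlinarith

lemma Rz_le (u : ℤ) (hu : u = 1 ∨ u = 2) (c : Fin 4 → ℤ) (z : Fin 4 → ℕ) (w Y : ℕ) (hw : 4 ≤ w) :
    Rz u c z w Y ≤ 1 + 10 / √(w : ℝ) * Hc c Y ^ 7 := by
  classical
  obtain ⟨T, hT⟩ : ∃ T, T = (Bd c Y).filter (fun p => w < p) := ⟨_, rfl⟩
  have hw0 : (0 : ℝ) < w := by exact_mod_cast (by omega : 0 < w)
  have hsw : 0 < √(w : ℝ) := Real.sqrt_pos.2 hw0
  have h1 : Rz u c z w Y ≤ ∏ p ∈ T, (1 + 1 / (p : ℝ)) ^ 6 := by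
    unfold Rz
    apply prod_le_ite
    · intro p hp
      exact fl_nonneg u c z (mem_pz.1 (mem_filter.1 hp).1).2
    · intro p
      apply one_le_pow₀
      have : (0 : ℝ) ≤ 1 / (p : ℝ) := by positivity
      linarith
    · intro p hp _
      rw [mem_filter] at hp
      have hpp := (mem_pz.1 hp.1).2
      exact (fl_le_cube u c z hpp (not_dvd_u hu (by omega))).trans (cube_le' hpp)
    · intro p hp hB
      rw [mem_filter] at hp
      have hpp := (mem_pz.1 hp.1).2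
      apply fl_le_one u c z hpp (not_dvd_u hu (by omega))
      apply not_Bd hp.1
      intro h
      exact hB (by rw [hT, mem_filter]; exact ⟨h, hp.2⟩)
  have hTp : ∀ p ∈ T, p.Prime ∧ w < p := by
    intro p hp
    rw [hT, mem_filter, mem_Bd, mem_pz] at hp
    exact ⟨hp.1.1.2, hp.2⟩
  set a : ℕ → ℝ := fun p : ℕ => (1 + 1 / (p : ℝ)) ^ 6 - 1 with ha
  have ha0 : ∀ p ∈ T, 0 ≤ a p := by
    intro p _
    rw [ha]
    have : (1 : ℝ) ≤ (1 + 1 / (p : ℝ)) ^ 6 := by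
      apply one_le_pow₀
      have : (0 : ℝ) ≤ 1 / (p : ℝ) := by positivity
      linarith
    simp only
    linarith
  have hprod : ∏ p ∈ T, (1 + a p) = ∏ p ∈ T, (1 + 1 / (p : ℝ)) ^ 6 := by
    refine prod_congr rfl fun p _ => ?_
    rw [ha]; ring
  have ha1 : ∀ p ∈ T, a p ≤ 10 / √(w : ℝ) * (1 / √(p : ℝ)) := by
    intro p hp
    obtain ⟨hpp, hwp⟩ := hTp p hp
    have hp0 : (0 : ℝ) < p := by exact_mod_cast hpp.pos
    have hp5 : (5 : ℝ) ≤ p := by exact_mod_cast (by omega : 5 ≤ p)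
    have h3 : a p ≤ 10 * (1 / (p : ℝ)) := by
      rw [ha]
      have := pow6_le (q := 1 / (p : ℝ)) (by positivity) (one_div_le_one_div_of_le (by norm_num) hp5)
      simp only
      linarith
    have h4 : 1 / (p : ℝ) ≤ 1 / √(w : ℝ) * (1 / √(p : ℝ)) := by
      have e0 : 1 / √(w : ℝ) * (1 / √(p : ℝ)) = 1 / (√(w : ℝ) * √(p : ℝ)) := by
        rw [div_mul_div_comm, one_mul]
      rw [e0]
      apply one_div_le_one_div_of_le (by positivity)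
      calc √(w : ℝ) * √(p : ℝ) ≤ √(p : ℝ) * √(p : ℝ) := by
            apply mul_le_mul_of_nonneg_right _ (Real.sqrt_nonneg _)
            exact Real.sqrt_le_sqrt (by exact_mod_cast hwp.le)
        _ = p := Real.mul_self_sqrt hp0.le
    calc a p ≤ 10 * (1 / (p : ℝ)) := h3
      _ ≤ 10 * (1 / √(w : ℝ) * (1 / √(p : ℝ))) := mul_le_mul_of_nonneg_left h4 (by norm_num)
      _ = _ := by ring
  have h5 := prod_sub_one_le T a ha0
  have h6 : ∑ p ∈ T, a p ≤ 10 / √(w : ℝ) * ∏ p ∈ T, (1 + 1 / √(p : ℝ)) := by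
    refine (sum_le_sum ha1).trans ?_
    rw [← mul_sum]
    apply mul_le_mul_of_nonneg_left _ (by positivity)
    exact sum_le_prod T (fun p => 1 / √(p : ℝ)) (fun p _ => by positivity)
  have h7 : ∏ p ∈ T, (1 + a p) ≤ (∏ p ∈ T, (1 + 1 / √(p : ℝ))) ^ 6 := by
    rw [hprod, ← prod_pow]
    apply prod_le_prod (fun p _ => by positivity)
    intro p hp
    obtain ⟨hpp, _⟩ := hTp p hp
    have hp1 : (1 : ℝ) ≤ p := by exact_mod_cast hpp.one_le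
    apply pow_le_pow_left₀ (by positivity)
    have : 1 / (p : ℝ) ≤ 1 / √(p : ℝ) := by
      apply one_div_le_one_div_of_le (by positivity)
      rw [Real.sqrt_le_left (by positivity)]
      nlinarith
    linarith
  have h8 : ∏ p ∈ T, (1 + 1 / √(p : ℝ)) ≤ Hc c Y := by
    unfold Hc
    have hsub : T ⊆ Bd c Y := by rw [hT]; exact filter_subset _ _
    rw [← prod_sdiff hsub]
    have h1 := one_le_prodR (Bd c Y \ T) (fun p => 1 + 1 / √(p : ℝ)) one_le_fac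
    have h2 := one_le_prodR T (fun p => 1 + 1 / √(p : ℝ)) one_le_fac
    nlinarith
  have h9 : 1 ≤ ∏ p ∈ T, (1 + 1 / √(p : ℝ)) := one_le_prodR _ _ one_le_fac
  obtain ⟨t, ht⟩ : ∃ t : ℝ, t = ∏ p ∈ T, (1 + 1 / √(p : ℝ)) := ⟨_, rfl⟩
  rw [← ht] at h6 h7 h8 h9
  have h10 : ∏ p ∈ T, (1 + a p) ≤ 1 + 10 / √(w : ℝ) * t ^ 7 := by
    have h11 : (∑ p ∈ T, a p) * ∏ p ∈ T, (1 + a p) ≤ (10 / √(w : ℝ) * t) * t ^ 6 := by
      apply mul_le_mul h6 h7 _ (by positivity)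
      exact prod_nonneg fun p hp => by have := ha0 p hp; linarith
    calc ∏ p ∈ T, (1 + a p) ≤ 1 + (∑ p ∈ T, a p) * ∏ p ∈ T, (1 + a p) := by linarith
      _ ≤ 1 + (10 / √(w : ℝ) * t) * t ^ 6 := by linarith
      _ = _ := by ring
  rw [hprod] at h10
  refine h1.trans (h10.trans ?_)
  have h12 : t ^ 7 ≤ Hc c Y ^ 7 := pow_le_pow_left₀ (by linarith) h8 7
  have h13 : 0 ≤ 10 / √(w : ℝ) := by positivity
  have := mul_le_mul_of_nonneg_left h12 h13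
  linarith

lemma prod_ge_one_sub (T : Finset ℕ) (a : ℕ → ℝ) (ha : ∀ p ∈ T, 0 ≤ a p) (ha1 : ∀ p ∈ T, a p ≤ 1) :
    1 - ∑ p ∈ T, a p ≤ ∏ p ∈ T, (1 - a p) := by
  classical
  induction T using Finset.induction_on with
  | empty => simp
  | insert b s hb ih =>
    rw [prod_insert hb, sum_insert hb]
    have h1 := ih (fun p hp => ha p (mem_insert_of_mem hp)) (fun p hp => ha1 p (mem_insert_of_mem hp))
    have h2 := ha b (mem_insert_self _ _)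
    have h3 := ha1 b (mem_insert_self _ _)
    have h4 : ∏ p ∈ s, (1 - a p) ≤ 1 := by
      apply prod_le_one
      · intro p hp; have := ha1 p (mem_insert_of_mem hp); linarith
      · intro p hp; have := ha p (mem_insert_of_mem hp); linarith
    nlinarith

lemma sum_tail (w n : ℕ) (hw : 1 ≤ w) (hn : w ≤ n) : ∑ j ∈ Ioc w n, 1 / (j : ℝ) ^ 2 ≤ 1 / (w : ℝ) - 1 / (n : ℝ) := by
  induction n, hn using Nat.le_induction with
  | base => simp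
  | succ n hn ih =>
    rw [Finset.sum_Ioc_succ_top (by omega)]
    have hn' : (1 : ℝ) ≤ n := by exact_mod_cast (by omega : 1 ≤ n)
    have h1 : 1 / ((n + 1 : ℕ) : ℝ) ^ 2 ≤ 1 / n - 1 / ((n + 1 : ℕ) : ℝ) := by
      push_cast
      rw [div_sub_div _ _ (by positivity) (by positivity), div_le_div_iff₀ (by positivity) (by positivity)]
      nlinarith
    linarith

lemma Rz_ge (u : ℤ) (hu : u = 1 ∨ u = 2) (c : Fin 4 → ℤ) (z : Fin 4 → ℕ) (w Y : ℕ) (hw : 4 ≤ w) (hwY : w ≤ Y) :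
    1 - 16 / √(w : ℝ) ≤ Rz u c z w Y := by
  have hw0 : (1 : ℝ) ≤ w := by exact_mod_cast (by omega : 1 ≤ w)
  have hmem : ∀ p ∈ (pz Y).filter (fun p => w < p), p.Prime ∧ w < p := by
    intro p hp
    rw [mem_filter, mem_pz] at hp
    exact ⟨hp.1.2, hp.2⟩
  have hle : ∀ p ∈ (pz Y).filter (fun p => w < p), 16 / (p : ℝ) ^ 2 ≤ 1 := by
    intro p hp
    have hp5 : (5 : ℝ) ≤ p := by exact_mod_cast (by have := (hmem p hp).2; omega : 5 ≤ p)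
    rw [div_le_one (by positivity)]
    nlinarith
  have h1 : ∏ p ∈ (pz Y).filter (fun p => w < p), (1 - 16 / (p : ℝ) ^ 2) ≤ Rz u c z w Y := by
    unfold Rz
    apply prod_le_prod
    · intro p hp
      have := hle p hp
      linarith
    · intro p hp
      obtain ⟨hpp, hwp⟩ := hmem p hp
      exact fl_ge u c z hpp (by omega) (not_dvd_u hu (by omega))
  have h2 := prod_ge_one_sub ((pz Y).filter (fun p => w < p)) (fun p => 16 / (p : ℝ) ^ 2) (fun p _ => by positivity) hle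
  have h3 : ∑ p ∈ (pz Y).filter (fun p => w < p), 16 / (p : ℝ) ^ 2 ≤ 16 / (w : ℝ) := by
    have e : ∑ p ∈ (pz Y).filter (fun p => w < p), 16 / (p : ℝ) ^ 2 = 16 * ∑ p ∈ (pz Y).filter (fun p => w < p), 1 / (p : ℝ) ^ 2 := by
      rw [mul_sum]; exact sum_congr rfl fun p _ => by ring
    have h4 : ∑ p ∈ (pz Y).filter (fun p => w < p), 1 / (p : ℝ) ^ 2 ≤ ∑ j ∈ Ioc w Y, 1 / (j : ℝ) ^ 2 := by
      apply sum_le_sum_of_subset_of_nonneg
      · intro p hp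
        rw [mem_filter, mem_pz] at hp
        rw [mem_Ioc]
        exact ⟨hp.2, hp.1.1⟩
      · intro _ _ _; positivity
    have h5 := sum_tail w Y (by omega) hwY
    have h6 : (0 : ℝ) ≤ 1 / (Y : ℝ) := by positivity
    rw [e]
    calc 16 * ∑ p ∈ (pz Y).filter (fun p => w < p), 1 / (p : ℝ) ^ 2 ≤ 16 * (1 / (w : ℝ)) := by
          apply mul_le_mul_of_nonneg_left _ (by norm_num)
          linarith
      _ = _ := by ring
  have h7 : 16 / (w : ℝ) ≤ 16 / √(w : ℝ) := by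
    apply div_le_div_of_nonneg_left (by norm_num) (by positivity)
    rw [Real.sqrt_le_left (by positivity)]
    nlinarith
  linarith

lemma Rz_sub (u : ℤ) (hu : u = 1 ∨ u = 2) (c : Fin 4 → ℤ) (z : Fin 4 → ℕ) (w Y : ℕ) (hw : 4 ≤ w) (hwY : w ≤ Y) :
    |Rz u c z w Y - 1| ≤ 16 / √(w : ℝ) * Hc c Y ^ 7 := by
  have h1 := Rz_le u hu c z w Y hw
  have h2 := Rz_ge u hu c z w Y hw hwY
  have h3 : 1 ≤ Hc c Y ^ 7 := one_le_pow₀ (one_le_Hc c Y)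
  have h4 : (0 : ℝ) ≤ 1 / √(w : ℝ) := by positivity
  have e1 : 10 / √(w : ℝ) * Hc c Y ^ 7 = 10 * (1 / √(w : ℝ) * Hc c Y ^ 7) := by ring
  have e2 : 16 / √(w : ℝ) * Hc c Y ^ 7 = 16 * (1 / √(w : ℝ) * Hc c Y ^ 7) := by ring
  have e3 : 16 / √(w : ℝ) = 16 * (1 / √(w : ℝ)) := by ring
  have h5 : 1 / √(w : ℝ) ≤ 1 / √(w : ℝ) * Hc c Y ^ 7 := le_mul_of_one_le_right h4 h3
  rw [e1] at h1
  rw [e3] at h2
  rw [abs_le, e2]
  constructor
  · linarith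
  · have : 0 ≤ 1 / √(w : ℝ) * Hc c Y ^ 7 := h4.trans h5
    linarith

/-- the asymptotic sieve -/
theorem sieve2 (ε : ℝ) (hε : 0 < ε) : ∃ K x0 : ℕ, 1 ≤ K ∧ ∀ x Y w : ℕ, x0 ≤ Y → Y ^ K ≤ x → 4 ≤ w →
    ∀ u : ℤ, (u = 1 ∨ u = 2) → ∀ (c : Fin 4 → ℤ) (z : Fin 4 → ℕ), (∀ i, w ≤ z i) → (∀ i, z i ≤ Y) →
    ∀ X1 X2 N : ℕ, X1 ≤ X2 → X2 ≤ N →
    |∑ r ∈ Ioc X1 X2, ∏ i, lz (z i) (u * r + c i) - ((X2 : ℝ) - X1) * Sw u c w| ≤
      N * Hc c Y ^ 13 * (256 / √(w : ℝ) + 32 * ε) + 2 * √(x : ℝ) * ∏ i, (Vz (z i))⁻¹ := by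
  obtain ⟨K, x0, hK, h⟩ := sieve1 ε hε
  refine ⟨K, x0, hK, fun x Y w hx0 hYK hw u hu c z hwz hz X1 X2 N hX hN => ?_⟩
  have hwY : w ≤ Y := (hwz 0).trans (hz 0)
  have h1 := h x Y hx0 hYK u hu c z hz X1 X2 hX
  have h2 := Sz_split u c z w Y hwz hwY
  have h3 := Rz_sub u hu c z w Y hw hwY
  have h4 : Sw u c w ≤ 16 * Hc c Y ^ 6 := by
    refine (Sz_le u hu c _ w).trans ?_
    apply mul_le_mul_of_nonneg_left _ (by norm_num)
    exact pow_le_pow_left₀ (by linarith [one_le_Hc c w]) (Hc_mono c hwY) 6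
  have h5 := Sz_le u hu c z Y
  have h6 := Sw_nonneg u c w
  have h7 := Sz_nonneg u c z Y
  have h8 := one_le_Hc c Y
  obtain ⟨H, hH⟩ : ∃ H, H = Hc c Y := ⟨_, rfl⟩
  rw [← hH] at h3 h4 h5 h8 ⊢
  have hNr : (X2 : ℝ) ≤ N := by exact_mod_cast hN
  have hXr : (X1 : ℝ) ≤ X2 := by exact_mod_cast hX
  have hX0 : (0 : ℝ) ≤ X1 := Nat.cast_nonneg _
  have hN0 : (0 : ℝ) ≤ N := Nat.cast_nonneg _
  have e : ∑ r ∈ Ioc X1 X2, ∏ i, lz (z i) (u * r + c i) - ((X2 : ℝ) - X1) * Sw u c w =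
      (∑ r ∈ Ioc X1 X2, ∏ i, lz (z i) (u * r + c i) - ((X2 : ℝ) - X1) * Sz u c z Y) +
      ((X2 : ℝ) - X1) * (Sw u c w * (Rz u c z w Y - 1)) := by
    rw [h2]; ring
  rw [e]
  refine (abs_add_le _ _).trans ?_
  have h9 : |((X2 : ℝ) - X1) * (Sw u c w * (Rz u c z w Y - 1))| ≤ N * ((16 * H ^ 6) * (16 / √(w : ℝ) * H ^ 7)) := by
    rw [abs_mul, abs_of_nonneg (by linarith : 0 ≤ (X2 : ℝ) - X1), abs_mul, abs_of_nonneg h6]
    apply mul_le_mul (by linarith) _ (by positivity) hN0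
    exact mul_le_mul h4 h3 (abs_nonneg _) (by positivity)
  have h10 : ε * (X1 + X2) * Sz u c z Y ≤ ε * (N + N) * (16 * H ^ 6) := by
    apply mul_le_mul _ h5 h7 (by positivity)
    apply mul_le_mul_of_nonneg_left _ hε.le
    linarith
  have h11 : H ^ 6 ≤ H ^ 13 := pow_le_pow_right₀ h8 (by norm_num)
  have h12 : ε * (N + N) * (16 * H ^ 6) ≤ ε * (N + N) * (16 * H ^ 13) := by
    apply mul_le_mul_of_nonneg_left _ (by positivity)
    linarith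
  calc _ ≤ (ε * (X1 + X2) * Sz u c z Y + 2 * √(x : ℝ) * ∏ i, (Vz (z i))⁻¹) + N * ((16 * H ^ 6) * (16 / √(w : ℝ) * H ^ 7)) :=
        add_le_add h1 h9
    _ ≤ (ε * (N + N) * (16 * H ^ 13) + 2 * √(x : ℝ) * ∏ i, (Vz (z i))⁻¹) + N * ((16 * H ^ 6) * (16 / √(w : ℝ) * H ^ 7)) := by
        linarith
    _ = _ := by ring

/-- the upper bound sieve -/
theorem sieve3 : ∃ K x0 : ℕ, 1 ≤ K ∧ ∀ x Y : ℕ, x0 ≤ Y → Y ^ K ≤ x →
    ∀ u : ℤ, (u = 1 ∨ u = 2) → ∀ (c : Fin 4 → ℤ) (z : Fin 4 → ℕ), (∀ i, z i ≤ Y) → ∀ X : ℕ,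
    ∑ r ∈ Ioc 0 X, ∏ i, lz (z i) (u * r + c i) ≤ 2 * X * Sz u c z Y + 2 * √(x : ℝ) * ∏ i, (Vz (z i))⁻¹ := by
  obtain ⟨K, x0, hK, h⟩ := sieve1 1 one_pos
  refine ⟨K, x0, hK, fun x Y hx0 hYK u hu c z hz X => ?_⟩
  have h1 := h x Y hx0 hYK u hu c z hz 0 X (Nat.zero_le _)
  have h2 := (abs_le.1 h1).2
  push_cast at h2
  linarith

end Pool.Agent.W2helper88.GR
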