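import Pool.Agent.W2helper88.GR.Fou

set_option autoImplicit false

/-!
# Project GR (helper88): sums over quadruples, error terms of the sieve
-/

namespace Pool.Agent.W2helper88.GR

open Finset Filter
open Pool.Agent.H373R2.T7 (pz Vz lamz mem_pz nuB PerB nuB_le sys_fund Vz_pos)

/-- the sieve on an interval of integers -/
theorem intv (ε : ℝ) (hε : 0 < ε) : ∃ K x0 : ℕ, 1 ≤ K ∧ ∀ n Y w : ℕ, x0 ≤ Y → Y ^ K ≤ n → 4 ≤ w →
    ∀ (c : Fin 4 → ℤ) (z : Fin 4 → ℕ), (∀ i, w ≤ z i) → (∀ i, z i ≤ Y) → ∀ lo hi : ℤ, 1 ≤ lo → hi ≤ n →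
    |∑ y ∈ Icc lo hi, (∏ i, lz (z i) (2 * y + c i) - Sw 2 c w)| ≤
      n * Hc c Y ^ 13 * (256 / √(w : ℝ) + 32 * ε) + 2 * √(n : ℝ) * ∏ i, (Vz (z i))⁻¹ := by
  obtain ⟨K, x0, hK, h⟩ := sieve2 ε hε
  refine ⟨K, x0, hK, fun n Y w hx0 hYK hw c z hwz hz lo hi hlo hhi => ?_⟩
  rcases le_or_gt (lo - 1).toNat hi.toNat with h1 | h1
  · have h2 := h n Y w hx0 hYK hw 2 (Or.inr rfl) c z hwz hz (lo - 1).toNat hi.toNat n h1 (by omega)
    have e : ∑ y ∈ Icc lo hi, (∏ i, lz (z i) (2 * y + c i) - Sw 2 c w) =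
        ∑ r ∈ Ioc (lo - 1).toNat hi.toNat, ∏ i, lz (z i) (2 * (r : ℤ) + c i) - ((hi.toNat : ℝ) - ((lo - 1).toNat : ℝ)) * Sw 2 c w := by
      rw [sum_int_nat lo hi hlo, sum_sub_distrib, sum_const, nsmul_eq_mul, Nat.card_Ioc, Nat.cast_sub h1]
    rw [e]
    exact h2
  · have e : Icc lo hi = ∅ := by
      rw [Icc_eq_empty_iff]
      omega
    rw [e, sum_empty, abs_zero]
    have h2 := one_le_Hc c Y
    have h3 : 0 ≤ ∏ i, (Vz (z i))⁻¹ := prod_nonneg fun i _ => inv_nonneg.2 (Vz_pos _).le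
    positivity

lemma Nd_neg {h k : ℤ} (hn : Nd h k) : Nd (-h) k := by
  obtain ⟨h1, h2, h3, h4⟩ := hn
  refine ⟨?_, ?_, ?_, ?_⟩ <;> omega

lemma HH_neg (h k : ℤ) : HH (-h) k = HH h k := by
  unfold HH
  have e1 : (-h).natAbs = h.natAbs := Int.natAbs_neg h
  have e2 : (-h + k).natAbs = (h - k).natAbs := by
    rw [← Int.natAbs_neg]; congr 1; ring
  have e3 : (-h - k).natAbs = (h + k).natAbs := by
    rw [← Int.natAbs_neg]; congr 1; ring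
  rw [e1, e2, e3]
  ring

lemma Sw_le (c : Fin 4 → ℤ) (w : ℕ) : Sw 2 c w ≤ 16 * Hc c w ^ 6 := Sz_le 2 (Or.inr rfl) c _ w

lemma Sw_le_V (u : ℤ) (c : Fin 4 → ℤ) (w : ℕ) : Sw u c w ≤ ((Vz w)⁻¹) ^ 4 := by
  unfold Sw
  rw [← Sz_eq u c (fun _ => w) w (fun _ => le_rfl)]
  have h1 : ∏ p ∈ pz w, (1 - (nuB (Qf u c (fun _ => w)) p : ℝ) / p) ≤ 1 := by
    apply prod_le_one
    · intro p hp
      have hp0 : (0 : ℝ) < p := by exact_mod_cast (mem_pz.1 hp).2.pos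
      rw [sub_nonneg, div_le_one hp0]
      exact_mod_cast nuB_le _ p
    · intro p _
      have : (0 : ℝ) ≤ (nuB (Qf u c (fun _ => w)) p : ℝ) / p := by positivity
      linarith
  have h2 : 0 ≤ ((Vz w)⁻¹) ^ 4 := pow_nonneg (inv_nonneg.2 (Vz_pos w).le) 4
  simp only [Fin.prod_univ_four]
  calc _ ≤ 1 * ((Vz w)⁻¹ * (Vz w)⁻¹ * (Vz w)⁻¹ * (Vz w)⁻¹) := by
        apply mul_le_mul_of_nonneg_right h1
        have := (inv_nonneg.2 (Vz_pos w).le)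
        positivity
    _ = _ := by ring

lemma deg_card (n : ℕ) (hn : 1 ≤ n) :
    ∑ h ∈ Icc (-(n : ℤ)) n, ∑ k ∈ Icc (-(n : ℤ)) n, (if Nd h k then (0 : ℝ) else 1) ≤ 12 * n := by
  have hn1 : (1 : ℝ) ≤ n := by exact_mod_cast hn
  have hcard : ((Icc (-(n : ℤ)) n).card : ℝ) ≤ 3 * n := by
    rw [Int.card_Icc]
    have : ((n : ℤ) + 1 - -(n : ℤ)).toNat = 2 * n + 1 := by omega
    rw [this]; push_cast; linarith
  have h1 : ∀ h ∈ Icc (-(n : ℤ)) n, ∀ k ∈ Icc (-(n : ℤ)) n, (if Nd h k then (0 : ℝ) else 1) ≤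
      (if k = 0 then 1 else 0) + (if k = -h then 1 else 0) + (if k = h then 1 else 0) + (if h = 0 then 1 else 0) := by
    intro h _ k _
    have p1 : (0 : ℝ) ≤ (if k = 0 then 1 else 0) := by split_ifs <;> norm_num
    have p2 : (0 : ℝ) ≤ (if k = -h then 1 else 0) := by split_ifs <;> norm_num
    have p3 : (0 : ℝ) ≤ (if k = h then 1 else 0) := by split_ifs <;> norm_num
    have p4 : (0 : ℝ) ≤ (if h = 0 then 1 else 0) := by split_ifs <;> norm_num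
    by_cases hnd : Nd h k
    · rw [if_pos hnd]
      linarith
    · rw [if_neg hnd]
      have hor : k = 0 ∨ k = -h ∨ k = h ∨ h = 0 := by
        by_contra hcon
        push Not at hcon
        obtain ⟨b1, b2, b3, b4⟩ := hcon
        exact hnd ⟨b4, b1, by omega, by omega⟩
      rcases hor with c1 | c1 | c1 | c1
      · have q1 : (if k = 0 then (1 : ℝ) else 0) = 1 := if_pos c1
        linarith
      · have q2 : (if k = -h then (1 : ℝ) else 0) = 1 := if_pos c1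
        linarith
      · have q3 : (if k = h then (1 : ℝ) else 0) = 1 := if_pos c1
        linarith
      · have q4 : (if h = 0 then (1 : ℝ) else 0) = 1 := if_pos c1
        linarith
  have h2 : ∀ h ∈ Icc (-(n : ℤ)) n, ∀ t : ℤ, ∑ k ∈ Icc (-(n : ℤ)) n, (if k = t then (1 : ℝ) else 0) ≤ 1 := by
    intro h _ t
    rw [sum_ite_eq']
    split_ifs <;> norm_num
  calc ∑ h ∈ Icc (-(n : ℤ)) n, ∑ k ∈ Icc (-(n : ℤ)) n, (if Nd h k then (0 : ℝ) else 1)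
      ≤ ∑ h ∈ Icc (-(n : ℤ)) n, ∑ k ∈ Icc (-(n : ℤ)) n,
        ((if k = 0 then (1 : ℝ) else 0) + (if k = -h then 1 else 0) + (if k = h then 1 else 0) + (if h = 0 then 1 else 0)) :=
        sum_le_sum fun h hh => sum_le_sum fun k hk => h1 h hh k hk
    _ ≤ ∑ h ∈ Icc (-(n : ℤ)) n, (1 + 1 + 1 + (if h = 0 then (1 : ℝ) else 0) * (3 * n)) := by
        refine sum_le_sum fun h hh => ?_
        rw [sum_add_distrib, sum_add_distrib, sum_add_distrib]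
        refine add_le_add (add_le_add (add_le_add (h2 h hh _) (h2 h hh _)) (h2 h hh _)) ?_
        rw [sum_const, nsmul_eq_mul, mul_comm]
        apply mul_le_mul_of_nonneg_left hcard
        split_ifs <;> norm_num
    _ ≤ 12 * n := by
        rw [sum_add_distrib, sum_const, nsmul_eq_mul, ← sum_mul, sum_ite_eq']
        have h3 : (if (0 : ℤ) ∈ Icc (-(n : ℤ)) n then (1 : ℝ) else 0) ≤ 1 := by split_ifs <;> norm_num
        have h4 : (if (0 : ℤ) ∈ Icc (-(n : ℤ)) n then (1 : ℝ) else 0) * (3 * n) ≤ 1 * (3 * n) :=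
          mul_le_mul_of_nonneg_right h3 (by linarith)
        linarith

/-- summation of the error terms -/
theorem err_sum (C6 C19 : ℝ) (h6 : ∀ n : ℕ, 1 ≤ n → ∑ h ∈ Icc (-(n : ℤ)) n, ∑ k ∈ Icc (-(n : ℤ)) n, HH h k ^ 6 ≤ C6 * (n : ℝ) ^ 2)
    (h19 : ∀ n : ℕ, 1 ≤ n → ∑ h ∈ Icc (-(n : ℤ)) n, ∑ k ∈ Icc (-(n : ℤ)) n, HH h k ^ 19 ≤ C19 * (n : ℝ) ^ 2)
    (n : ℕ) (hn : 1 ≤ n) (I : Finset ℤ) (hI : (I.card : ℝ) ≤ 3 * n)
    (A D : ℤ → ℤ → ℤ → ℝ) (CA κ R M : ℝ) (hCA : 0 ≤ CA) (hκ : 0 ≤ κ) (hR : 0 ≤ R) (hM : 0 ≤ M)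
    (hA0 : ∀ h k m, 0 ≤ A h k m)
    (hA : ∀ h k, Nd h k → ∑ m ∈ I, A h k m ≤ CA * n * HH h k ^ 6)
    (hD : ∀ h k, Nd h k → ∀ m ∈ I, |D h k m| ≤ n * HH h k ^ 13 * κ + R)
    (hdeg : ∀ h k, ∀ m ∈ I, |A h k m * D h k m| ≤ n * M) :
    |∑ h ∈ Icc (-(n : ℤ)) n, ∑ k ∈ Icc (-(n : ℤ)) n, ∑ m ∈ I, A h k m * D h k m| ≤
      CA * C19 * κ * n ^ 4 + CA * C6 * R * n ^ 3 + 36 * M * n ^ 3 := by
  have hn1 : (1 : ℝ) ≤ n := by exact_mod_cast hn
  have h1 : ∀ h ∈ Icc (-(n : ℤ)) n, ∀ k ∈ Icc (-(n : ℤ)) n, |∑ m ∈ I, A h k m * D h k m| ≤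
      (CA * κ * n ^ 2) * HH h k ^ 19 + (CA * n * R) * HH h k ^ 6 + (3 * n ^ 2 * M) * (if Nd h k then (0 : ℝ) else 1) := by
    intro h _ k _
    have hH := one_le_HH h k
    by_cases hnd : Nd h k
    · rw [if_pos hnd, mul_zero, add_zero]
      have hE : 0 ≤ n * HH h k ^ 13 * κ + R := by positivity
      calc |∑ m ∈ I, A h k m * D h k m| ≤ ∑ m ∈ I, A h k m * (n * HH h k ^ 13 * κ + R) := by
            refine (abs_sum_le_sum_abs _ _).trans (sum_le_sum fun m hm => ?_)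
            rw [abs_mul, abs_of_nonneg (hA0 h k m)]
            exact mul_le_mul_of_nonneg_left (hD h k hnd m hm) (hA0 h k m)
        _ = (∑ m ∈ I, A h k m) * (n * HH h k ^ 13 * κ + R) := by rw [sum_mul]
        _ ≤ (CA * n * HH h k ^ 6) * (n * HH h k ^ 13 * κ + R) := mul_le_mul_of_nonneg_right (hA h k hnd) hE
        _ = _ := by ring
    · rw [if_neg hnd, mul_one]
      have h2 : |∑ m ∈ I, A h k m * D h k m| ≤ 3 * n ^ 2 * M := by
        calc |∑ m ∈ I, A h k m * D h k m| ≤ ∑ m ∈ I, n * M :=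
              (abs_sum_le_sum_abs _ _).trans (sum_le_sum fun m hm => hdeg h k m hm)
          _ = I.card * (n * M) := by rw [sum_const, nsmul_eq_mul]
          _ ≤ (3 * n) * (n * M) := mul_le_mul_of_nonneg_right hI (by positivity)
          _ = _ := by ring
      have h3 : 0 ≤ (CA * κ * n ^ 2) * HH h k ^ 19 + (CA * n * R) * HH h k ^ 6 := by positivity
      linarith
  calc |∑ h ∈ Icc (-(n : ℤ)) n, ∑ k ∈ Icc (-(n : ℤ)) n, ∑ m ∈ I, A h k m * D h k m|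
      ≤ ∑ h ∈ Icc (-(n : ℤ)) n, ∑ k ∈ Icc (-(n : ℤ)) n,
        ((CA * κ * n ^ 2) * HH h k ^ 19 + (CA * n * R) * HH h k ^ 6 + (3 * n ^ 2 * M) * (if Nd h k then (0 : ℝ) else 1)) := by
        refine (abs_sum_le_sum_abs _ _).trans (sum_le_sum fun h hh => ?_)
        exact (abs_sum_le_sum_abs _ _).trans (sum_le_sum fun k hk => h1 h hh k hk)
    _ = (CA * κ * n ^ 2) * ∑ h ∈ Icc (-(n : ℤ)) n, ∑ k ∈ Icc (-(n : ℤ)) n, HH h k ^ 19 +
        (CA * n * R) * ∑ h ∈ Icc (-(n : ℤ)) n, ∑ k ∈ Icc (-(n : ℤ)) n, HH h k ^ 6 +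
        (3 * n ^ 2 * M) * ∑ h ∈ Icc (-(n : ℤ)) n, ∑ k ∈ Icc (-(n : ℤ)) n, (if Nd h k then (0 : ℝ) else 1) := by
        simp only [sum_add_distrib, mul_sum]
    _ ≤ (CA * κ * n ^ 2) * (C19 * (n : ℝ) ^ 2) + (CA * n * R) * (C6 * (n : ℝ) ^ 2) + (3 * n ^ 2 * M) * (12 * n) := by
        refine add_le_add (add_le_add ?_ ?_) ?_
        · exact mul_le_mul_of_nonneg_left (h19 n hn) (by positivity)
        · exact mul_le_mul_of_nonneg_left (h6 n hn) (by positivity)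
        · exact mul_le_mul_of_nonneg_left (deg_card n hn) (by positivity)
    _ = _ := by ring

/-! ### the patterns of weights -/

noncomputable def aa (n w : ℕ) (e : Bool) (m : ℤ) : ℝ := if e = true then ap n m else lz w m

def zz (Y w : ℕ) (e : Bool) : ℕ := if e = true then Y else w

lemma aa_nonneg (n w : ℕ) (e : Bool) (m : ℤ) : 0 ≤ aa n w e m := by
  unfold aa
  split_ifs
  · exact ap_nonneg _ _
  · exact lz_nonneg _ _

lemma le_zz {Y w : ℕ} (h : w ≤ Y) (e : Bool) : w ≤ zz Y w e := by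
  unfold zz
  split_ifs
  · exact h
  · exact le_rfl

lemma zz_le {Y w : ℕ} (h : w ≤ Y) (e : Bool) : zz Y w e ≤ Y := by
  unfold zz
  split_ifs
  · exact le_rfl
  · exact h

lemma prod4_le_pow (f : Fin 4 → ℝ) (M : ℝ) (h0 : ∀ i, 0 ≤ f i) (h : ∀ i, f i ≤ M) : ∏ i, f i ≤ M ^ 4 := by
  calc ∏ i, f i ≤ ∏ _i : Fin 4, M := prod_le_prod (fun i _ => h0 i) (fun i _ => h i)
    _ = M ^ 4 := by rw [prod_const, card_univ, Fintype.card_fin]

/-- the upper bound for the sums of four weights -/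
theorem La : ∃ CA : ℝ, 0 < CA ∧ ∀ w : ℕ, ∀ᶠ n : ℕ in atTop, ∀ e : Fin 4 → Bool, ∀ h k : ℤ, Nd h k →
    ∑ m ∈ Icc (1 : ℤ) (2 * n : ℕ), ∏ i, aa n w (e i) (pat m h k i) ≤ CA * n * HH h k ^ 6 := by
  obtain ⟨K, x0, hK, hs⟩ := sieve3
  obtain ⟨C1, hC1, hap⟩ := ap_le_lz (max K 2) (le_max_right _ _)
  obtain ⟨C, hC⟩ := V_low
  refine ⟨65 * C1 ^ 4, by positivity, fun w => ?_⟩
  filter_upwards [hap, hC, rt_ge (max K 2) (max x0 (max w 1)) (by omega), eventually_ge_atTop 1, ev_log (4 * C) 2, ev_L 1]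
    with n h1 h2 h3 hn h5 hL e h k hnd
  obtain ⟨Y, hY⟩ : ∃ Y, Y = rt (max K 2) n := ⟨_, rfl⟩
  rw [← hY] at h1 h3
  have hYn : Y ≤ n := by rw [hY]; exact rt_le_self _ _
  have hxY : x0 ≤ Y := le_trans (le_max_left _ _) h3
  have hwY : w ≤ Y := le_trans (le_trans (le_max_left _ _) (le_max_right _ _)) h3
  have h1Y : 1 ≤ Y := le_trans (le_trans (le_max_right _ _) (le_max_right _ _)) h3
  have hYK : Y ^ K ≤ n := by
    calc Y ^ K ≤ Y ^ (max K 2) := Nat.pow_le_pow_right h1Y (le_max_left _ _)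
      _ ≤ n := by rw [hY]; exact rt_le _ n (by omega)
  have hn0 : (0 : ℝ) < n := by exact_mod_cast hn
  have hu : ∀ (b : Bool) (m : ℤ), aa n w b m ≤ C1 * lz (zz Y w b) m := by
    intro b m
    unfold aa zz
    cases b
    · simp only [Bool.false_eq_true, if_false]
      have := lz_nonneg w m
      nlinarith
    · simp only [if_true]
      exact h1 m
  have e1 : ∑ m ∈ Icc (1 : ℤ) (2 * n : ℕ), ∏ i, aa n w (e i) (pat m h k i) ≤
      C1 ^ 4 * ∑ r ∈ Ioc 0 (2 * n), ∏ i, lz (zz Y w (e i)) (1 * (r : ℤ) + pat 0 h k i) := by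
    rw [sum_int_nat 1 _ le_rfl, mul_sum]
    have e2 : ((1 : ℤ) - 1).toNat = 0 := by norm_num
    have e3 : (((2 * n : ℕ) : ℤ)).toNat = 2 * n := Int.toNat_natCast _
    rw [e2, e3]
    refine sum_le_sum fun r _ => ?_
    have e4 : C1 ^ 4 * ∏ i, lz (zz Y w (e i)) (1 * (r : ℤ) + pat 0 h k i) =
        ∏ i, (C1 * lz (zz Y w (e i)) (1 * (r : ℤ) + pat 0 h k i)) := by
      rw [prod_mul_distrib, prod_const, card_univ, Fintype.card_fin]
    rw [e4]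
    refine prod_le_prod (fun i _ => aa_nonneg _ _ _ _) (fun i _ => ?_)
    have e5 : pat (r : ℤ) h k i = 1 * (r : ℤ) + pat 0 h k i := by
      fin_cases i <;> simp [pat] <;> ring
    rw [e5]
    exact hu (e i) _
  refine e1.trans ?_
  have h6 := hs n Y hxY hYK 1 (Or.inl rfl) (pat 0 h k) (fun i => zz Y w (e i)) (fun i => zz_le hwY _) (2 * n)
  have h7 : Sz 1 (pat 0 h k) (fun i => zz Y w (e i)) Y ≤ 16 * HH h k ^ 6 := by
    refine (Sz_le 1 (Or.inl rfl) _ _ _).trans ?_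
    apply mul_le_mul_of_nonneg_left _ (by norm_num)
    exact pow_le_pow_left₀ (by linarith [one_le_Hc (pat 0 h k) Y]) (Hc_pat 0 h k Y hnd) 6
  have h8 : ∏ i, (Vz (zz Y w (e i)))⁻¹ ≤ (Real.log n ^ C) ^ 4 := by
    apply prod4_le_pow
    · intro i; exact inv_nonneg.2 (Vz_pos _).le
    · intro i; exact h2 _ ((zz_le hwY _).trans hYn)
  have h9 : 2 * √(n : ℝ) * ∏ i, (Vz (zz Y w (e i)))⁻¹ ≤ n := by
    calc 2 * √(n : ℝ) * ∏ i, (Vz (zz Y w (e i)))⁻¹ ≤ 2 * √(n : ℝ) * (Real.log n ^ C) ^ 4 :=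
          mul_le_mul_of_nonneg_left h8 (by positivity)
      _ = √(n : ℝ) * (2 * Real.log n ^ (4 * C)) := by rw [← pow_mul, mul_comm C 4]; ring
      _ ≤ √(n : ℝ) * √(n : ℝ) := mul_le_mul_of_nonneg_left h5 (Real.sqrt_nonneg _)
      _ = n := Real.mul_self_sqrt hn0.le
  have hH : 1 ≤ HH h k ^ 6 := one_le_pow₀ (one_le_HH h k)
  have h10 : 2 * ((2 * n : ℕ) : ℝ) * Sz 1 (pat 0 h k) (fun i => zz Y w (e i)) Y ≤ 2 * ((2 * n : ℕ) : ℝ) * (16 * HH h k ^ 6) :=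
    mul_le_mul_of_nonneg_left h7 (by positivity)
  have h11 : ∑ r ∈ Ioc 0 (2 * n), ∏ i, lz (zz Y w (e i)) (1 * (r : ℤ) + pat 0 h k i) ≤ 65 * n * HH h k ^ 6 := by
    push_cast at h10
    push_cast at h6
    nlinarith
  calc C1 ^ 4 * ∑ r ∈ Ioc 0 (2 * n), ∏ i, lz (zz Y w (e i)) (1 * (r : ℤ) + pat 0 h k i) ≤ C1 ^ 4 * (65 * n * HH h k ^ 6) :=
        mul_le_mul_of_nonneg_left h11 (by positivity)
    _ = _ := by ring

end Pool.Agent.W2helper88.GR
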