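import Pool.Agent.W2helper88.GR.Tra

set_option autoImplicit false

/-!
# Project GR (helper88): the trace lemma
-/

namespace Pool.Agent.W2helper88.GR

open Finset Filter
open Pool.Agent.H373R2.T7 (pz Vz lamz mem_pz nuB PerB nuB_le sys_fund Vz_pos)
open Pool.Agent.H807R2.Dav

noncomputable def SBf (w : ℕ) (x x' y y' : ℤ) : ℝ := Sw 2 (df x x' y y') w
noncomputable def SAf (w : ℕ) (x x' y y' : ℤ) : ℝ := Sw 2 (sg x x' y y') w

/-- the sums over quadruples with the pattern `e` -/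
noncomputable def TT (n Y w : ℕ) (e : Fin 4 → Bool) : ℝ :=
  S4 n (fun x x' y y' => (∏ i, aa n w (e i) (sg x x' y y' i)) * ∏ i, lz (zz Y w (e i)) (df x x' y y' i))

lemma sg_R1 (m h k y : ℤ) : sg (m - y) (m - y + h) y (y + k) = pat m h k := by
  funext i
  fin_cases i <;> simp [sg, pat] <;> ring

lemma df_R1 (m h k y : ℤ) : df (m - y) (m - y + h) y (y + k) = fun i => pat (-m) (-h) k i + 2 * y := by
  funext i
  fin_cases i <;> simp [df, pat] <;> ring

lemma sg_R2 (b h k y : ℤ) : sg (b + y) (b + y + h) y (y + k) = fun i => pat b h k i + 2 * y := by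
  funext i
  fin_cases i <;> simp [sg, pat] <;> ring

lemma df_R2 (b h k y : ℤ) : df (b + y) (b + y + h) y (y + k) = pat (-b) (-h) k := by
  funext i
  fin_cases i <;> simp [df, pat] <;> ring

lemma V_low' : ∃ C : ℕ, 1 ≤ C ∧ ∀ᶠ n : ℕ in atTop, ∀ z ≤ n, (Vz z)⁻¹ ≤ Real.log n ^ C := by
  obtain ⟨C, hC⟩ := V_low
  refine ⟨C + 1, by omega, ?_⟩
  filter_upwards [hC, ev_L 1] with n h hL z hz
  exact (h z hz).trans (pow_le_pow_right₀ hL (by omega))

lemma D_bound (n : ℕ) (lo hi : ℤ) (hlo : 1 ≤ lo) (hhi : hi ≤ n) (f : ℤ → ℝ) (s B : ℝ) (h0 : ∀ y, 0 ≤ f y) (h1 : ∀ y, f y ≤ B)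
    (s0 : 0 ≤ s) (s1 : s ≤ B) : |∑ y ∈ Icc lo hi, (f y - s)| ≤ n * B := by
  have hB : 0 ≤ B := s0.trans s1
  calc |∑ y ∈ Icc lo hi, (f y - s)| ≤ ∑ y ∈ Icc lo hi, B := by
        refine (abs_sum_le_sum_abs _ _).trans (sum_le_sum fun y _ => ?_)
        have := h0 y
        have := h1 y
        rw [abs_le]; constructor <;> linarith
    _ = (Icc lo hi).card * B := by rw [sum_const, nsmul_eq_mul]
    _ ≤ n * B := by
        apply mul_le_mul_of_nonneg_right _ hB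
        rw [Int.card_Icc]
        exact_mod_cast (by omega : (hi + 1 - lo).toNat ≤ n)

lemma fin_num (a η X X' s n κ c19 : ℝ) (hη : 0 < η) (ha : 0 ≤ a) (hXX : X' ≤ X) (hX : 1 ≤ X') (hs : 1 ≤ s) (hn : n = s * s)
    (h : (2 * a + 576) / η * X ≤ s) :
    c19 * κ * n ^ 4 + a * (2 * s * X') * n ^ 3 + 36 * (16 * X) * n ^ 3 ≤ (c19 * κ + η) * n ^ 4 := by
  have hX0 : 0 ≤ X := by linarith
  have h1 : (2 * a + 576) * X ≤ η * s := by
    calc (2 * a + 576) * X = η * ((2 * a + 576) / η * X) := by field_simp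
      _ ≤ η * s := mul_le_mul_of_nonneg_left h hη.le
  have hn0 : 0 < n := by rw [hn]; positivity
  have h2 : a * (2 * s * X') ≤ s * (2 * a * X) := by
    have : a * X' ≤ a * X := mul_le_mul_of_nonneg_left hXX ha
    nlinarith
  have h3 : 36 * (16 * X) ≤ s * (576 * X) := by nlinarith
  have h4 : a * (2 * s * X') + 36 * (16 * X) ≤ η * n := by
    calc a * (2 * s * X') + 36 * (16 * X) ≤ s * ((2 * a + 576) * X) := by linarith
      _ ≤ s * (η * s) := mul_le_mul_of_nonneg_left h1 (by linarith)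
      _ = η * n := by rw [hn]; ring
  have h5 : (a * (2 * s * X') + 36 * (16 * X)) * n ^ 3 ≤ (η * n) * n ^ 3 := mul_le_mul_of_nonneg_right h4 (by positivity)
  nlinarith

theorem T1a : ∃ CT : ℝ, 0 < CT ∧ ∀ ε : ℝ, 0 < ε → ∃ K0 : ℕ, ∀ K : ℕ, K0 ≤ K → ∀ w : ℕ, 4 ≤ w → ∀ η : ℝ, 0 < η →
    ∀ᶠ n : ℕ in atTop, ∀ e : Fin 4 → Bool,
    |TT n (rt K n) w e - S4 n (fun x x' y y' => (∏ i, aa n w (e i) (sg x x' y y' i)) * SBf w x x' y y')| ≤
      (CT * (256 / √(w : ℝ) + 32 * ε) + η) * n ^ 4 := by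
  obtain ⟨CA, hCA, hLa⟩ := La
  obtain ⟨C6, hC6, h6⟩ := HH_sum 6
  obtain ⟨C19, hC19, h19⟩ := HH_sum 19
  obtain ⟨C, hC1, hC⟩ := V_low'
  refine ⟨CA * C19, by positivity, fun ε hε => ?_⟩
  obtain ⟨K0, x0, hK0, hint⟩ := intv ε hε
  refine ⟨max K0 1, fun K hK w hw η hη => ?_⟩
  have hK1 : 1 ≤ K := le_trans (le_max_right _ _) hK
  filter_upwards [hLa w, hC, rt_ge K (max x0 (max w 1)) hK1, eventually_ge_atTop 2, ev_log (8 * C) ((2 * (CA * C6) + 576) / η), ev_L 1]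
    with n h1 h2 h3 hn h5 hL e
  obtain ⟨Y, hY⟩ : ∃ Y, Y = rt K n := ⟨_, rfl⟩
  rw [← hY] at h3 ⊢
  have hYn : Y ≤ n := by rw [hY]; exact rt_le_self _ _
  have hxY : x0 ≤ Y := le_trans (le_max_left _ _) h3
  have hwY : w ≤ Y := le_trans (le_trans (le_max_left _ _) (le_max_right _ _)) h3
  have h1Y : 1 ≤ Y := le_trans (le_trans (le_max_right _ _) (le_max_right _ _)) h3
  have hYK : Y ^ K0 ≤ n := by
    calc Y ^ K0 ≤ Y ^ K := Nat.pow_le_pow_right h1Y (le_trans (le_max_left _ _) hK)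
      _ ≤ n := by rw [hY]; exact rt_le _ n hK1
  have hn0 : (0 : ℝ) < n := by exact_mod_cast (by omega : 0 < n)
  have hV4 : ∏ i, (Vz (zz Y w (e i)))⁻¹ ≤ (Real.log n ^ C) ^ 4 := by
    apply prod4_le_pow
    · intro i; exact inv_nonneg.2 (Vz_pos _).le
    · intro i; exact h2 _ ((zz_le hwY _).trans hYn)
  have hLC : 1 ≤ Real.log n ^ C := one_le_pow₀ hL
  obtain ⟨A, hA⟩ : ∃ A : ℤ → ℤ → ℤ → ℝ, A = fun h k m => ∏ i, aa n w (e i) (pat m h k i) := ⟨_, rfl⟩
  obtain ⟨D, hD⟩ : ∃ D : ℤ → ℤ → ℤ → ℝ, D = fun h k m => ∑ y ∈ Icc (lo1 n h k m) (hi1 n h k m),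
      (∏ i, lz (zz Y w (e i)) (2 * y + pat (-m) (-h) k i) - Sw 2 (pat (-m) (-h) k) w) := ⟨_, rfl⟩
  have e1 : TT n Y w e - S4 n (fun x x' y y' => (∏ i, aa n w (e i) (sg x x' y y' i)) * SBf w x x' y y') =
      ∑ h ∈ Icc (-(n : ℤ)) n, ∑ k ∈ Icc (-(n : ℤ)) n, ∑ m ∈ Icc (1 : ℤ) (2 * n : ℕ), A h k m * D h k m := by
    unfold TT
    rw [← S4_sub, R1]
    refine sum_congr rfl fun h _ => sum_congr rfl fun k _ => sum_congr rfl fun m _ => ?_
    rw [hA, hD]
    simp only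
    rw [mul_sum]
    refine sum_congr rfl fun y _ => ?_
    unfold SBf
    rw [sg_R1, df_R1, Sw_shift 2 (Or.inr rfl), mul_sub]
    congr 1
    congr 1
    refine prod_congr rfl fun i _ => ?_
    rw [add_comm]
  rw [e1]
  have haa : ∀ (b : Bool) (m : ℤ), aa n w b m ≤ 2 * Real.log n ^ C := by
    intro b m
    unfold aa
    split_ifs
    · refine (ap_le n hn m).trans ?_
      have : Real.log n ^ 1 ≤ Real.log n ^ C := pow_le_pow_right₀ hL hC1
      rw [pow_one] at this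
      linarith
    · refine (lz_le w m).trans ((h2 w (hwY.trans hYn)).trans ?_)
      linarith
  have hmain := err_sum C6 C19 h6 h19 n (by omega) (Icc (1 : ℤ) (2 * n : ℕ)) (by
      rw [Int.card_Icc]
      have : (((2 * n : ℕ) : ℤ) + 1 - 1).toNat = 2 * n := by omega
      rw [this]; push_cast; linarith) A D CA (256 / √(w : ℝ) + 32 * ε) (2 * √(n : ℝ) * (Real.log n ^ C) ^ 4) (16 * (Real.log n ^ C) ^ 8)
    hCA.le (by positivity) (by positivity) (by positivity)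
    (fun h k m => by rw [hA]; exact prod_nonneg fun i _ => aa_nonneg _ _ _ _)
    (fun h k hnd => by rw [hA]; exact h1 e h k hnd)
    (fun h k hnd m _ => by
      rw [hD]
      have h7 := hint n Y w hxY hYK hw (pat (-m) (-h) k) (fun i => zz Y w (e i)) (fun i => le_zz hwY _) (fun i => zz_le hwY _)
        (lo1 n h k m) (hi1 n h k m) (lo1_ge n h k m) (hi1_le n h k m)
      refine h7.trans (add_le_add ?_ ?_)
      · apply mul_le_mul_of_nonneg_right _ (by positivity)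
        apply mul_le_mul_of_nonneg_left _ hn0.le
        apply pow_le_pow_left₀ (by linarith [one_le_Hc (pat (-m) (-h) k) Y])
        rw [← HH_neg]
        exact Hc_pat _ _ _ _ (Nd_neg hnd)
      · exact mul_le_mul_of_nonneg_left hV4 (by positivity))
    (fun h k m _ => by
      rw [hA, hD]
      simp only
      rw [abs_mul, abs_of_nonneg (prod_nonneg fun i _ => aa_nonneg _ _ _ _)]
      have h8 : ∏ i, aa n w (e i) (pat m h k i) ≤ (2 * Real.log n ^ C) ^ 4 :=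
        prod4_le_pow _ _ (fun i => aa_nonneg _ _ _ _) (fun i => haa _ _)
      have h9 := D_bound n (lo1 n h k m) (hi1 n h k m) (lo1_ge n h k m) (hi1_le n h k m)
        (fun y => ∏ i, lz (zz Y w (e i)) (2 * y + pat (-m) (-h) k i)) (Sw 2 (pat (-m) (-h) k) w) ((Real.log n ^ C) ^ 4)
        (fun y => prod_nonneg fun i _ => lz_nonneg _ _)
        (fun y => prod4_le_pow _ _ (fun i => lz_nonneg _ _) (fun i => (lz_le _ _).trans (h2 _ ((zz_le hwY _).trans hYn))))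
        (Sw_nonneg _ _ _) ((Sw_le_V _ _ _).trans (pow_le_pow_left₀ (inv_nonneg.2 (Vz_pos _).le) (h2 w (hwY.trans hYn)) 4))
      calc (∏ i, aa n w (e i) (pat m h k i)) * _ ≤ (2 * Real.log n ^ C) ^ 4 * (n * (Real.log n ^ C) ^ 4) :=
            mul_le_mul h8 h9 (abs_nonneg _) (by positivity)
        _ = _ := by ring)
  refine hmain.trans ?_
  have h10 : (Real.log n ^ C) ^ 8 = Real.log n ^ (8 * C) := by rw [← pow_mul, mul_comm]
  rw [h10]
  have h11 : (Real.log n ^ C) ^ 4 ≤ Real.log n ^ (8 * C) := by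
    rw [← h10]
    exact pow_le_pow_right₀ hLC (by norm_num)
  exact fin_num (CA * C6) η (Real.log n ^ (8 * C)) ((Real.log n ^ C) ^ 4) (√(n : ℝ)) n (256 / √(w : ℝ) + 32 * ε) (CA * C19) hη
    (by positivity) h11 (one_le_pow₀ hLC) (by
      rw [Real.one_le_sqrt]
      exact_mod_cast (by omega : 1 ≤ n)) (Real.mul_self_sqrt hn0.le).symm h5

lemma zp_small (B K : ℕ) : ∀ᶠ n : ℕ in atTop, zp B n ^ K ≤ n := by
  filter_upwards [zp_le B, ev_log ((B + 1) * K) (2 ^ ((B + 1) * K)), eventually_ge_atTop 2] with n h1 h2 hn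
  have hn' : (2 : ℝ) ≤ n := by exact_mod_cast hn
  have hL : 0 < Real.log n := Real.log_pos (by linarith)
  have h6 : Real.log (((2 * n : ℕ) : ℝ)) ≤ 2 * Real.log n := by
    calc Real.log (((2 * n : ℕ) : ℝ)) ≤ Real.log ((n : ℝ) ^ 2) := by
          apply Real.log_le_log (by push_cast; linarith)
          push_cast; nlinarith
      _ = 2 * Real.log n := by rw [Real.log_pow]; norm_num
  have h60 : 0 ≤ Real.log (((2 * n : ℕ) : ℝ)) := Real.log_natCast_nonneg _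
  have h3 : (zp B n : ℝ) ^ K ≤ n := by
    calc (zp B n : ℝ) ^ K ≤ (Real.log ((2 * n : ℕ) : ℝ) ^ (B + 1)) ^ K := pow_le_pow_left₀ (Nat.cast_nonneg _) h1 K
      _ ≤ ((2 * Real.log n) ^ (B + 1)) ^ K := pow_le_pow_left₀ (by positivity) (pow_le_pow_left₀ h60 h6 _) K
      _ = 2 ^ ((B + 1) * K) * Real.log n ^ ((B + 1) * K) := by rw [← pow_mul, mul_pow]
      _ ≤ √(n : ℝ) := h2
      _ ≤ n := by
        rw [Real.sqrt_le_left (by linarith)]
        nlinarith
  exact_mod_cast h3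

lemma zp_ge (B M : ℕ) (hB : 1 ≤ B) : ∀ᶠ n : ℕ in atTop, M ≤ zp B n := by
  filter_upwards [ev_L (max M 1), eventually_ge_atTop 1] with n h hn
  have hn0 : (0 : ℝ) < n := by exact_mod_cast hn
  have h1 : (M : ℝ) ≤ zp B n := by
    have h2 : max (M : ℝ) 1 ≤ Real.log ((2 * n : ℕ) : ℝ) := h.trans (Real.log_le_log hn0 (by push_cast; linarith))
    have h3 : (1 : ℝ) ≤ Real.log ((2 * n : ℕ) : ℝ) := (le_max_right _ _).trans h2
    calc (M : ℝ) ≤ Real.log ((2 * n : ℕ) : ℝ) := (le_max_left _ _).trans h2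
      _ = Real.log ((2 * n : ℕ) : ℝ) ^ 1 := (pow_one _).symm
      _ ≤ Real.log ((2 * n : ℕ) : ℝ) ^ B := pow_le_pow_right₀ h3 hB
      _ ≤ zp B n := Nat.le_ceil _
  exact_mod_cast h1

theorem T1c : ∃ CT : ℝ, 0 < CT ∧ ∀ ε : ℝ, 0 < ε → ∀ B : ℕ, 1 ≤ B → ∀ w : ℕ, 4 ≤ w → ∀ η : ℝ, 0 < η →
    ∀ᶠ n : ℕ in atTop, ∀ e : Fin 4 → Bool,
    |S4 n (fun x x' y y' => (∏ i, lz (zz (zp B n) w (e i)) (sg x x' y y' i)) * SBf w x x' y y') -
      S4 n (fun x x' y y' => SAf w x x' y y' * SBf w x x' y y')| ≤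
      (CT * (256 / √(w : ℝ) + 32 * ε) + η) * n ^ 4 := by
  obtain ⟨C6, hC6, h6⟩ := HH_sum 6
  obtain ⟨C19, hC19, h19⟩ := HH_sum 19
  obtain ⟨C, hC1, hC⟩ := V_low'
  refine ⟨48 * C19, by positivity, fun ε hε B hB w hw η hη => ?_⟩
  obtain ⟨K0, x0, hK0, hint⟩ := intv ε hε
  filter_upwards [hC, zp_ge B (max x0 (max w 1)) hB, zp_small B K0, eventually_ge_atTop 2,
    ev_log (8 * C) ((2 * (48 * C6) + 576) / η), ev_L 1]
    with n h2 h3 hYK hn h5 hL e
  obtain ⟨Y, hY⟩ : ∃ Y, Y = zp B n := ⟨_, rfl⟩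
  rw [← hY] at h3 hYK ⊢
  have hxY : x0 ≤ Y := le_trans (le_max_left _ _) h3
  have hwY : w ≤ Y := le_trans (le_trans (le_max_left _ _) (le_max_right _ _)) h3
  have h1Y : 1 ≤ Y := le_trans (le_trans (le_max_right _ _) (le_max_right _ _)) h3
  have hYn : Y ≤ n := (Nat.le_self_pow (by omega) Y).trans hYK
  have hn0 : (0 : ℝ) < n := by exact_mod_cast (by omega : 0 < n)
  have hn1 : (1 : ℝ) ≤ n := by exact_mod_cast (by omega : 1 ≤ n)
  have hV4 : ∏ i, (Vz (zz Y w (e i)))⁻¹ ≤ (Real.log n ^ C) ^ 4 := by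
    apply prod4_le_pow
    · intro i; exact inv_nonneg.2 (Vz_pos _).le
    · intro i; exact h2 _ ((zz_le hwY _).trans hYn)
  have hLC : 1 ≤ Real.log n ^ C := one_le_pow₀ hL
  obtain ⟨A, hA⟩ : ∃ A : ℤ → ℤ → ℤ → ℝ, A = fun h k b => Sw 2 (pat (-b) (-h) k) w := ⟨_, rfl⟩
  obtain ⟨D, hD⟩ : ∃ D : ℤ → ℤ → ℤ → ℝ, D = fun h k b => ∑ y ∈ Icc (lo2 n h k b) (hi2 n h k b),
      (∏ i, lz (zz Y w (e i)) (2 * y + pat b h k i) - Sw 2 (pat b h k) w) := ⟨_, rfl⟩
  have e1 : S4 n (fun x x' y y' => (∏ i, lz (zz Y w (e i)) (sg x x' y y' i)) * SBf w x x' y y') -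
      S4 n (fun x x' y y' => SAf w x x' y y' * SBf w x x' y y') =
      ∑ h ∈ Icc (-(n : ℤ)) n, ∑ k ∈ Icc (-(n : ℤ)) n, ∑ b ∈ Icc (-(n : ℤ)) n, A h k b * D h k b := by
    rw [← S4_sub, R2]
    refine sum_congr rfl fun h _ => sum_congr rfl fun k _ => sum_congr rfl fun b _ => ?_
    rw [hA, hD]
    simp only
    rw [mul_sum]
    refine sum_congr rfl fun y _ => ?_
    unfold SBf SAf
    rw [sg_R2, df_R2, Sw_shift 2 (Or.inr rfl), ← sub_mul, mul_comm]
    congr 1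
    congr 1
    refine prod_congr rfl fun i _ => ?_
    rw [add_comm]
  rw [e1]
  have hSV : ∀ c : Fin 4 → ℤ, Sw 2 c w ≤ (Real.log n ^ C) ^ 4 := fun c =>
    (Sw_le_V _ _ _).trans (pow_le_pow_left₀ (inv_nonneg.2 (Vz_pos _).le) (h2 w (hwY.trans hYn)) 4)
  have hcard : ((Icc (-(n : ℤ)) n).card : ℝ) ≤ 3 * n := by
    rw [Int.card_Icc]
    have : ((n : ℤ) + 1 - -(n : ℤ)).toNat = 2 * n + 1 := by omega
    rw [this]; push_cast; linarith
  have hmain := err_sum C6 C19 h6 h19 n (by omega) (Icc (-(n : ℤ)) n) hcard A D 48 (256 / √(w : ℝ) + 32 * ε)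
    (2 * √(n : ℝ) * (Real.log n ^ C) ^ 4) (16 * (Real.log n ^ C) ^ 8)
    (by norm_num) (by positivity) (by positivity) (by positivity)
    (fun h k m => by rw [hA]; exact Sw_nonneg _ _ _)
    (fun h k hnd => by
      rw [hA]
      have h7 : ∀ b ∈ Icc (-(n : ℤ)) n, Sw 2 (pat (-b) (-h) k) w ≤ 16 * HH h k ^ 6 := by
        intro b _
        refine (Sw_le _ _).trans ?_
        apply mul_le_mul_of_nonneg_left _ (by norm_num)
        apply pow_le_pow_left₀ (by linarith [one_le_Hc (pat (-b) (-h) k) w])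
        rw [← HH_neg]
        exact Hc_pat _ _ _ _ (Nd_neg hnd)
      calc ∑ b ∈ Icc (-(n : ℤ)) n, Sw 2 (pat (-b) (-h) k) w ≤ ∑ b ∈ Icc (-(n : ℤ)) n, 16 * HH h k ^ 6 := sum_le_sum h7
        _ = (Icc (-(n : ℤ)) n).card * (16 * HH h k ^ 6) := by rw [sum_const, nsmul_eq_mul]
        _ ≤ (3 * n) * (16 * HH h k ^ 6) := by
            apply mul_le_mul_of_nonneg_right hcard
            have := one_le_HH h k
            positivity
        _ = _ := by ring)
    (fun h k hnd b _ => by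
      rw [hD]
      have h7 := hint n Y w hxY hYK hw (pat b h k) (fun i => zz Y w (e i)) (fun i => le_zz hwY _) (fun i => zz_le hwY _)
        (lo2 n h k b) (hi2 n h k b) (lo2_ge n h k b) (hi2_le n h k b)
      refine h7.trans (add_le_add ?_ ?_)
      · apply mul_le_mul_of_nonneg_right _ (by positivity)
        apply mul_le_mul_of_nonneg_left _ hn0.le
        apply pow_le_pow_left₀ (by linarith [one_le_Hc (pat b h k) Y])
        exact Hc_pat _ _ _ _ hnd
      · exact mul_le_mul_of_nonneg_left hV4 (by positivity))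
    (fun h k b _ => by
      rw [hA, hD]
      simp only
      rw [abs_mul, abs_of_nonneg (Sw_nonneg _ _ _)]
      have h9 := D_bound n (lo2 n h k b) (hi2 n h k b) (lo2_ge n h k b) (hi2_le n h k b)
        (fun y => ∏ i, lz (zz Y w (e i)) (2 * y + pat b h k i)) (Sw 2 (pat b h k) w) ((Real.log n ^ C) ^ 4)
        (fun y => prod_nonneg fun i _ => lz_nonneg _ _)
        (fun y => prod4_le_pow _ _ (fun i => lz_nonneg _ _) (fun i => (lz_le _ _).trans (h2 _ ((zz_le hwY _).trans hYn))))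
        (Sw_nonneg _ _ _) (hSV _)
      calc Sw 2 (pat (-b) (-h) k) w * _ ≤ (Real.log n ^ C) ^ 4 * (n * (Real.log n ^ C) ^ 4) :=
            mul_le_mul (hSV _) h9 (abs_nonneg _) (by positivity)
        _ = n * (Real.log n ^ C) ^ 8 := by ring
        _ ≤ n * (16 * (Real.log n ^ C) ^ 8) := by
            apply mul_le_mul_of_nonneg_left _ hn0.le
            have : 0 ≤ (Real.log n ^ C) ^ 8 := by positivity
            linarith)
  refine hmain.trans ?_
  have h10 : (Real.log n ^ C) ^ 8 = Real.log n ^ (8 * C) := by rw [← pow_mul, mul_comm]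
  rw [h10]
  have h11 : (Real.log n ^ C) ^ 4 ≤ Real.log n ^ (8 * C) := by
    rw [← h10]
    exact pow_le_pow_right₀ hLC (by norm_num)
  exact fin_num (48 * C6) η (Real.log n ^ (8 * C)) ((Real.log n ^ C) ^ 4) (√(n : ℝ)) n (256 / √(w : ℝ) + 32 * ε) (48 * C19) hη
    (by positivity) h11 (one_le_pow₀ hLC) (by
      rw [Real.one_le_sqrt]
      exact hn1) (Real.mul_self_sqrt hn0.le).symm h5

lemma PB_SBf (w : ℕ) : PB (∏ p ∈ pz w, p) (((Vz w)⁻¹) ^ 4) (SBf w) := by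
  constructor
  · intro x x' y y'
    unfold SBf
    rw [abs_of_nonneg (Sw_nonneg _ _ _)]
    exact Sw_le_V _ _ _
  · intro x x' y y' x2 x2' y2 y2' h1 h2 h3 h4
    unfold SBf
    apply Sw_mod 2 _ _ w (∏ p ∈ pz w, p) (fun p hp => dvd_prod_of_mem _ hp)
    intro i
    fin_cases i
    · have e : y - x - (y2 - x2) = (y - y2) - (x - x2) := by ring
      simp only [df, Fin.zero_eta, Matrix.cons_val_zero]
      rw [e]; exact dvd_sub h3 h1
    · have e : y - x' - (y2 - x2') = (y - y2) - (x' - x2') := by ring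
      simp only [df, Fin.mk_one, Matrix.cons_val_one, Matrix.cons_val_zero]
      rw [e]; exact dvd_sub h3 h2
    · have e : y' - x - (y2' - x2) = (y' - y2') - (x - x2) := by ring
      simp only [df, Fin.reduceFinMk, Matrix.cons_val]
      rw [e]; exact dvd_sub h4 h1
    · have e : y' - x' - (y2' - x2') = (y' - y2') - (x' - x2') := by ring
      simp only [df, Fin.reduceFinMk, Matrix.cons_val]
      rw [e]; exact dvd_sub h4 h2

theorem T1b : ∃ B : ℕ, 1 ≤ B ∧ ∀ w : ℕ, ∀ η : ℝ, 0 < η → ∀ᶠ n : ℕ in atTop, ∀ e : Fin 4 → Bool,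
    |S4 n (fun x x' y y' => (∏ i, aa n w (e i) (sg x x' y y' i)) * SBf w x x' y y') -
      S4 n (fun x x' y y' => (∏ i, lz (zz (zp B n) w (e i)) (sg x x' y y' i)) * SBf w x x' y y')| ≤ η * n ^ 4 := by
  obtain ⟨C, hC1, hC⟩ := V_low'
  obtain ⟨B, hB, hfou⟩ := fou (3 * C + 1)
  refine ⟨B, hB, fun w η hη => ?_⟩
  obtain ⟨P, hP⟩ : ∃ P, P = ∏ p ∈ pz w, p := ⟨_, rfl⟩
  have hP1 : 1 ≤ P := by
    rw [hP]
    exact Nat.one_le_iff_ne_zero.2 (prod_ne_zero_iff.2 fun p hp => (mem_pz.1 hp).2.ne_zero)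
  obtain ⟨Ms, hMs⟩ : ∃ Ms, Ms = ((Vz w)⁻¹) ^ 4 := ⟨_, rfl⟩
  have hMs0 : 0 ≤ Ms := by
    rw [hMs]
    exact pow_nonneg (inv_nonneg.2 (Vz_pos w).le) 4
  have hPB : PB P Ms (SBf w) := by rw [hP, hMs]; exact PB_SBf w
  filter_upwards [hC, hfou, zp_ge B w hB, zp_small B 1, eventually_ge_atTop (max w 2), ev_L (max 1 (96 * P ^ 2 * Ms / η))]
    with n h1 h2 h3 h4 hn hLL e
  have hn2 : 2 ≤ n := le_trans (le_max_right _ _) hn
  have hwn : w ≤ n := le_trans (le_max_left _ _) hn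
  have hL : 1 ≤ Real.log n := le_trans (le_max_left _ _) hLL
  have hLη : 96 * P ^ 2 * Ms / η ≤ Real.log n := le_trans (le_max_right _ _) hLL
  rw [pow_one] at h4
  have hn0 : (0 : ℝ) < n := by exact_mod_cast (by omega : 0 < n)
  have hLC : 1 ≤ Real.log n ^ C := one_le_pow₀ hL
  have hlz : ∀ (z : ℕ) (m : ℤ), z ≤ n → |lz z m| ≤ 2 * Real.log n ^ C := by
    intro z m hz
    rw [abs_of_nonneg (lz_nonneg _ _)]
    refine (lz_le z m).trans ((h1 z hz).trans ?_)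
    linarith
  have h5 := S4_rep n P (by omega) hP1 (fun i => aa n w (e i)) (fun i => lz (zz (zp B n) w (e i))) (3 * n / Real.log n ^ (3 * C + 1))
    (2 * Real.log n ^ C) (by
      intro i α
      cases he : e i
      · have : ∀ m : ℕ, ((aa n w false (m : ℤ) - lz (zz (zp B n) w false) (m : ℤ) : ℝ) : ℂ) * ee ((m : ℝ) * α) = 0 := by
          intro m
          unfold aa zz
          simp
        rw [sum_congr rfl fun m _ => this m]
        simp only [sum_const_zero, norm_zero]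
        positivity
      · refine le_trans (le_of_eq ?_) (h2 α)
        congr 1) (by
      intro i x
      unfold aa
      split_ifs
      · rw [abs_of_nonneg (ap_nonneg _ _)]
        refine (ap_le n hn2 x).trans ?_
        have : Real.log n ^ 1 ≤ Real.log n ^ C := pow_le_pow_right₀ hL hC1
        rw [pow_one] at this
        linarith
      · exact hlz w x hwn) (by
      intro i x
      apply hlz
      unfold zz
      split_ifs
      · exact h4
      · exact hwn) (SBf w) Ms hPB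
  refine h5.trans ?_
  have e1 : 4 * ((P : ℝ) ^ 2 * Ms * (2 * Real.log n ^ C) ^ 3 * (3 * n / Real.log n ^ (3 * C + 1)) * n ^ 3) =
      (96 * P ^ 2 * Ms) / Real.log n * n ^ 4 := by
    have hL0 : Real.log n ≠ 0 := by positivity
    have e2 : Real.log n ^ (3 * C + 1) = (Real.log n ^ C) ^ 3 * Real.log n := by
      rw [pow_succ, ← pow_mul, mul_comm 3 C]
    rw [e2]
    have hLC0 : Real.log n ^ C ≠ 0 := by positivity
    field_simp
    ring
  rw [e1]
  apply mul_le_mul_of_nonneg_right _ (by positivity)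
  rw [div_le_iff₀ (by linarith)]
  rw [div_le_iff₀ hη] at hLη
  linarith

/-- the trace lemma -/
theorem trace : ∃ CT : ℝ, 0 < CT ∧ ∀ ε : ℝ, 0 < ε → ∃ K0 : ℕ, ∀ K : ℕ, K0 ≤ K → ∀ w : ℕ, 4 ≤ w → ∀ η : ℝ, 0 < η →
    ∀ᶠ n : ℕ in atTop, ∀ e : Fin 4 → Bool,
    |TT n (rt K n) w e - S4 n (fun x x' y y' => SAf w x x' y y' * SBf w x x' y y')| ≤
      (CT * (256 / √(w : ℝ) + 32 * ε) + η) * n ^ 4 := by
  obtain ⟨CT1, hCT1, ha⟩ := T1a
  obtain ⟨CT2, hCT2, hc⟩ := T1c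
  obtain ⟨B, hB, hb⟩ := T1b
  refine ⟨CT1 + CT2, by positivity, fun ε hε => ?_⟩
  obtain ⟨K0, hK0⟩ := ha ε hε
  refine ⟨K0, fun K hK w hw η hη => ?_⟩
  filter_upwards [hK0 K hK w hw (η / 3) (by positivity), hc ε hε B hB w hw (η / 3) (by positivity), hb w (η / 3) (by positivity)]
    with n h1 h2 h3 e
  have g1 := h1 e
  have g2 := h2 e
  have g3 := h3 e
  have key : ∀ a b c d : ℝ, |a - d| ≤ |a - b| + |b - c| + |c - d| := by
    intro a b c d
    have e1 : a - d = (a - b) + (b - c) + (c - d) := by ring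
    rw [e1]
    exact (abs_add_le _ _).trans (add_le_add (abs_add_le _ _) le_rfl)
  refine (key _ _ _ _).trans ((add_le_add (add_le_add g1 g3) g2).trans (le_of_eq ?_))
  ring

end Pool.Agent.W2helper88.GR
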